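import Mathlib

/-!
# Approximating a vector in the span of the low eigenvectors
-/

open Matrix Module
open scoped InnerProductSpace

namespace Pool.Agent.Helper53.VCR

variable {V : Type*} [Fintype V] [DecidableEq V]

/-- The span of the eigenvectors of `W` with eigenvalue at most `c`. -/
def lowSpan (W : Matrix V V ℝ) (c : ℝ) : Submodule ℝ (EuclideanSpace ℝ V) :=
  Submodule.span ℝ {z | ∃ l : ℝ, l ≤ c ∧ ∀ u, ∑ v, W u v * z v = l * z u}

/-- The quadratic form of `1 + W`. -/
def qform (W : Matrix V V ℝ) (z : V → ℝ) : ℝ :=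
  ∑ u, z u ^ 2 + ∑ u, ∑ v, W u v * (z u * z v)

section
variable {W : Matrix V V ℝ} (hW : W.IsHermitian)

include hW in
omit [DecidableEq V] in
theorem symm_apply (u v : V) : W u v = W v u := by
  have := hW.apply u v
  simpa using this.symm

theorem eig_apply (j u : V) :
    ∑ v, W u v * (hW.eigenvectorBasis j) v = hW.eigenvalues j * (hW.eigenvectorBasis j) u := by
  have h := congrFun (hW.mulVec_eigenvectorBasis j) u
  simpa [Matrix.mulVec, dotProduct] using h

/-- inner product with an eigenvector, transported through `W` -/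
theorem inner_eig (f : EuclideanSpace ℝ V) (j : V) :
    ∑ u, (hW.eigenvectorBasis j) u * ∑ v, W u v * f v
      = hW.eigenvalues j * ⟪hW.eigenvectorBasis j, f⟫_ℝ := by
  have e1 : ∑ u, (hW.eigenvectorBasis j) u * ∑ v, W u v * f v
      = ∑ v, (∑ u, W v u * (hW.eigenvectorBasis j) u) * f v := by
    simp_rw [Finset.mul_sum, Finset.sum_mul]
    rw [Finset.sum_comm]
    refine Finset.sum_congr rfl fun v _ => Finset.sum_congr rfl fun u _ => ?_
    rw [symm_apply hW u v]
    ring
  rw [e1]
  simp_rw [eig_apply hW j]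
  rw [PiLp.inner_apply, Finset.mul_sum]
  refine Finset.sum_congr rfl fun v _ => ?_
  simp
  ring

/-- Spectral form of the quadratic form. -/
theorem qform_eq (f : EuclideanSpace ℝ V) :
    qform W f = ∑ j, (1 + hW.eigenvalues j) * ⟪hW.eigenvectorBasis j, f⟫_ℝ ^ 2 := by
  have h1 : ∑ u, f u ^ 2 = ∑ j, ⟪hW.eigenvectorBasis j, f⟫_ℝ ^ 2 := by
    have := hW.eigenvectorBasis.sum_sq_norm_inner_right f
    simp only [Real.norm_eq_abs, sq_abs] at this
    rw [this, EuclideanSpace.real_norm_sq_eq]
  have h2 : ∑ u, ∑ v, W u v * (f u * f v)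
      = ∑ j, hW.eigenvalues j * ⟪hW.eigenvectorBasis j, f⟫_ℝ ^ 2 := by
    have hf : ∀ u, f u = ∑ j, ⟪hW.eigenvectorBasis j, f⟫_ℝ * (hW.eigenvectorBasis j) u := by
      intro u
      have := congrArg (fun g : EuclideanSpace ℝ V => g u) (hW.eigenvectorBasis.sum_repr' f)
      simpa using this.symm
    calc ∑ u, ∑ v, W u v * (f u * f v) = ∑ u, f u * ∑ v, W u v * f v := by
          refine Finset.sum_congr rfl fun u _ => ?_
          rw [Finset.mul_sum]
          exact Finset.sum_congr rfl fun v _ => by ring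
      _ = ∑ u, (∑ j, ⟪hW.eigenvectorBasis j, f⟫_ℝ * (hW.eigenvectorBasis j) u)
            * ∑ v, W u v * f v := by
          refine Finset.sum_congr rfl fun u _ => ?_
          rw [← hf u]
      _ = ∑ j, ⟪hW.eigenvectorBasis j, f⟫_ℝ * ∑ u, (hW.eigenvectorBasis j) u
            * ∑ v, W u v * f v := by
          simp_rw [Finset.sum_mul]
          rw [Finset.sum_comm]
          refine Finset.sum_congr rfl fun j _ => ?_
          rw [Finset.mul_sum]
          exact Finset.sum_congr rfl fun u _ => by ring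
      _ = _ := by
          refine Finset.sum_congr rfl fun j _ => ?_
          rw [inner_eig hW f j]
          ring
  unfold qform
  rw [h1, h2, ← Finset.sum_add_distrib]
  exact Finset.sum_congr rfl fun j _ => by ring

include hW in
/-- Every vector is close to the low space when its quadratic form is small. -/
theorem exists_low_approx (hpos : ∀ z : V → ℝ, 0 ≤ qform W z) (η : ℝ) (hη : 0 < η)
    (f : EuclideanSpace ℝ V) :
    ∃ y ∈ lowSpan W (-(1 - η)), ‖y‖ ≤ ‖f‖ ∧ ‖f - y‖ ^ 2 ≤ qform W f / η := by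
  classical
  set b := hW.eigenvectorBasis with hb
  set lam := hW.eigenvalues with hlam
  set c : V → ℝ := fun j => ⟪b j, f⟫_ℝ with hc
  let L : Finset V := Finset.univ.filter fun j => lam j ≤ -(1 - η)
  let y : EuclideanSpace ℝ V := ∑ j ∈ L, c j • b j
  have hyin : ∀ i, ⟪b i, y⟫_ℝ = if i ∈ L then c i else 0 := by
    intro i
    simp only [y, inner_sum, inner_smul_right]
    have : ∀ j ∈ L, c j * ⟪b i, b j⟫_ℝ = if i = j then c j else 0 := by
      intro j _
      rw [b.inner_eq_ite]
      split_ifs <;> simp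
    rw [Finset.sum_congr rfl this, Finset.sum_ite_eq]
  have hnorm : ∀ g : EuclideanSpace ℝ V, ‖g‖ ^ 2 = ∑ i, ⟪b i, g⟫_ℝ ^ 2 := by
    intro g
    have := b.sum_sq_norm_inner_right g
    simp only [Real.norm_eq_abs, sq_abs] at this
    exact this.symm
  have hpos1 : ∀ i, 0 ≤ 1 + lam i := by
    intro i
    have h := hpos (b i)
    rw [qform_eq hW] at h
    have : ∑ j, (1 + hW.eigenvalues j) * ⟪hW.eigenvectorBasis j, b i⟫_ℝ ^ 2 = 1 + lam i := by
      rw [Finset.sum_eq_single i]
      · rw [← hb, b.inner_eq_one]; simp [hlam]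
      · intro j _ hji
        rw [← hb, b.inner_eq_zero hji]; simp
      · simp
    rwa [this] at h
  refine ⟨y, ?_, ?_, ?_⟩
  · refine Submodule.sum_mem _ fun j hj => Submodule.smul_mem _ _ (Submodule.subset_span ?_)
    refine ⟨lam j, (Finset.mem_filter.1 hj).2, fun u => eig_apply hW j u⟩
  · apply (sq_le_sq₀ (norm_nonneg _) (norm_nonneg _)).1
    rw [hnorm, hnorm]
    refine Finset.sum_le_sum fun i _ => ?_
    rw [hyin]
    split_ifs
    · exact le_rfl
    · simpa using sq_nonneg _
  · rw [le_div_iff₀ hη, hnorm, qform_eq hW, Finset.sum_mul]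
    refine Finset.sum_le_sum fun i _ => ?_
    rw [inner_sub_right, hyin]
    split_ifs with h
    · simp only [hc, sub_self]
      have := mul_nonneg (hpos1 i) (sq_nonneg ⟪b i, f⟫_ℝ)
      simpa using this
    · have h1 : η ≤ 1 + lam i := by
        have : ¬ lam i ≤ -(1 - η) := fun h' => h (Finset.mem_filter.2 ⟨Finset.mem_univ _, h'⟩)
        linarith [not_le.1 this]
      rw [sub_zero, mul_comm]
      exact mul_le_mul_of_nonneg_right h1 (sq_nonneg _)

/-- The low space is spanned by the low part of the eigenbasis. -/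
theorem finrank_low_le (c : ℝ) :
    finrank ℝ (lowSpan W c) ≤ (Finset.univ.filter fun j => hW.eigenvalues j ≤ c).card := by
  classical
  set b := hW.eigenvectorBasis with hb
  set lam := hW.eigenvalues with hlam
  let L : Finset V := Finset.univ.filter fun j => lam j ≤ c
  have hle : lowSpan W c ≤ Submodule.span ℝ (Finset.image b L : Set (EuclideanSpace ℝ V)) := by
    unfold lowSpan
    rw [Submodule.span_le]
    rintro z ⟨l, hl, hz⟩
    have hzs : z = ∑ i, ⟪b i, z⟫_ℝ • b i := (b.sum_repr' z).symm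
    have hkey : ∀ i, (lam i - l) * ⟪b i, z⟫_ℝ = 0 := by
      intro i
      have h1 := inner_eig hW z i
      simp_rw [hz] at h1
      have h2 : ∑ u, (hW.eigenvectorBasis i) u * (l * z u) = l * ⟪b i, z⟫_ℝ := by
        rw [PiLp.inner_apply, Finset.mul_sum]
        refine Finset.sum_congr rfl fun v _ => ?_
        simp [hb]
        ring
      rw [h2] at h1
      rw [sub_mul, h1, hlam]
      simp [hb]
    rw [SetLike.mem_coe, hzs]
    refine Submodule.sum_mem _ fun i _ => ?_
    by_cases hi : i ∈ L
    · refine Submodule.smul_mem _ _ (Submodule.subset_span ?_)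
      simp only [Finset.coe_image, Set.mem_image, Finset.mem_coe]
      exact ⟨i, hi, rfl⟩
    · have : ⟪b i, z⟫_ℝ = 0 := by
        have h := hkey i
        rcases mul_eq_zero.1 h with h | h
        · exfalso
          apply hi
          refine Finset.mem_filter.2 ⟨Finset.mem_univ _, ?_⟩
          linarith
        · exact h
      rw [this, zero_smul]
      exact Submodule.zero_mem _
  calc finrank ℝ (lowSpan W c)
      ≤ finrank ℝ (Submodule.span ℝ (Finset.image b L : Set (EuclideanSpace ℝ V))) :=
        Submodule.finrank_mono hle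
    _ ≤ (Finset.image b L).card := finrank_span_finset_le_card _
    _ ≤ L.card := Finset.card_image_le

theorem pow_eig (n : ℕ) (j : V) :
    (W ^ n) *ᵥ (hW.eigenvectorBasis j).ofLp
      = (hW.eigenvalues j) ^ n • (hW.eigenvectorBasis j).ofLp := by
  induction n with
  | zero => simp
  | succ n ih =>
    rw [pow_succ, ← Matrix.mulVec_mulVec, hW.mulVec_eigenvectorBasis, Matrix.mulVec_smul, ih,
      smul_smul, pow_succ]
    congr 1
    ring

theorem trace_pow_eq (n : ℕ) : trace (W ^ n) = ∑ j, hW.eigenvalues j ^ n := by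
  have h1 := LinearMap.trace_eq_sum_inner (Matrix.toEuclideanLin (W ^ n)) hW.eigenvectorBasis
  have h2 := LinearMap.trace_eq_sum_inner (Matrix.toEuclideanLin (W ^ n))
    (EuclideanSpace.basisFun V ℝ)
  have e1 : ∑ i, ⟪hW.eigenvectorBasis i, Matrix.toEuclideanLin (W ^ n) (hW.eigenvectorBasis i)⟫_ℝ
      = ∑ j, hW.eigenvalues j ^ n := by
    refine Finset.sum_congr rfl fun j _ => ?_
    have : Matrix.toEuclideanLin (W ^ n) (hW.eigenvectorBasis j)
        = (hW.eigenvalues j ^ n) • hW.eigenvectorBasis j := by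
      rw [Matrix.toEuclideanLin_apply, pow_eig]
      rfl
    rw [this, inner_smul_right, hW.eigenvectorBasis.inner_eq_one, mul_one]
  have e2 : ∑ i, ⟪EuclideanSpace.basisFun V ℝ i,
      Matrix.toEuclideanLin (W ^ n) (EuclideanSpace.basisFun V ℝ i)⟫_ℝ = trace (W ^ n) := by
    unfold Matrix.trace
    refine Finset.sum_congr rfl fun j _ => ?_
    rw [EuclideanSpace.basisFun_apply, EuclideanSpace.inner_single_left,
      Matrix.toEuclideanLin_apply]
    simp
  rw [← e1, ← e2, ← h1, ← h2]

include hW in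
theorem finrank_mul_le_trace (c : ℝ) (hc : 0 ≤ c) (t : ℕ) :
    (finrank ℝ (lowSpan W (-c)) : ℝ) * c ^ (2 * t) ≤ trace (W ^ (2 * t)) := by
  classical
  rw [trace_pow_eq hW]
  have h1 : (finrank ℝ (lowSpan W (-c)) : ℝ)
      ≤ ((Finset.univ.filter fun j => hW.eigenvalues j ≤ -c).card : ℝ) := by
    exact_mod_cast finrank_low_le hW (-c)
  calc (finrank ℝ (lowSpan W (-c)) : ℝ) * c ^ (2 * t)
      ≤ ((Finset.univ.filter fun j => hW.eigenvalues j ≤ -c).card : ℝ) * c ^ (2 * t) :=
        mul_le_mul_of_nonneg_right h1 (by positivity)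
    _ = ∑ j ∈ Finset.univ.filter fun j => hW.eigenvalues j ≤ -c, c ^ (2 * t) := by
        rw [Finset.sum_const, nsmul_eq_mul]
    _ ≤ ∑ j ∈ Finset.univ.filter fun j => hW.eigenvalues j ≤ -c, hW.eigenvalues j ^ (2 * t) := by
        refine Finset.sum_le_sum fun j hj => ?_
        have hj := (Finset.mem_filter.1 hj).2
        rw [pow_mul, pow_mul]
        apply pow_le_pow_left₀ (by positivity)
        nlinarith
    _ ≤ ∑ j, hW.eigenvalues j ^ (2 * t) := by
        apply Finset.sum_le_sum_of_subset_of_nonneg (Finset.subset_univ _)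
        intro j _ _
        rw [pow_mul]
        positivity

end

end Pool.Agent.Helper53.VCR
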