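import Mathlib
import Pool.Agent.Helper53.VCR.Spec

/-!
# Vertex covers, half-integral solutions, fractional matchings, rounding
-/

open Matrix Module
open scoped InnerProductSpace

namespace Pool.Agent.Helper53.VCR

variable {V : Type*} [Fintype V]

/-- `x` is an optimal solution of the vertex cover linear program of `G` all of whose values are
`0`, `1/2` or `1`. -/
structure HalfOpt (G : SimpleGraph V) (x : V → ℝ) : Prop where
  half : ∀ v, x v = 0 ∨ x v = 1 / 2 ∨ x v = 1
  cover : ∀ u v, G.Adj u v → 1 ≤ x u + x v
  opt : ∀ y : V → ℝ, (∀ v, 0 ≤ y v) → (∀ u v, G.Adj u v → 1 ≤ y u + y v) →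
    ∑ v, x v ≤ ∑ v, y v

/-- `W` is a fractional matching of the subgraph of `G` induced on the vertices with `x = 1/2`. -/
structure FracMatching (G : SimpleGraph V) (x : V → ℝ) (W : Matrix V V ℝ) : Prop where
  symm : ∀ u v, W u v = W v u
  nonneg : ∀ u v, 0 ≤ W u v
  supp : ∀ u v, W u v ≠ 0 → G.Adj u v ∧ x u = 1 / 2 ∧ x v = 1 / 2
  row : ∀ u, ∑ v, W u v ≤ 1

/-- `M` is a matching of `G` with all its vertices in `S`, and no edge of `G` inside `S` misses
it. -/
def IsMaxMatching (G : SimpleGraph V) (S : Set V) (M : G.Subgraph) : Prop :=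
  M.IsMatching ∧ M.verts ⊆ S ∧ ∀ u ∈ S, ∀ v ∈ S, G.Adj u v → u ∈ M.verts ∨ v ∈ M.verts

/-- The candidate cover built from a vector `z`, a threshold `θ` and a matching `M`. -/
def cand {G : SimpleGraph V} (x : V → ℝ) (z : V → ℝ) (θ : ℝ) (M : G.Subgraph) : Set V :=
  {v | x v = 1} ∪ {v | x v = 1 / 2 ∧ z v ≤ θ} ∪ M.verts

/-- `C` is a vertex cover of `G` of size at most `c` times the size of every vertex cover. -/
def Within (G : SimpleGraph V) (c : ℝ) (C : Set V) : Prop :=
  G.IsVertexCover C ∧ ∀ K : Set V, G.IsVertexCover K → (C.ncard : ℝ) ≤ c * K.ncard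

/-- The number of vertices with `x = 1/2`. -/
noncomputable def halfCount (x : V → ℝ) : ℕ := {v | x v = 1 / 2}.ncard

section
variable {G : SimpleGraph V} {x : V → ℝ}

theorem HalfOpt.nonneg (hx : HalfOpt G x) (v : V) : 0 ≤ x v := by
  rcases hx.half v with h | h | h <;> rw [h] <;> norm_num

open Classical in
theorem persist_one (hx : HalfOpt G x) (K : Set V) (hK : G.IsVertexCover K) :
    (Finset.univ.filter fun v => x v = 1).card
      ≤ (Finset.univ.filter fun v => v ∈ K ∧ x v ≠ 1 / 2).card := by
  let y : V → ℝ := fun v => if x v = 1 / 2 then 1 / 2 else (x v + if v ∈ K then 1 else 0) / 2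
  have hy0 : ∀ v, 0 ≤ y v := by
    intro v
    have := hx.nonneg v
    simp only [y]
    split_ifs <;> linarith
  have hyc : ∀ u v, G.Adj u v → 1 ≤ y u + y v := by
    intro u v huv
    have hc := hx.cover u v huv
    have hku := hK huv
    simp only [y]
    by_cases hu : x u = 1 / 2
    · rw [if_pos hu]
      by_cases hv : x v = 1 / 2
      · rw [if_pos hv]; norm_num
      · rw [if_neg hv]
        have hv1 : x v = 1 := by
          rcases hx.half v with h | h | h
          · rw [h, hu] at hc; norm_num at hc
          · exact absurd h hv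
          · exact h
        rw [hv1]
        split_ifs <;> norm_num
    · rw [if_neg hu]
      by_cases hv : x v = 1 / 2
      · rw [if_pos hv]
        have hu1 : x u = 1 := by
          rcases hx.half u with h | h | h
          · rw [h, hv] at hc; norm_num at hc
          · exact absurd h hu
          · exact h
        rw [hu1]
        split_ifs <;> norm_num
      · rw [if_neg hv]
        rcases hku with h | h
        · rw [if_pos h]
          split_ifs <;> linarith
        · rw [if_pos h]
          split_ifs <;> linarith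
  have ho := hx.opt y hy0 hyc
  have h1 : ∑ v, x v = ∑ v, (if x v = 1 / 2 then (1 / 2 : ℝ) else 0)
      + ((Finset.univ.filter fun v => x v = 1).card : ℝ) := by
    rw [Finset.card_filter]
    push_cast
    rw [← Finset.sum_add_distrib]
    refine Finset.sum_congr rfl fun v _ => ?_
    rcases hx.half v with h | h | h <;> rw [h] <;> norm_num
  have h2 : ∑ v, y v = ∑ v, (if x v = 1 / 2 then (1 / 2 : ℝ) else 0)
      + (((Finset.univ.filter fun v => x v = 1).card : ℝ)
        + ((Finset.univ.filter fun v => v ∈ K ∧ x v ≠ 1 / 2).card : ℝ)) / 2 := by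
    rw [Finset.card_filter, Finset.card_filter]
    push_cast
    rw [← Finset.sum_add_distrib, Finset.sum_div, ← Finset.sum_add_distrib]
    refine Finset.sum_congr rfl fun v _ => ?_
    simp only [y]
    by_cases hk : v ∈ K
    · rcases hx.half v with h | h | h <;> rw [h] <;> simp [hk] <;> norm_num
    · rcases hx.half v with h | h | h <;> rw [h] <;> simp [hk] <;> norm_num
  rw [h1, h2] at ho
  have : ((Finset.univ.filter fun v => x v = 1).card : ℝ)
      ≤ ((Finset.univ.filter fun v => v ∈ K ∧ x v ≠ 1 / 2).card : ℝ) := by linarith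
  exact_mod_cast this

open Classical in
theorem persist_half (hx : HalfOpt G x) (K : Set V) (hK : G.IsVertexCover K) :
    (Finset.univ.filter fun v => x v = 1 / 2).card
      ≤ 2 * (Finset.univ.filter fun v => v ∈ K ∧ x v = 1 / 2).card := by
  let y : V → ℝ := fun v => if x v = 1 / 2 then (if v ∈ K then 1 else 0) else x v
  have hy0 : ∀ v, 0 ≤ y v := by
    intro v
    have := hx.nonneg v
    simp only [y]
    split_ifs <;> linarith
  have hyc : ∀ u v, G.Adj u v → 1 ≤ y u + y v := by
    intro u v huv
    have hc := hx.cover u v huv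
    have hku := hK huv
    simp only [y]
    by_cases hu : x u = 1 / 2
    · rw [if_pos hu]
      by_cases hv : x v = 1 / 2
      · rw [if_pos hv]
        rcases hku with h | h
        · rw [if_pos h]; split_ifs <;> norm_num
        · rw [if_pos h]; split_ifs <;> norm_num
      · rw [if_neg hv]
        have hv1 : x v = 1 := by
          rcases hx.half v with h | h | h
          · rw [h, hu] at hc; norm_num at hc
          · exact absurd h hv
          · exact h
        rw [hv1]
        split_ifs <;> norm_num
    · rw [if_neg hu]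
      by_cases hv : x v = 1 / 2
      · rw [if_pos hv]
        have hu1 : x u = 1 := by
          rcases hx.half u with h | h | h
          · rw [h, hv] at hc; norm_num at hc
          · exact absurd h hu
          · exact h
        rw [hu1]
        split_ifs <;> norm_num
      · rw [if_neg hv]
        exact hc
  have ho := hx.opt y hy0 hyc
  have h1 : ∑ v, x v = ∑ v, (if x v = 1 / 2 then (0 : ℝ) else x v)
      + ((Finset.univ.filter fun v => x v = 1 / 2).card : ℝ) / 2 := by
    rw [Finset.card_filter]
    push_cast
    rw [Finset.sum_div, ← Finset.sum_add_distrib]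
    refine Finset.sum_congr rfl fun v _ => ?_
    split_ifs with h
    · rw [h]; norm_num
    · simp
  have h2 : ∑ v, y v = ∑ v, (if x v = 1 / 2 then (0 : ℝ) else x v)
      + ((Finset.univ.filter fun v => v ∈ K ∧ x v = 1 / 2).card : ℝ) := by
    rw [Finset.card_filter]
    push_cast
    rw [← Finset.sum_add_distrib]
    refine Finset.sum_congr rfl fun v _ => ?_
    simp only [y]
    by_cases h : x v = 1 / 2
    · by_cases hk : v ∈ K
      · simp [h, hk]
      · simp [h, hk]
    · rw [if_neg h, if_neg h, if_neg (fun h' => h h'.2), add_zero]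
  rw [h1, h2] at ho
  have : ((Finset.univ.filter fun v => x v = 1 / 2).card : ℝ)
      ≤ 2 * ((Finset.univ.filter fun v => v ∈ K ∧ x v = 1 / 2).card : ℝ) := by linarith
  exact_mod_cast this

variable {W : Matrix V V ℝ}

theorem qform_nonneg (hW : FracMatching G x W) (z : V → ℝ) : 0 ≤ qform W z := by
  have h1 : ∑ u, (∑ v, W u v) * z u ^ 2 ≤ ∑ u, z u ^ 2 := by
    refine Finset.sum_le_sum fun u _ => ?_
    have := mul_le_mul_of_nonneg_right (hW.row u) (sq_nonneg (z u))
    linarith
  have h2 : ∑ u, (∑ v, W u v) * z u ^ 2 = ∑ u, ∑ v, W u v * z u ^ 2 :=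
    Finset.sum_congr rfl fun u _ => Finset.sum_mul _ _ _
  have h3 : ∑ u, ∑ v, W u v * z u ^ 2 = ∑ u, ∑ v, W u v * z v ^ 2 := by
    rw [Finset.sum_comm]
    exact Finset.sum_congr rfl fun v _ => Finset.sum_congr rfl fun u _ => by rw [hW.symm u v]
  have h4 : 0 ≤ ∑ u, ∑ v, W u v * (z u + z v) ^ 2 :=
    Finset.sum_nonneg fun u _ => Finset.sum_nonneg fun v _ =>
      mul_nonneg (hW.nonneg u v) (sq_nonneg _)
  have h5 : ∑ u, ∑ v, W u v * (z u + z v) ^ 2
      = ∑ u, ∑ v, W u v * z u ^ 2 + ∑ u, ∑ v, W u v * z v ^ 2
        + 2 * ∑ u, ∑ v, W u v * (z u * z v) := by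
    rw [Finset.mul_sum, ← Finset.sum_add_distrib, ← Finset.sum_add_distrib]
    refine Finset.sum_congr rfl fun u _ => ?_
    rw [Finset.mul_sum, ← Finset.sum_add_distrib, ← Finset.sum_add_distrib]
    exact Finset.sum_congr rfl fun v _ => by ring
  unfold qform
  rw [h5, ← h3] at h4
  rw [h2] at h1
  linarith

open Classical in
/-- The sign vector of a vertex cover on the half-integral part. -/
noncomputable def sgn (x : V → ℝ) (K : Set V) (v : V) : ℝ :=
  if x v = 1 / 2 then (if v ∈ K then -1 else 1) else 0

open Classical in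
theorem qform_sgn (hW : FracMatching G x W) (K : Set V) (hK : G.IsVertexCover K) :
    qform W (sgn x K) ≤ ((Finset.univ.filter fun v => x v = 1 / 2).card : ℝ)
      - 3 * ∑ u, ∑ v, W u v + 4 * ((Finset.univ.filter fun v => v ∈ K ∧ x v = 1 / 2).card : ℝ) := by
  have h1 : ∑ u, sgn x K u ^ 2 = ((Finset.univ.filter fun v => x v = 1 / 2).card : ℝ) := by
    rw [Finset.card_filter]
    push_cast
    refine Finset.sum_congr rfl fun v _ => ?_
    unfold sgn
    split_ifs <;> norm_num
  let k : V → ℝ := fun v => if v ∈ K then 1 else 0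
  have h2 : ∀ u v, W u v * (sgn x K u * sgn x K v) = W u v * (2 * (k u + k v) - 3) := by
    intro u v
    by_cases hw : W u v = 0
    · rw [hw]; ring
    · obtain ⟨ha, hu, hv⟩ := hW.supp u v hw
      congr 1
      have := hK ha
      simp only [sgn, k, hu, hv, if_true]
      by_cases h1 : u ∈ K
      · by_cases h2 : v ∈ K
        · simp [h1, h2]; norm_num
        · simp [h1, h2]; norm_num
      · have h2 : v ∈ K := by tauto
        simp [h1, h2]; norm_num
  have h3 : ∑ u, ∑ v, W u v * (sgn x K u * sgn x K v)
      = 4 * ∑ u, k u * ∑ v, W u v - 3 * ∑ u, ∑ v, W u v := by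
    have e1 : ∑ u, ∑ v, W u v * (sgn x K u * sgn x K v)
        = 2 * ∑ u, ∑ v, W u v * k u + 2 * ∑ u, ∑ v, W u v * k v - 3 * ∑ u, ∑ v, W u v := by
      simp_rw [h2, Finset.mul_sum]
      rw [← Finset.sum_add_distrib, ← Finset.sum_sub_distrib]
      refine Finset.sum_congr rfl fun u _ => ?_
      rw [← Finset.sum_add_distrib, ← Finset.sum_sub_distrib]
      exact Finset.sum_congr rfl fun v _ => by ring
    have e2 : ∑ u, ∑ v, W u v * k v = ∑ u, ∑ v, W u v * k u := by
      rw [Finset.sum_comm]
      exact Finset.sum_congr rfl fun v _ => Finset.sum_congr rfl fun u _ => by rw [hW.symm u v]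
    have e3 : ∑ u, ∑ v, W u v * k u = ∑ u, k u * ∑ v, W u v := by
      refine Finset.sum_congr rfl fun u _ => ?_
      rw [Finset.mul_sum]
      exact Finset.sum_congr rfl fun v _ => by ring
    rw [e1, e2, e3]
    ring
  have h4 : ∑ u, k u * ∑ v, W u v
      ≤ ((Finset.univ.filter fun v => v ∈ K ∧ x v = 1 / 2).card : ℝ) := by
    rw [Finset.card_filter]
    push_cast
    refine Finset.sum_le_sum fun u _ => ?_
    by_cases hu : x u = 1 / 2
    · by_cases hk : u ∈ K
      · simp only [k, hu, hk]
        simpa using hW.row u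
      · simp [k, hk]
    · have : ∑ v, W u v = 0 := by
        refine Finset.sum_eq_zero fun v _ => ?_
        by_contra hne
        exact hu (hW.supp u v hne).2.1
      rw [this, mul_zero]
      split_ifs <;> norm_num
  unfold qform
  rw [h1, h3]
  linarith

theorem cand_cover (hx : HalfOpt G x) (z : V → ℝ) (θ : ℝ) (M : G.Subgraph)
    (hM : IsMaxMatching G {v | x v = 1 / 2 ∧ θ < z v} M) : G.IsVertexCover (cand x z θ M) := by
  intro u v huv
  have hc := hx.cover u v huv
  unfold cand
  simp only [Set.mem_union, Set.mem_setOf_eq]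
  rcases hx.half u with hu | hu | hu
  · rcases hx.half v with hv | hv | hv
    · rw [hu, hv] at hc; norm_num at hc
    · rw [hu, hv] at hc; norm_num at hc
    · tauto
  · rcases hx.half v with hv | hv | hv
    · rw [hu, hv] at hc; norm_num at hc
    · by_cases h1 : z u ≤ θ
      · tauto
      · by_cases h2 : z v ≤ θ
        · tauto
        · have := hM.2.2 u ⟨hu, not_le.1 h1⟩ v ⟨hv, not_le.1 h2⟩ huv
          tauto
    · tauto
  · tauto

open Classical in
/-- A matching has at most twice as many vertices as it has vertices in a vertex cover. -/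
theorem matching_card (M : G.Subgraph) (hM : M.IsMatching) (K : Set V) (hK : G.IsVertexCover K) :
    (Finset.univ.filter fun v => v ∈ M.verts).card
      ≤ 2 * (Finset.univ.filter fun v => v ∈ M.verts ∧ v ∈ K).card := by
  have h1 : (Finset.univ.filter fun v => v ∈ M.verts).card
      = (Finset.univ.filter fun v => v ∈ M.verts ∧ v ∈ K).card
        + (Finset.univ.filter fun v => v ∈ M.verts ∧ v ∉ K).card := by
    rw [← Finset.card_filter_add_card_filter_not (s := Finset.univ.filter fun v => v ∈ M.verts)
      (fun v => v ∈ K), Finset.filter_filter, Finset.filter_filter]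
  have h2 : (Finset.univ.filter fun v => v ∈ M.verts ∧ v ∉ K).card
      ≤ (Finset.univ.filter fun v => v ∈ M.verts ∧ v ∈ K).card := by
    choose! p hp _ using fun v (hv : v ∈ M.verts) => hM hv
    refine Finset.card_le_card_of_injOn p ?_ ?_
    · intro v hv
      simp only [Finset.coe_filter, Finset.mem_univ, true_and, Set.mem_setOf_eq] at hv ⊢
      have ha := hp v hv.1
      refine ⟨ha.snd_mem, ?_⟩
      have := hK ha.adj_sub
      tauto
    · intro v hv w hw hvw
      simp only [Finset.coe_filter, Finset.mem_univ, true_and, Set.mem_setOf_eq] at hv hw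
      have ha := hp v hv.1
      have hb := hp w hw.1
      rw [← hvw] at hb
      exact hM.eq_of_adj_right ha hb
  omega

open Classical in
theorem cand_card (z : V → ℝ) (θ : ℝ) (M : G.Subgraph)
    (hM : IsMaxMatching G {v | x v = 1 / 2 ∧ θ < z v} M) (K : Set V) (hK : G.IsVertexCover K) :
    (cand x z θ M).ncard ≤ (Finset.univ.filter fun v => x v = 1).card
      + (Finset.univ.filter fun v => v ∈ K ∧ x v = 1 / 2).card
      + (((Finset.univ.filter fun v => v ∈ K ∧ x v = 1 / 2).filter fun v => θ < z v).card
      + ((Finset.univ.filter fun v => v ∉ K ∧ x v = 1 / 2).filter fun v => z v ≤ θ).card) := by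
  have h0 : (cand x z θ M).ncard ≤ (Finset.univ.filter fun v => x v = 1).card
      + (Finset.univ.filter fun v => x v = 1 / 2 ∧ z v ≤ θ).card
      + (Finset.univ.filter fun v => v ∈ M.verts).card := by
    have e : cand x z θ M = ((Finset.univ.filter fun v => x v = 1)
        ∪ (Finset.univ.filter fun v => x v = 1 / 2 ∧ z v ≤ θ)
        ∪ (Finset.univ.filter fun v => v ∈ M.verts) : Finset V) := by
      ext v
      simp [cand, or_assoc]
    rw [e, Set.ncard_coe_finset]
    exact (Finset.card_union_le _ _).trans (add_le_add_left (Finset.card_union_le _ _) _)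
  have h1 := matching_card M hM.1 K hK
  have h2 : (Finset.univ.filter fun v => v ∈ M.verts ∧ v ∈ K).card
      ≤ ((Finset.univ.filter fun v => v ∈ K ∧ x v = 1 / 2).filter fun v => θ < z v).card := by
    apply Finset.card_le_card
    intro v hv
    simp only [Finset.mem_filter, Finset.mem_univ, true_and] at hv ⊢
    have := hM.2.1 hv.1
    exact ⟨⟨hv.2, this.1⟩, this.2⟩
  have h3 : (Finset.univ.filter fun v => x v = 1 / 2 ∧ z v ≤ θ).card
      = ((Finset.univ.filter fun v => v ∈ K ∧ x v = 1 / 2).filter fun v => ¬ θ < z v).card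
      + ((Finset.univ.filter fun v => v ∉ K ∧ x v = 1 / 2).filter fun v => z v ≤ θ).card := by
    rw [← Finset.card_filter_add_card_filter_not
      (s := Finset.univ.filter fun v => x v = 1 / 2 ∧ z v ≤ θ) (fun v => v ∈ K)]
    congr 2
    · ext v
      simp only [Finset.mem_filter, Finset.mem_univ, true_and, not_lt]
      tauto
    · ext v
      simp only [Finset.mem_filter, Finset.mem_univ, true_and]
      tauto
  have h4 := Finset.card_filter_add_card_filter_not
    (s := Finset.univ.filter fun v => v ∈ K ∧ x v = 1 / 2) (fun v => θ < z v)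
  omega

end

end Pool.Agent.Helper53.VCR
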