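import Mathlib

/-!
# Nets in balls of finite-dimensional spaces, by a volume argument
-/

open MeasureTheory Metric Module Set
open scoped ENNReal Topology

namespace Pool.Agent.Helper53.VCR

variable {E : Type*} [NormedAddCommGroup E] [NormedSpace ℝ E] [FiniteDimensional ℝ E]

open scoped Function in
/-- An `s`-separated set in the ball of radius `R` has at most `(1 + 2R/s)^dim` points. -/
theorem card_le_of_sep (R s : ℝ) (hR : 0 ≤ R) (hs0 : 0 < s) (S : Finset E)
    (hS : ∀ c ∈ S, ‖c‖ ≤ R)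
    (h : ∀ c ∈ S, ∀ d ∈ S, c ≠ d → s ≤ ‖c - d‖) :
    (S.card : ℝ) ≤ (1 + 2 * R / s) ^ finrank ℝ E := by
  borelize E
  let μ : Measure E := Measure.addHaar
  let δ : ℝ := s / 2
  let ρ : ℝ := R + s / 2
  have δpos : 0 < δ := by positivity
  have ρpos : 0 < ρ := by positivity
  set A := ⋃ c ∈ S, ball (c : E) δ with hA
  have D : Set.Pairwise (S : Set E) (Disjoint on fun c => ball (c : E) δ) := by
    rintro c hc d hd hcd
    apply ball_disjoint_ball
    rw [dist_eq_norm]
    have := h c hc d hd hcd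
    simp only [δ]
    linarith
  have A_subset : A ⊆ ball (0 : E) ρ := by
    refine iUnion₂_subset fun x hx => ?_
    apply ball_subset_ball'
    rw [dist_zero_right]
    have := hS x hx
    simp only [δ, ρ]
    linarith
  have I :
    (S.card : ℝ≥0∞) * ENNReal.ofReal (δ ^ finrank ℝ E) * μ (ball 0 1) ≤
      ENNReal.ofReal (ρ ^ finrank ℝ E) * μ (ball 0 1) :=
    calc
      (S.card : ℝ≥0∞) * ENNReal.ofReal (δ ^ finrank ℝ E) * μ (ball 0 1) = μ A := by
        rw [hA, measure_biUnion_finset D fun c _ => measurableSet_ball]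
        simp only [μ.addHaar_ball_of_pos _ δpos]
        simp only [Finset.sum_const, nsmul_eq_mul, mul_assoc]
      _ ≤ μ (ball (0 : E) ρ) := measure_mono A_subset
      _ = ENNReal.ofReal (ρ ^ finrank ℝ E) * μ (ball 0 1) := by
        simp only [μ.addHaar_ball_of_pos _ ρpos]
  have J : (S.card : ℝ≥0∞) * ENNReal.ofReal (δ ^ finrank ℝ E) ≤ ENNReal.ofReal (ρ ^ finrank ℝ E) :=
    (ENNReal.mul_le_mul_iff_left (measure_ball_pos _ _ zero_lt_one).ne' measure_ball_lt_top.ne).1 I
  have K : (S.card : ℝ) * δ ^ finrank ℝ E ≤ ρ ^ finrank ℝ E := by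
    have := ENNReal.toReal_le_of_le_ofReal (pow_nonneg ρpos.le _) J
    rwa [ENNReal.toReal_mul, ENNReal.toReal_natCast,
      ENNReal.toReal_ofReal (pow_nonneg δpos.le _)] at this
  have K2 : (S.card : ℝ) ≤ (ρ / δ) ^ finrank ℝ E := by
    rw [div_pow, le_div_iff₀ (pow_pos δpos _)]
    exact K
  have e : ρ / δ = 1 + 2 * R / s := by
    simp only [ρ, δ]
    field_simp
    ring
  rwa [e] at K2

/-- The ball of radius `R` has an `s`-net with at most `(1 + 2R/s)^dim` points. -/
theorem exists_net (R s : ℝ) (hR : 0 ≤ R) (hs0 : 0 < s) :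
    ∃ S : Finset E, (∀ z : E, ‖z‖ ≤ R → ∃ y ∈ S, ‖z - y‖ ≤ s) ∧
      (S.card : ℝ) ≤ (1 + 2 * R / s) ^ finrank ℝ E := by
  classical
  let P : ℕ → Prop := fun n => ∃ S : Finset E, S.card = n ∧ (∀ c ∈ S, ‖c‖ ≤ R) ∧
    (∀ c ∈ S, ∀ d ∈ S, c ≠ d → s ≤ ‖c - d‖)
  have hb : ∀ n, P n → n ≤ ⌊(1 + 2 * R / s) ^ finrank ℝ E⌋₊ := by
    rintro n ⟨S, rfl, h1, h2⟩
    exact Nat.le_floor (card_le_of_sep R s hR hs0 S h1 h2)
  have h0 : P 0 := ⟨∅, by simp, by simp, by simp⟩
  let n := Nat.findGreatest P ⌊(1 + 2 * R / s) ^ finrank ℝ E⌋₊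
  have hn : P n := Nat.findGreatest_spec (Nat.zero_le _) h0
  obtain ⟨S, hcard, h1, h2⟩ := hn
  refine ⟨S, ?_, card_le_of_sep R s hR hs0 S h1 h2⟩
  intro z hz
  by_contra hcon
  push Not at hcon
  have hzS : z ∉ S := by
    intro hzS
    have := hcon z hzS
    simp at this
    linarith
  have hP : P (n + 1) := by
    refine ⟨insert z S, by rw [Finset.card_insert_of_notMem hzS, hcard], ?_, ?_⟩
    · intro c hc
      rcases Finset.mem_insert.1 hc with rfl | hc
      · exact hz
      · exact h1 c hc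
    · intro c hc d hd hcd
      rcases Finset.mem_insert.1 hc with e | hc1
      · rcases Finset.mem_insert.1 hd with e' | hd1
        · exact absurd (e.trans e'.symm) hcd
        · rw [e]; exact (hcon d hd1).le
      · rcases Finset.mem_insert.1 hd with e' | hd1
        · rw [e', norm_sub_rev]; exact (hcon c hc1).le
        · exact h2 c hc1 d hd1 hcd
  have := Nat.le_findGreatest (hb _ hP) hP
  omega

end Pool.Agent.Helper53.VCR
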