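import Mathlib

/-!
# Averaging over thresholds
-/

open MeasureTheory

namespace Pool.Agent.Helper53.VCR

theorem integral_hat : ∫ θ in (-1 : ℝ)..1, (1 - |θ|) = 1 := by
  have hi : ∀ a b : ℝ, IntervalIntegrable (fun θ : ℝ => 1 - |θ|) volume a b := fun a b =>
    (by fun_prop : Continuous fun θ : ℝ => 1 - |θ|).intervalIntegrable a b
  rw [← intervalIntegral.integral_add_adjacent_intervals (hi (-1) 0) (hi 0 1)]
  have h1 : ∫ θ in (-1 : ℝ)..0, (1 - |θ|) = ∫ θ in (-1 : ℝ)..0, (1 + θ) := by
    apply intervalIntegral.integral_congr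
    intro θ hθ
    rw [Set.uIcc_of_le (by norm_num)] at hθ
    simp only
    rw [abs_of_nonpos hθ.2]; ring
  have h2 : ∫ θ in (0 : ℝ)..1, (1 - |θ|) = ∫ θ in (0 : ℝ)..1, (1 - θ) := by
    apply intervalIntegral.integral_congr
    intro θ hθ
    rw [Set.uIcc_of_le (by norm_num)] at hθ
    simp only
    rw [abs_of_nonneg hθ.1]
  rw [h1, h2, intervalIntegral.integral_add (by simp) (by simp),
    intervalIntegral.integral_sub (by simp) (by simp)]
  simp only [intervalIntegral.integral_const, integral_id, smul_eq_mul]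
  norm_num

/-- the set integrand -/
theorem intervalIntegrable_ite (a b c : ℝ) :
    IntervalIntegrable (fun θ : ℝ => if θ < c then (1 - |θ|) else 0) volume a b := by
  have h0 : IntervalIntegrable (fun θ : ℝ => 1 - |θ|) volume a b :=
    (by fun_prop : Continuous fun θ : ℝ => 1 - |θ|).intervalIntegrable a b
  have : (fun θ : ℝ => if θ < c then (1 - |θ|) else 0)
      = Set.indicator (Set.Iio c) (fun θ : ℝ => 1 - |θ|) := by
    funext θ
    simp [Set.indicator]
  rw [this]
  rw [intervalIntegrable_iff] at h0 ⊢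
  exact h0.indicator measurableSet_Iio

theorem integral_lt (a : ℝ) :
    ∫ θ in (-1 : ℝ)..1, (if θ < a then (1 - |θ|) else 0) ≤ (1 + a) ^ 2 / 2 := by
  have hi := intervalIntegrable_ite
  have haff : ∀ p q : ℝ, IntervalIntegrable (fun θ : ℝ => 1 + θ) volume p q := fun p q =>
    (by fun_prop : Continuous fun θ : ℝ => 1 + θ).intervalIntegrable p q
  have hc : ∀ p q : ℝ, ∫ θ in p..q, (1 + θ) = ((1 + q) ^ 2 - (1 + p) ^ 2) / 2 := by
    intro p q
    rw [intervalIntegral.integral_add (by simp) (by simp)]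
    simp
    ring
  rcases le_or_gt a (-1) with ha | ha
  · have : ∫ θ in (-1 : ℝ)..1, (if θ < a then (1 - |θ|) else 0) = ∫ θ in (-1 : ℝ)..1, (0 : ℝ) := by
      apply intervalIntegral.integral_congr
      intro θ hθ
      rw [Set.uIcc_of_le (by norm_num)] at hθ
      simp only
      rw [if_neg (by have := hθ.1; linarith)]
    rw [this]
    simp
    positivity
  · rcases le_or_gt a 1 with ha1 | ha1
    · rw [← intervalIntegral.integral_add_adjacent_intervals (hi (-1) a a) (hi a 1 a)]
      have h2 : ∫ θ in a..1, (if θ < a then (1 - |θ|) else 0) = ∫ θ in a..1, (0 : ℝ) := by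
        apply intervalIntegral.integral_congr
        intro θ hθ
        rw [Set.uIcc_of_le ha1] at hθ
        simp only
        rw [if_neg (by have := hθ.1; linarith)]
      have h1 : ∫ θ in (-1 : ℝ)..a, (if θ < a then (1 - |θ|) else 0)
          ≤ ∫ θ in (-1 : ℝ)..a, (1 + θ) := by
        apply intervalIntegral.integral_mono_on ha.le (hi _ _ _) (haff _ _)
        intro θ hθ
        split_ifs
        · have := neg_abs_le θ
          linarith
        · have := hθ.1
          linarith
      rw [h2]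
      rw [hc] at h1
      simp only [intervalIntegral.integral_zero, add_zero]
      refine h1.trans ?_
      norm_num
    · have h1 : ∫ θ in (-1 : ℝ)..1, (if θ < a then (1 - |θ|) else 0)
          ≤ ∫ θ in (-1 : ℝ)..1, (1 + θ) := by
        apply intervalIntegral.integral_mono_on (by norm_num) (hi _ _ _) (haff _ _)
        intro θ hθ
        split_ifs
        · have := neg_abs_le θ
          linarith
        · have := hθ.1
          linarith
      rw [hc] at h1
      refine h1.trans ?_
      nlinarith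

theorem integral_ge (a : ℝ) :
    ∫ θ in (-1 : ℝ)..1, (if a ≤ θ then (1 - |θ|) else 0) ≤ (1 - a) ^ 2 / 2 := by
  have h := intervalIntegral.integral_comp_neg (a := (-1 : ℝ)) (b := 1)
    (fun θ : ℝ => if a ≤ θ then (1 - |θ|) else 0)
  rw [neg_neg] at h
  rw [← h]
  have hle := integral_lt (-a)
  have e : ∫ θ in (-1 : ℝ)..1, (if a ≤ -θ then (1 - |(-θ)|) else 0)
      = ∫ θ in (-1 : ℝ)..1, (if θ < -a then (1 - |θ|) else 0) := by
    apply intervalIntegral.integral_congr_ae
    have : ∀ᵐ θ : ℝ ∂volume, θ ≠ -a := by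
      rw [ae_iff]
      simp
    filter_upwards [this] with θ hθ _
    rw [abs_neg]
    by_cases hlt : θ < -a
    · rw [if_pos hlt, if_pos (by linarith)]
    · rw [if_neg hlt, if_neg]
      intro h'
      exact hθ (le_antisymm (by linarith) (not_lt.1 hlt))
  rw [e]
  refine hle.trans (le_of_eq ?_)
  ring

theorem intervalIntegrable_ite' (a b c : ℝ) :
    IntervalIntegrable (fun θ : ℝ => if c ≤ θ then (1 - |θ|) else 0) volume a b := by
  have h0 : IntervalIntegrable (fun θ : ℝ => 1 - |θ|) volume a b :=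
    (by fun_prop : Continuous fun θ : ℝ => 1 - |θ|).intervalIntegrable a b
  have : (fun θ : ℝ => if c ≤ θ then (1 - |θ|) else 0)
      = Set.indicator (Set.Ici c) (fun θ : ℝ => 1 - |θ|) := by
    funext θ
    simp [Set.indicator]
  rw [this]
  rw [intervalIntegrable_iff] at h0 ⊢
  exact h0.indicator measurableSet_Ici

theorem ii_sum {V : Type*} (A : Finset V) (F : V → ℝ → ℝ) (a b : ℝ)
    (h : ∀ u, IntervalIntegrable (F u) volume a b) :
    IntervalIntegrable (fun θ : ℝ => ∑ u ∈ A, F u θ) volume a b := by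
  classical
  induction A using Finset.induction_on with
  | empty => simp
  | insert u A hu ih =>
    simp only [Finset.sum_insert hu]
    exact (h u).add ih

/-- Some threshold has few errors. -/
theorem exists_threshold {V : Type*} (A B : Finset V) (z : V → ℝ) :
    ∃ θ : ℝ, ((A.filter fun u => θ < z u).card : ℝ) + ((B.filter fun u => z u ≤ θ).card : ℝ)
      ≤ (∑ u ∈ A, (z u + 1) ^ 2 + ∑ u ∈ B, (z u - 1) ^ 2) / 2 := by
  classical
  by_contra hcon
  push Not at hcon
  set T : ℝ := (∑ u ∈ A, (z u + 1) ^ 2 + ∑ u ∈ B, (z u - 1) ^ 2) / 2 with hT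
  have hT0 : 0 ≤ T := by
    rw [hT]
    have h1 : 0 ≤ ∑ u ∈ A, (z u + 1) ^ 2 := Finset.sum_nonneg fun _ _ => sq_nonneg _
    have h2 : 0 ≤ ∑ u ∈ B, (z u - 1) ^ 2 := Finset.sum_nonneg fun _ _ => sq_nonneg _
    positivity
  have hfl : T < (⌊T⌋₊ : ℝ) + 1 := Nat.lt_floor_add_one T
  have hint : ∀ θ : ℝ, (⌊T⌋₊ : ℝ) + 1 ≤
      ((A.filter fun u => θ < z u).card : ℝ) + ((B.filter fun u => z u ≤ θ).card : ℝ) := by
    intro θ
    have h := hcon θ
    have : ⌊T⌋₊ < (A.filter fun u => θ < z u).card + (B.filter fun u => z u ≤ θ).card := by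
      rw [Nat.floor_lt hT0]
      push_cast
      exact h
    exact_mod_cast this
  have hI : ∫ θ in (-1 : ℝ)..1, ((⌊T⌋₊ : ℝ) + 1) * (1 - |θ|)
      ≤ ∫ θ in (-1 : ℝ)..1, (∑ u ∈ A, (if θ < z u then (1 - |θ|) else 0)
        + ∑ u ∈ B, (if z u ≤ θ then (1 - |θ|) else 0)) := by
    apply intervalIntegral.integral_mono_on (by norm_num)
    · exact (by fun_prop : Continuous fun θ : ℝ => ((⌊T⌋₊ : ℝ) + 1) * (1 - |θ|)).intervalIntegrable _ _
    · exact (ii_sum A (fun u θ => if θ < z u then (1 - |θ|) else 0) _ _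
        fun u => intervalIntegrable_ite _ _ _).add
        (ii_sum B (fun u θ => if z u ≤ θ then (1 - |θ|) else 0) _ _
        fun u => intervalIntegrable_ite' _ _ _)
    · intro θ hθ
      have hh : 0 ≤ 1 - |θ| := by
        have := abs_le.2 ⟨hθ.1, hθ.2⟩
        linarith
      have e1 : ∑ u ∈ A, (if θ < z u then (1 - |θ|) else 0)
          = ((A.filter fun u => θ < z u).card : ℝ) * (1 - |θ|) := by
        rw [← Finset.sum_filter, Finset.sum_const, nsmul_eq_mul]
      have e2 : ∑ u ∈ B, (if z u ≤ θ then (1 - |θ|) else 0)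
          = ((B.filter fun u => z u ≤ θ).card : ℝ) * (1 - |θ|) := by
        rw [← Finset.sum_filter, Finset.sum_const, nsmul_eq_mul]
      rw [e1, e2, ← add_mul]
      exact mul_le_mul_of_nonneg_right (hint θ) hh
  rw [intervalIntegral.integral_const_mul, integral_hat, mul_one] at hI
  have hJ : ∫ θ in (-1 : ℝ)..1, (∑ u ∈ A, (if θ < z u then (1 - |θ|) else 0)
        + ∑ u ∈ B, (if z u ≤ θ then (1 - |θ|) else 0)) ≤ T := by
    rw [intervalIntegral.integral_add]
    · rw [intervalIntegral.integral_finsetSum (fun u _ => intervalIntegrable_ite _ _ _),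
        intervalIntegral.integral_finsetSum (fun u _ => intervalIntegrable_ite' _ _ _)]
      have h1 : ∑ u ∈ A, ∫ θ in (-1 : ℝ)..1, (if θ < z u then (1 - |θ|) else 0)
          ≤ ∑ u ∈ A, (1 + z u) ^ 2 / 2 := Finset.sum_le_sum fun u _ => integral_lt (z u)
      have h2 : ∑ u ∈ B, ∫ θ in (-1 : ℝ)..1, (if z u ≤ θ then (1 - |θ|) else 0)
          ≤ ∑ u ∈ B, (1 - z u) ^ 2 / 2 := Finset.sum_le_sum fun u _ => integral_ge (z u)
      refine (add_le_add h1 h2).trans (le_of_eq ?_)
      rw [hT, ← Finset.sum_div, ← Finset.sum_div, ← add_div]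
      congr 2
      · exact Finset.sum_congr rfl fun u _ => by ring
      · exact Finset.sum_congr rfl fun u _ => by ring
    · exact ii_sum A (fun u θ => if θ < z u then (1 - |θ|) else 0) _ _
        fun u => intervalIntegrable_ite _ _ _
    · exact ii_sum B (fun u θ => if z u ≤ θ then (1 - |θ|) else 0) _ _
        fun u => intervalIntegrable_ite' _ _ _
  linarith

end Pool.Agent.Helper53.VCR
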