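import Mathlib
import Pool.Agent.Helper53.VCR.Net
import Pool.Agent.Helper53.VCR.Thr
import Pool.Agent.Helper53.VCR.Spec
import Pool.Agent.Helper53.VCR.Comb

/-!
# The list of candidate covers
-/

open Matrix Module
open scoped InnerProductSpace

namespace Pool.Agent.Helper53.VCR

variable {V : Type*} [Fintype V]

/-- `N` is a finite subset of `E` such that every point of `E` of norm at most `R` is within
distance `s` of a point of `N`. -/
def IsNet (E : Submodule ℝ (EuclideanSpace ℝ V)) (R s : ℝ) (N : Finset (EuclideanSpace ℝ V)) :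
    Prop :=
  (∀ y ∈ N, y ∈ E) ∧ ∀ z ∈ E, ‖z‖ ≤ R → ∃ y ∈ N, ‖z - y‖ ≤ s

theorem exists_isNet (E : Submodule ℝ (EuclideanSpace ℝ V)) (R τ : ℝ) (hR : 0 ≤ R) (hτ : 0 < τ)
    (hτ1 : τ ≤ 1) :
    ∃ N : Finset (EuclideanSpace ℝ V), IsNet E R (τ * R) N ∧ (N.card : ℝ) ≤ (3 / τ) ^ finrank ℝ E := by
  classical
  have h3 : 1 ≤ 3 / τ := by
    rw [le_div_iff₀ hτ]; linarith
  rcases hR.eq_or_lt with h0 | hpos
  · refine ⟨{0}, ⟨?_, ?_⟩, ?_⟩
    · intro y hy
      rw [Finset.mem_singleton.1 hy]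
      exact E.zero_mem
    · intro z _ hz
      refine ⟨0, Finset.mem_singleton_self _, ?_⟩
      rw [sub_zero, ← h0, mul_zero]
      rwa [← h0] at hz
    · simpa using one_le_pow₀ h3
  · obtain ⟨S, hS, hcard⟩ := exists_net (E := E) R (τ * R) hR (by positivity)
    refine ⟨S.map ⟨Subtype.val, Subtype.val_injective⟩, ⟨?_, ?_⟩, ?_⟩
    · intro y hy
      obtain ⟨w, _, rfl⟩ := Finset.mem_map.1 hy
      exact w.2
    · intro z hz hzR
      obtain ⟨y, hy, hyz⟩ := hS ⟨z, hz⟩ hzR
      exact ⟨y, Finset.mem_map.2 ⟨y, hy, rfl⟩, hyz⟩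
    · rw [Finset.card_map]
      refine hcard.trans (pow_le_pow_left₀ (by positivity) ?_ _)
      have e : 2 * R / (τ * R) = 2 / τ := by field_simp
      rw [e]
      have : 1 ≤ 1 / τ := by rw [le_div_iff₀ hτ]; linarith
      have e2 : 3 / τ = 1 / τ + 2 / τ := by ring
      rw [e2]
      linarith

/-- the final arithmetic -/
theorem arith (a κ m η δ τ Y sz : ℝ) (ha : 0 ≤ a) (hκ : m ≤ 2 * κ) (hm : 0 ≤ m) (hη : 0 < η)
    (hδ : 0 ≤ δ) (hτ : 0 < τ) (hτ1 : τ ≤ 1)
    (hsmall : ¬ a + m ≤ (2 - η / (1 + η) + 6 * (δ / η) + 3 * τ) * (a + κ))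
    (X : ℝ) (hX : X ^ 2 ≤ (3 * δ * m - 2 * m + 4 * κ) / η)
    (R : ℝ) (hR : R ^ 2 = m)
    (hY : Y ≤ (X + τ * R) ^ 2 / 2) (hsz : sz ≤ a + κ + Y) :
    sz ≤ (2 - η / (1 + η) + 6 * (δ / η) + 3 * τ) * (a + κ) := by
  have hκ0 : 0 ≤ κ := by linarith
  have h1η : 0 < 1 + η := by linarith
  have hq : 2 - η / (1 + η) = 1 + 1 / (1 + η) := by field_simp; ring
  rw [hq] at hsmall ⊢
  set p := 1 / (1 + η) with hp
  have hp0 : 0 < p := by positivity
  have hpe : p * (1 + η) = 1 := by rw [hp]; field_simp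
  set d := δ / η with hd
  have hd0 : 0 ≤ d := by positivity
  push Not at hsmall
  have hexp : (1 + p + 6 * d + 3 * τ) * (a + κ)
      = a + κ + (p * κ + 6 * d * κ + 3 * τ * κ) + (p + 6 * d + 3 * τ) * a := by ring
  rw [hexp] at hsmall ⊢
  have hA : 0 ≤ (p + 6 * d + 3 * τ) * a := by positivity
  have hdκ : 0 ≤ 6 * d * κ := by positivity
  have hτκ : 0 ≤ 3 * τ * κ := by positivity
  -- `κ` is small
  have hs1 : (1 + p) * κ < m := by linarith
  -- `e ≤ η p κ`
  have hs2 : (2 + η) * κ < (1 + η) * m := by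
    have h0 : (1 + η) * ((1 + p) * κ) < (1 + η) * m := mul_lt_mul_of_pos_left hs1 h1η
    have e1 : (1 + η) * ((1 + p) * κ) = (2 + η) * κ := by
      have : (1 + η) * ((1 + p) * κ) = ((1 + η) + p * (1 + η)) * κ := by ring
      rw [this, hpe]; ring
    rwa [e1] at h0
  set e := 2 * κ - m with he
  have he0 : 0 ≤ e := by linarith
  have hs3 : e * (1 + η) ≤ η * κ := by
    have : e * (1 + η) = (2 + η) * κ + η * κ - (1 + η) * m := by rw [he]; ring
    linarith
  have hs4 : e / η ≤ p * κ := by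
    rw [div_le_iff₀ hη]
    have h0 : p * (e * (1 + η)) ≤ p * (η * κ) := mul_le_mul_of_nonneg_left hs3 hp0.le
    have h1 : p * (e * (1 + η)) = e := by
      have : p * (e * (1 + η)) = e * (p * (1 + η)) := by ring
      rw [this, hpe, mul_one]
    have h2 : p * (η * κ) = p * κ * η := by ring
    linarith
  -- the bound on `X ^ 2`
  have hX' : X ^ 2 ≤ 3 * d * m + 2 * (e / η) := by
    have : (3 * δ * m - 2 * m + 4 * κ) / η = 3 * d * m + 2 * (e / η) := by
      rw [he, hd]; field_simp; ring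
    rwa [this] at hX
  have hen : 2 * (e / η) ≤ m := by
    have h5 : e * (2 + η) ≤ η * m := by
      have : e * (2 + η) = 2 * ((2 + η) * κ) - 2 * ((1 + η) * m) + η * m := by rw [he]; ring
      linarith
    have h6 : e / η * (2 + η) ≤ m := by
      rw [div_mul_eq_mul_div, div_le_iff₀ hη]; linarith
    have h7 : 0 ≤ e / η * η := by positivity
    have h8 : e / η * (2 + η) = 2 * (e / η) + e / η * η := by ring
    linarith
  have hXR : 2 * (X * R) ≤ X ^ 2 + m := by
    have h0 := sq_nonneg (X - R)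
    have h1 : (X - R) ^ 2 = X ^ 2 - 2 * (X * R) + R ^ 2 := by ring
    rw [hR] at h1
    linarith
  have hYb : Y ≤ e / η + 3 * d * m + 3 / 2 * τ * m := by
    have e1 : (X + τ * R) ^ 2 = X ^ 2 + τ * (2 * (X * R)) + τ ^ 2 * R ^ 2 := by ring
    have h8 : τ * (2 * (X * R)) ≤ τ * (X ^ 2 + m) := mul_le_mul_of_nonneg_left hXR hτ.le
    have h9 : τ * (X ^ 2 + m) ≤ τ * (3 * d * m + m + m) := by
      apply mul_le_mul_of_nonneg_left _ hτ.le
      linarith
    have h9' : τ * (3 * d * m + m + m) = τ * (3 * d * m) + 2 * (τ * m) := by ring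
    have h10 : τ * (3 * d * m) ≤ 3 * d * m := mul_le_of_le_one_left (by positivity) hτ1
    have h11 : τ ^ 2 * R ^ 2 ≤ τ * m := by
      rw [hR]
      have : τ ^ 2 ≤ τ := by
        rw [pow_two]; exact mul_le_of_le_one_left hτ.le hτ1
      exact mul_le_mul_of_nonneg_right this hm
    rw [e1] at hY
    have h12 : 3 / 2 * τ * m = 3 / 2 * (τ * m) := by ring
    linarith
  -- conclusion
  have hf1 : 3 * d * m ≤ 6 * d * κ := by
    have h0 : 3 * d * m ≤ 3 * d * (2 * κ) := mul_le_mul_of_nonneg_left hκ (by positivity)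
    have h1 : 3 * d * (2 * κ) = 6 * d * κ := by ring
    linarith
  have hf2 : 3 / 2 * τ * m ≤ 3 * τ * κ := by
    have h0 : 3 / 2 * τ * m ≤ 3 / 2 * τ * (2 * κ) := mul_le_mul_of_nonneg_left hκ (by positivity)
    have h1 : 3 / 2 * τ * (2 * κ) = 3 * τ * κ := by ring
    linarith
  linarith

open Classical in
theorem main_list (G : SimpleGraph V) (x : V → ℝ) (W : Matrix V V ℝ) (η δ τ : ℝ)
    (hx : HalfOpt G x) (hW : FracMatching G x W) (hη : 0 < η) (hδ : 0 ≤ δ)
    (hτ : 0 < τ) (hτ1 : τ ≤ 1) (hmass : (1 - δ) * halfCount x ≤ ∑ u, ∑ v, W u v)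
    (N : Finset (EuclideanSpace ℝ V))
    (hN : IsNet (lowSpan W (-(1 - η))) (√(halfCount x)) (τ * √(halfCount x)) N) :
    Within G (2 - η / (1 + η) + 6 * (δ / η) + 3 * τ) {v | 1 / 2 ≤ x v} ∨
      ∃ z ∈ N, ∃ θ : ℝ, ∀ M : G.Subgraph, IsMaxMatching G {v | x v = 1 / 2 ∧ θ < z v} M →
        Within G (2 - η / (1 + η) + 6 * (δ / η) + 3 * τ) (cand x z θ M) := by
  set ρ := 2 - η / (1 + η) + 6 * (δ / η) + 3 * τ with hρ
  have hρ0 : 0 ≤ ρ := by
    have : η / (1 + η) ≤ 1 := by rw [div_le_one (by linarith)]; linarith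
    have : 0 ≤ δ / η := by positivity
    rw [hρ]; linarith
  -- a minimum vertex cover
  obtain ⟨K, hK, hKmin⟩ : ∃ K : Set V, G.IsVertexCover K ∧
      ∀ K' : Set V, G.IsVertexCover K' → K.ncard ≤ K'.ncard := by
    obtain ⟨K, hK, hm⟩ := Set.exists_min_image {K : Set V | G.IsVertexCover K} Set.ncard
      (Set.toFinite _) ⟨Set.univ, by simp [SimpleGraph.IsVertexCover]⟩
    exact ⟨K, hK, hm⟩
  set A := Finset.univ.filter fun v => x v = 1 with hA
  set U := Finset.univ.filter fun v => x v = 1 / 2 with hU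
  set KU := Finset.univ.filter fun v => v ∈ K ∧ x v = 1 / 2 with hKU
  set IU := Finset.univ.filter fun v => v ∉ K ∧ x v = 1 / 2 with hIU
  have hm : halfCount x = U.card := by
    unfold halfCount
    rw [hU, ← Set.ncard_coe_finset]
    congr 1
    ext v; simp
  have hUK : U.card ≤ 2 * KU.card := persist_half hx K hK
  have hkK : A.card + KU.card ≤ K.ncard := by
    have h1 := persist_one hx K hK
    rw [← hA] at h1
    have h2 : K.ncard = KU.card + (Finset.univ.filter fun v => v ∈ K ∧ x v ≠ 1 / 2).card := by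
      have e : K = ((Finset.univ.filter fun v => v ∈ K : Finset V) : Set V) := by ext v; simp
      have e2 : K.ncard = (Finset.univ.filter fun v => v ∈ K).card := by
        conv_lhs => rw [e]
        rw [Set.ncard_coe_finset]
      rw [e2, ← Finset.card_filter_add_card_filter_not
        (s := Finset.univ.filter fun v => v ∈ K) (fun v => x v = 1 / 2),
        Finset.filter_filter, Finset.filter_filter]
    omega
  have hkR : ((A.card : ℝ) + KU.card) ≤ K.ncard := by exact_mod_cast hkK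
  -- from one bound to all covers
  have hall : ∀ C : Set V, G.IsVertexCover C → (C.ncard : ℝ) ≤ ρ * (A.card + KU.card) →
      Within G ρ C := by
    intro C hC hle
    refine ⟨hC, fun K' hK' => hle.trans ?_⟩
    apply mul_le_mul_of_nonneg_left _ hρ0
    have : (K.ncard : ℝ) ≤ K'.ncard := by exact_mod_cast hKmin K' hK'
    linarith
  by_cases htriv : (A.card : ℝ) + U.card ≤ ρ * (A.card + KU.card)
  · left
    apply hall
    · intro u v huv
      have hc := hx.cover u v huv
      simp only [Set.mem_setOf_eq]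
      by_contra hcon
      push Not at hcon
      linarith [hcon.1, hcon.2]
    · refine le_trans ?_ htriv
      have e : {v | 1 / 2 ≤ x v} = ((A ∪ U : Finset V) : Set V) := by
        ext v
        simp only [Set.mem_setOf_eq, hA, hU, Finset.coe_union, Finset.coe_filter, Finset.mem_univ,
          true_and, Set.mem_union]
        rcases hx.half v with h | h | h <;> rw [h] <;> norm_num
      rw [e, Set.ncard_coe_finset]
      exact_mod_cast Finset.card_union_le _ _
  · right
    let f : EuclideanSpace ℝ V := WithLp.toLp 2 (sgn x K)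
    have hfv : ∀ v, f v = sgn x K v := fun v => rfl
    have hfn : ‖f‖ ^ 2 = U.card := by
      rw [EuclideanSpace.real_norm_sq_eq, hU, Finset.card_filter]
      push_cast
      refine Finset.sum_congr rfl fun v _ => ?_
      rw [hfv]
      unfold sgn
      split_ifs <;> norm_num
    have hfn' : ‖f‖ = √(halfCount x) := by
      rw [hm, ← hfn, Real.sqrt_sq (norm_nonneg _)]
    have hHerm : W.IsHermitian := by
      ext u v
      simp [hW.symm u v]
    obtain ⟨y, hyE, hyn, hyf⟩ := exists_low_approx hHerm (qform_nonneg hW) η hη f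
    obtain ⟨z, hzN, hzy⟩ := hN.2 y hyE (by rw [← hfn']; exact hyn)
    obtain ⟨θ, hθ⟩ := exists_threshold KU IU (fun v => z v)
    refine ⟨z, hzN, θ, fun M hM => hall _ (cand_cover hx z θ M hM) ?_⟩
    have hcard := cand_card (x := x) z θ M hM K hK
    rw [← hA, ← hKU, ← hIU] at hcard
    have hcardR : ((cand x z θ M).ncard : ℝ) ≤ A.card + KU.card
        + (((KU.filter fun v => θ < z v).card : ℝ) + (IU.filter fun v => z v ≤ θ).card) := by
      exact_mod_cast hcard
    have hfz : ∑ u ∈ KU, (z u + 1) ^ 2 + ∑ u ∈ IU, (z u - 1) ^ 2 ≤ ‖f - z‖ ^ 2 := by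
      rw [EuclideanSpace.real_norm_sq_eq]
      have hdis : Disjoint KU IU := by
        rw [Finset.disjoint_left]
        intro v h1 h2
        exact (Finset.mem_filter.1 h2).2.1 (Finset.mem_filter.1 h1).2.1
      have h1 : ∑ u ∈ KU, (z u + 1) ^ 2 = ∑ u ∈ KU, (f - z) u ^ 2 := by
        refine Finset.sum_congr rfl fun u hu => ?_
        have hu' := (Finset.mem_filter.1 hu).2
        rw [PiLp.sub_apply, hfv]
        unfold sgn
        rw [if_pos hu'.2, if_pos hu'.1]
        ring
      have h2 : ∑ u ∈ IU, (z u - 1) ^ 2 = ∑ u ∈ IU, (f - z) u ^ 2 := by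
        refine Finset.sum_congr rfl fun u hu => ?_
        have hu' := (Finset.mem_filter.1 hu).2
        rw [PiLp.sub_apply, hfv]
        unfold sgn
        rw [if_pos hu'.2, if_neg hu'.1]
        ring
      rw [h1, h2, ← Finset.sum_union hdis]
      apply Finset.sum_le_sum_of_subset_of_nonneg (Finset.subset_univ _)
      intro _ _ _
      exact sq_nonneg _
    have htri : ‖f - z‖ ≤ ‖f - y‖ + τ * √(halfCount x) := by
      calc ‖f - z‖ = ‖(f - y) + (y - z)‖ := by congr 1; abel
        _ ≤ ‖f - y‖ + ‖y - z‖ := norm_add_le _ _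
        _ ≤ _ := by linarith
    refine arith (A.card : ℝ) (KU.card : ℝ) (U.card : ℝ) η δ τ
      (((KU.filter fun v => θ < z v).card : ℝ) + (IU.filter fun v => z v ≤ θ).card)
      ((cand x z θ M).ncard : ℝ) (Nat.cast_nonneg _) (by exact_mod_cast hUK) (Nat.cast_nonneg _) hη hδ
      hτ hτ1 htriv (‖f - y‖) ?_ (√(halfCount x)) ?_ ?_ hcardR
    · refine hyf.trans ?_
      apply div_le_div_of_nonneg_right _ hη.le
      have h1 := qform_sgn hW K hK
      have h2 : qform W f = qform W (sgn x K) := rfl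
      rw [h2]
      rw [hm] at hmass
      refine h1.trans ?_
      rw [← hU, ← hKU]
      nlinarith
    · rw [Real.sq_sqrt (Nat.cast_nonneg _), hm]
    · refine hθ.trans ?_
      apply div_le_div_of_nonneg_right _ (by norm_num)
      refine hfz.trans ?_
      exact pow_le_pow_left₀ (norm_nonneg _) htri 2

variable [DecidableEq V]

theorem main_trace {G : SimpleGraph V} {x : V → ℝ} {W : Matrix V V ℝ} (hW : FracMatching G x W)
    (η : ℝ) (hη1 : η ≤ 1) (t : ℕ) :
    (finrank ℝ (lowSpan W (-(1 - η))) : ℝ) * (1 - η) ^ (2 * t) ≤ trace (W ^ (2 * t)) := by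
  have hHerm : W.IsHermitian := by
    ext u v
    simp [hW.symm u v]
  exact finrank_mul_le_trace hHerm (1 - η) (by linarith) t

theorem main_mu {G : SimpleGraph V} {x : V → ℝ} {W : Matrix V V ℝ} (hW : FracMatching G x W)
    (η μ : ℝ) (hη1 : η ≤ 1) (hμ0 : 0 ≤ μ) (hμ : ∀ u v, W u v ≤ μ) :
    (finrank ℝ (lowSpan W (-(1 - η))) : ℝ) * (1 - η) ^ 2 ≤ μ * halfCount x := by
  classical
  have h := main_trace hW η hη1 1
  rw [mul_one] at h
  refine h.trans ?_
  have h1 : trace (W ^ 2) = ∑ u, ∑ v, W u v * W u v := by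
    unfold Matrix.trace
    refine Finset.sum_congr rfl fun u _ => ?_
    rw [pow_two, Matrix.diag_apply, Matrix.mul_apply]
    exact Finset.sum_congr rfl fun v _ => by rw [hW.symm v u]
  have h2 : ∑ u, ∑ v, W u v * W u v ≤ ∑ u, (if x u = 1 / 2 then μ else 0) := by
    refine Finset.sum_le_sum fun u _ => ?_
    by_cases hu : x u = 1 / 2
    · rw [if_pos hu]
      calc ∑ v, W u v * W u v ≤ ∑ v, μ * W u v := Finset.sum_le_sum fun v _ =>
            mul_le_mul_of_nonneg_right (hμ u v) (hW.nonneg u v)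
        _ = μ * ∑ v, W u v := by rw [Finset.mul_sum]
        _ ≤ μ * 1 := mul_le_mul_of_nonneg_left (hW.row u) hμ0
        _ = μ := mul_one _
    · rw [if_neg hu]
      refine (Finset.sum_eq_zero fun v _ => ?_).le
      by_contra hne
      exact hu (hW.supp u v (fun h0 => hne (by rw [h0, mul_zero]))).2.1
  rw [h1]
  refine h2.trans (le_of_eq ?_)
  have e : (halfCount x : ℝ) = ((Finset.univ.filter fun v => x v = 1 / 2).card : ℝ) := by
    congr 1
    unfold halfCount
    rw [← Set.ncard_coe_finset]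
    congr 1
    ext v; simp
  rw [e, ← Finset.sum_filter, Finset.sum_const, nsmul_eq_mul, mul_comm]

end Pool.Agent.Helper53.VCR
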