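import Mathlib
import Pool.Agent.Helper53.VCR.Spec

/-!
# Return weights decay when no small set is nearly closed
-/

open Matrix

namespace Pool.Agent.Helper53.VCR

section coarea
variable {V : Type*} [Fintype V]

/-- The total variation functional of the weights `W`, with killing. -/
def tv (W : Matrix V V ℝ) (g : V → ℝ) : ℝ :=
  ∑ u, ∑ v, W u v * max (g u - g v) 0 + ∑ u, (1 - ∑ v, W u v) * g u

open Classical in
/-- Co-area inequality. -/
theorem coarea (W : Matrix V V ℝ) (φ : ℝ) (n : ℕ) :
    ∀ g : V → ℝ, (∀ v, 0 ≤ g v) → (Finset.univ.filter fun v => g v ≠ 0).card = n →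
    (∀ S : Finset V, S ⊆ (Finset.univ.filter fun v => g v ≠ 0) →
      ∑ u ∈ S, ∑ v ∈ S, W u v ≤ (1 - φ) * S.card) →
    φ * ∑ v, g v ≤ tv W g := by
  induction n using Nat.strong_induction_on with
  | _ n ih =>
    intro g hg hn hS
    set S := Finset.univ.filter fun v => g v ≠ 0 with hSdef
    rcases S.eq_empty_or_nonempty with hemp | hne
    · have hz : ∀ v, g v = 0 := by
        intro v
        by_contra h
        have : v ∈ S := Finset.mem_filter.2 ⟨Finset.mem_univ _, h⟩
        rw [hemp] at this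
        simp at this
      unfold tv
      simp [hz]
    · obtain ⟨v0, hv0, hmin⟩ := Finset.exists_min_image S g hne
      set c := g v0 with hc
      have hmem : ∀ v, v ∈ S ↔ g v ≠ 0 := fun v => by simp [hSdef]
      have hc0 : 0 ≤ c := hg v0
      let g' : V → ℝ := fun v => if v ∈ S then g v - c else 0
      have hg' : ∀ v, 0 ≤ g' v := by
        intro v
        simp only [g']
        split_ifs with h
        · linarith [hmin v h]
        · exact le_rfl
      have hsub : (Finset.univ.filter fun v => g' v ≠ 0) ⊆ S.erase v0 := by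
        intro v hv
        have hv := (Finset.mem_filter.1 hv).2
        simp only [g'] at hv
        split_ifs at hv with h
        · rw [Finset.mem_erase]
          refine ⟨?_, h⟩
          rintro rfl
          exact hv (sub_self _)
        · exact absurd rfl hv
      have hlt : (Finset.univ.filter fun v => g' v ≠ 0).card < n := by
        rw [← hn]
        exact (Finset.card_le_card hsub).trans_lt (Finset.card_erase_lt_of_mem hv0)
      have hIH := ih _ hlt g' hg' rfl fun T hT => hS T
        (hT.trans (hsub.trans (Finset.erase_subset _ _)))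
      have hsum : ∑ v, g v = ∑ v, g' v + c * S.card := by
        have e : c * (S.card : ℝ) = ∑ v, (if v ∈ S then c else 0) := by
          rw [← Finset.sum_filter, Finset.sum_const, nsmul_eq_mul, mul_comm]
          congr 2
          congr 1
          ext u; simp
        rw [e, ← Finset.sum_add_distrib]
        refine Finset.sum_congr rfl fun v _ => ?_
        simp only [g']
        split_ifs with h
        · ring
        · have : g v = 0 := by
            by_contra h'
            exact h ((hmem v).2 h')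
          rw [this]; ring
      have htv : tv W g = tv W g' + c * ∑ u ∈ S, (1 - ∑ v ∈ S, W u v) := by
        have e0 : c * ∑ u ∈ S, (1 - ∑ v ∈ S, W u v)
            = ∑ u, ∑ v, W u v * (if u ∈ S ∧ v ∉ S then c else 0)
              + ∑ u, (1 - ∑ v, W u v) * (if u ∈ S then c else 0) := by
          rw [← Finset.sum_add_distrib, Finset.mul_sum,
            ← Finset.sum_filter_add_sum_filter_not Finset.univ (fun u => u ∈ S)]
          have z : ∑ u ∈ Finset.univ.filter (fun u => ¬ u ∈ S),
              (∑ v, W u v * (if u ∈ S ∧ v ∉ S then c else 0)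
                + (1 - ∑ v, W u v) * (if u ∈ S then c else 0)) = 0 := by
            refine Finset.sum_eq_zero fun u hu => ?_
            have hu := (Finset.mem_filter.1 hu).2
            simp [hu]
          rw [z, add_zero]
          have ef : Finset.univ.filter (fun u => u ∈ S) = S := by ext u; simp
          rw [ef]
          refine Finset.sum_congr rfl fun u hu => ?_
          have e1 : ∑ v, W u v * (if u ∈ S ∧ v ∉ S then c else 0)
              = c * (∑ v, W u v - ∑ v ∈ S, W u v) := by
            have e2 : ∑ v, W u v - ∑ v ∈ S, W u v = ∑ v, (if v ∉ S then W u v else 0) := by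
              have : ∑ v ∈ S, W u v = ∑ v, (if v ∈ S then W u v else 0) := by
                rw [← Finset.sum_filter, ef]
              rw [this, ← Finset.sum_sub_distrib]
              refine Finset.sum_congr rfl fun v _ => ?_
              by_cases h : v ∈ S <;> simp [h]
            rw [e2, Finset.mul_sum]
            refine Finset.sum_congr rfl fun v _ => ?_
            by_cases h : v ∈ S
            · simp [h]
            · simp [h, hu, mul_comm]
          rw [e1, if_pos hu]
          ring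
        rw [e0]
        unfold tv
        have e3 : ∑ u, ∑ v, W u v * max (g u - g v) 0
            = ∑ u, ∑ v, W u v * max (g' u - g' v) 0
              + ∑ u, ∑ v, W u v * (if u ∈ S ∧ v ∉ S then c else 0) := by
          rw [← Finset.sum_add_distrib]
          refine Finset.sum_congr rfl fun u _ => ?_
          rw [← Finset.sum_add_distrib]
          refine Finset.sum_congr rfl fun v _ => ?_
          rw [← mul_add]
          congr 1
          by_cases hu : u ∈ S
          · by_cases hv : v ∈ S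
            · simp [g', hu, hv]
            · have hgv : g v = 0 := by
                by_contra h'
                exact hv ((hmem v).2 h')
              have h1 := hmin u hu
              simp only [g', hu, hv, hgv, if_true, if_false, not_false_eq_true, and_self, sub_zero]
              rw [max_eq_left (by linarith), max_eq_left (by linarith)]
              ring
          · have hgu : g u = 0 := by
              by_contra h'
              exact hu ((hmem u).2 h')
            by_cases hv : v ∈ S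
            · have h1 := hmin v hv
              simp only [g', hu, hv, hgu, if_true, if_false, not_true_eq_false, and_self, zero_sub,
                false_and]
              rw [max_eq_right (by linarith), max_eq_right (by linarith)]
              ring
            · have hgv : g v = 0 := by
                by_contra h'
                exact hv ((hmem v).2 h')
              simp [g', hu, hv, hgu, hgv]
        have e4 : ∑ u, (1 - ∑ v, W u v) * g u
            = ∑ u, (1 - ∑ v, W u v) * g' u + ∑ u, (1 - ∑ v, W u v) * (if u ∈ S then c else 0) := by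
          rw [← Finset.sum_add_distrib]
          refine Finset.sum_congr rfl fun u _ => ?_
          rw [← mul_add]
          congr 1
          simp only [g']
          split_ifs with h
          · ring
          · have : g u = 0 := by
              by_contra h'
              exact h ((hmem u).2 h')
            rw [this]; ring
        rw [e3, e4]
        ring
      have hcut : φ * S.card ≤ ∑ u ∈ S, (1 - ∑ v ∈ S, W u v) := by
        rw [Finset.sum_sub_distrib, Finset.sum_const, nsmul_eq_mul, mul_one]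
        have := hS S (Finset.Subset.refl _)
        linarith
      rw [hsum, htv]
      have := mul_le_mul_of_nonneg_left hcut hc0
      nlinarith

/-- The energy form of `1 - W`. -/
def energy (W : Matrix V V ℝ) (q : V → ℝ) : ℝ :=
  ∑ u, q u ^ 2 - ∑ u, ∑ v, W u v * (q u * q v)

variable {W : Matrix V V ℝ}

theorem energy_eq (hsym : ∀ u v, W u v = W v u) (q : V → ℝ) :
    energy W q = (∑ u, ∑ v, W u v * (q u - q v) ^ 2) / 2 + ∑ u, (1 - ∑ v, W u v) * q u ^ 2 := by
  have h3 : ∑ u, ∑ v, W u v * q u ^ 2 = ∑ u, ∑ v, W u v * q v ^ 2 := by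
    rw [Finset.sum_comm]
    exact Finset.sum_congr rfl fun v _ => Finset.sum_congr rfl fun u _ => by rw [hsym u v]
  have h5 : ∑ u, ∑ v, W u v * (q u - q v) ^ 2
      = ∑ u, ∑ v, W u v * q u ^ 2 + ∑ u, ∑ v, W u v * q v ^ 2
        - 2 * ∑ u, ∑ v, W u v * (q u * q v) := by
    rw [Finset.mul_sum, ← Finset.sum_add_distrib, ← Finset.sum_sub_distrib]
    refine Finset.sum_congr rfl fun u _ => ?_
    rw [Finset.mul_sum, ← Finset.sum_add_distrib, ← Finset.sum_sub_distrib]
    exact Finset.sum_congr rfl fun v _ => by ring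
  have h6 : ∑ u, (1 - ∑ v, W u v) * q u ^ 2 = ∑ u, q u ^ 2 - ∑ u, ∑ v, W u v * q u ^ 2 := by
    rw [← Finset.sum_sub_distrib]
    refine Finset.sum_congr rfl fun u _ => ?_
    rw [← Finset.sum_mul]
    ring
  unfold energy
  rw [h5, h6, ← h3]
  ring

open Classical in
/-- Cheeger inequality on the support. -/
theorem cheeger (hsym : ∀ u v, W u v = W v u) (hnn : ∀ u v, 0 ≤ W u v)
    (hrow : ∀ u, ∑ v, W u v ≤ 1) (φ : ℝ) (hφ : 0 < φ) (hφ1 : φ ≤ 1) (q : V → ℝ)
    (hS : ∀ S : Finset V, S ⊆ (Finset.univ.filter fun v => q v ≠ 0) →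
      ∑ u ∈ S, ∑ v ∈ S, W u v ≤ (1 - φ) * S.card) :
    φ ^ 2 * ∑ v, q v ^ 2 ≤ 2 * energy W q := by
  have hco := coarea W φ _ (fun v => q v ^ 2) (fun v => sq_nonneg _) rfl (by
    intro S hSS
    apply hS S
    refine hSS.trans ?_
    intro v hv
    simp only [Finset.mem_filter, Finset.mem_univ, true_and] at hv ⊢
    intro h
    exact hv (by rw [h]; ring))
  -- symmetrised total variation
  have hanti : ∑ u, ∑ v, W u v * (q u ^ 2 - q v ^ 2) = 0 := by
    have h1 : ∑ u, ∑ v, W u v * (q u ^ 2 - q v ^ 2) = ∑ u, ∑ v, W u v * (q v ^ 2 - q u ^ 2) := by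
      rw [Finset.sum_comm]
      exact Finset.sum_congr rfl fun v _ => Finset.sum_congr rfl fun u _ => by rw [hsym u v]
    have h2 : ∑ u, ∑ v, W u v * (q v ^ 2 - q u ^ 2) = - ∑ u, ∑ v, W u v * (q u ^ 2 - q v ^ 2) := by
      rw [← Finset.sum_neg_distrib]
      refine Finset.sum_congr rfl fun u _ => ?_
      rw [← Finset.sum_neg_distrib]
      exact Finset.sum_congr rfl fun v _ => by ring
    linarith
  have hmax : ∑ u, ∑ v, W u v * max (q u ^ 2 - q v ^ 2) 0
      = (∑ u, ∑ v, W u v * |q u ^ 2 - q v ^ 2|) / 2 := by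
    have h1 : ∑ u, ∑ v, W u v * max (q u ^ 2 - q v ^ 2) 0
        = (∑ u, ∑ v, W u v * |q u ^ 2 - q v ^ 2| + ∑ u, ∑ v, W u v * (q u ^ 2 - q v ^ 2)) / 2 := by
      rw [← Finset.sum_add_distrib, Finset.sum_div]
      refine Finset.sum_congr rfl fun u _ => ?_
      rw [← Finset.sum_add_distrib, Finset.sum_div]
      refine Finset.sum_congr rfl fun v _ => ?_
      rcases le_total 0 (q u ^ 2 - q v ^ 2) with h | h
      · rw [max_eq_left h, abs_of_nonneg h]; ring
      · rw [max_eq_right h, abs_of_nonpos h]; ring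
    rw [h1, hanti, add_zero]
  have hpt : ∀ u v, W u v * |q u ^ 2 - q v ^ 2|
      ≤ W u v * (1 / φ * (q u - q v) ^ 2 + φ / 4 * (q u + q v) ^ 2) := by
    intro u v
    apply mul_le_mul_of_nonneg_left _ (hnn u v)
    have e : q u ^ 2 - q v ^ 2 = (q u - q v) * (q u + q v) := by ring
    rw [e, abs_mul]
    have h1 : 0 ≤ (1 / φ) * (|q u - q v| - φ / 2 * |q u + q v|) ^ 2 := by positivity
    have h2 : (1 / φ) * (|q u - q v| - φ / 2 * |q u + q v|) ^ 2
        = 1 / φ * (q u - q v) ^ 2 + φ / 4 * (q u + q v) ^ 2 - |q u - q v| * |q u + q v| := by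
      rw [← sq_abs (q u - q v), ← sq_abs (q u + q v)]
      field_simp
      ring
    linarith
  have hpt2 : ∀ u, (1 - ∑ v, W u v) * q u ^ 2
      ≤ (1 / φ + φ / 4) * ((1 - ∑ v, W u v) * q u ^ 2) := by
    intro u
    have h0 : 0 ≤ (1 - ∑ v, W u v) * q u ^ 2 :=
      mul_nonneg (by linarith [hrow u]) (sq_nonneg _)
    have h1 : 1 ≤ 1 / φ + φ / 4 := by
      have : 1 ≤ 1 / φ := by rw [le_div_iff₀ hφ]; linarith
      linarith
    nlinarith
  set N := ∑ v, q v ^ 2 with hN
  set A := ∑ u, ∑ v, W u v * (q u - q v) ^ 2 with hA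
  set B := ∑ u, ∑ v, W u v * (q u + q v) ^ 2 with hB
  set K := ∑ u, (1 - ∑ v, W u v) * q u ^ 2 with hK
  have hE : energy W q = A / 2 + K := energy_eq hsym q
  have hAB : A + B + 4 * K = 4 * N := by
    have h3 : ∑ u, ∑ v, W u v * q u ^ 2 = ∑ u, ∑ v, W u v * q v ^ 2 := by
      rw [Finset.sum_comm]
      exact Finset.sum_congr rfl fun v _ => Finset.sum_congr rfl fun u _ => by rw [hsym u v]
    have h5 : A + B = 2 * ∑ u, ∑ v, W u v * q u ^ 2 + 2 * ∑ u, ∑ v, W u v * q v ^ 2 := by
      rw [hA, hB, Finset.mul_sum, Finset.mul_sum, ← Finset.sum_add_distrib,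
        ← Finset.sum_add_distrib]
      refine Finset.sum_congr rfl fun u _ => ?_
      rw [Finset.mul_sum, Finset.mul_sum, ← Finset.sum_add_distrib, ← Finset.sum_add_distrib]
      exact Finset.sum_congr rfl fun v _ => by ring
    have h6 : K = N - ∑ u, ∑ v, W u v * q u ^ 2 := by
      rw [hK, hN, ← Finset.sum_sub_distrib]
      refine Finset.sum_congr rfl fun u _ => ?_
      rw [← Finset.sum_mul]
      ring
    rw [h5, h6, ← h3]
    ring
  have hA0 : 0 ≤ A := Finset.sum_nonneg fun u _ => Finset.sum_nonneg fun v _ =>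
    mul_nonneg (hnn u v) (sq_nonneg _)
  have hK0 : 0 ≤ K := Finset.sum_nonneg fun u _ =>
    mul_nonneg (by linarith [hrow u]) (sq_nonneg _)
  have hX : φ * N ≤ (1 / φ * A + φ / 4 * B) / 2 + (1 / φ + φ / 4) * K := by
    refine hco.trans ?_
    unfold tv
    rw [hmax]
    apply add_le_add
    · apply div_le_div_of_nonneg_right _ (by norm_num)
      have : 1 / φ * A + φ / 4 * B
          = ∑ u, ∑ v, W u v * (1 / φ * (q u - q v) ^ 2 + φ / 4 * (q u + q v) ^ 2) := by
        rw [hA, hB, Finset.mul_sum, Finset.mul_sum, ← Finset.sum_add_distrib]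
        refine Finset.sum_congr rfl fun u _ => ?_
        rw [Finset.mul_sum, Finset.mul_sum, ← Finset.sum_add_distrib]
        exact Finset.sum_congr rfl fun v _ => by ring
      rw [this]
      exact Finset.sum_le_sum fun u _ => Finset.sum_le_sum fun v _ => hpt u v
    · rw [hK, Finset.mul_sum]
      exact Finset.sum_le_sum fun u _ => hpt2 u
  rw [hE]
  have hB' : B = 4 * N - A - 4 * K := by linarith
  have h7 : φ * (φ * N) ≤ φ * ((1 / φ * A + φ / 4 * B) / 2 + (1 / φ + φ / 4) * K) :=
    mul_le_mul_of_nonneg_left hX hφ.le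
  have h8 : φ * ((1 / φ * A + φ / 4 * B) / 2 + (1 / φ + φ / 4) * K)
      = A / 2 + φ ^ 2 / 8 * B + K + φ ^ 2 / 4 * K := by
    field_simp
    ring
  rw [h8, hB'] at h7
  have h9 : 0 ≤ φ ^ 2 * A := by positivity
  have h10 : 0 ≤ φ ^ 2 * K := by positivity
  nlinarith

open Classical in
/-- Truncation: the Cheeger inequality only needs small sets when the `ℓ¹` norm is small. -/
theorem energy_lower (hsym : ∀ u v, W u v = W v u) (hnn : ∀ u v, 0 ≤ W u v)
    (hrow : ∀ u, ∑ v, W u v ≤ 1) (φ : ℝ) (hφ : 0 < φ) (hφ1 : φ ≤ 1) (s : ℕ)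
    (hS : ∀ S : Finset V, S.card ≤ s → ∑ u ∈ S, ∑ v ∈ S, W u v ≤ (1 - φ) * S.card)
    (q : V → ℝ) (hq : ∀ v, 0 ≤ q v) (hq1 : ∑ v, q v ≤ 2) (hqs : 16 ≤ s * ∑ v, q v ^ 2) :
    φ ^ 2 * ∑ v, q v ^ 2 ≤ 4 * energy W q := by
  set N := ∑ v, q v ^ 2 with hN
  have hN0 : 0 < N := by
    by_contra h
    have : (s : ℝ) * N ≤ 0 := mul_nonpos_of_nonneg_of_nonpos (Nat.cast_nonneg _) (not_lt.1 h)
    linarith
  set θ := N / 8 with hθ
  have hθ0 : 0 < θ := by positivity
  let p : V → ℝ := fun v => max (q v - θ) 0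
  have hsupp : (Finset.univ.filter fun v => p v ≠ 0) ⊆ Finset.univ.filter fun v => θ < q v := by
    intro v hv
    simp only [Finset.mem_filter, Finset.mem_univ, true_and] at hv ⊢
    by_contra hle
    exact hv (max_eq_right (by linarith [not_lt.1 hle]))
  have hcard : (Finset.univ.filter fun v => θ < q v).card ≤ s := by
    have h1 : ((Finset.univ.filter fun v => θ < q v).card : ℝ) * θ ≤ 2 := by
      calc ((Finset.univ.filter fun v => θ < q v).card : ℝ) * θ
          = ∑ v ∈ Finset.univ.filter fun v => θ < q v, θ := by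
            rw [Finset.sum_const, nsmul_eq_mul]
        _ ≤ ∑ v ∈ Finset.univ.filter fun v => θ < q v, q v :=
            Finset.sum_le_sum fun v hv => (Finset.mem_filter.1 hv).2.le
        _ ≤ ∑ v, q v := Finset.sum_le_sum_of_subset_of_nonneg (Finset.subset_univ _)
            fun v _ _ => hq v
        _ ≤ 2 := hq1
    have h2 : ((Finset.univ.filter fun v => θ < q v).card : ℝ) * N ≤ s * N := by
      rw [hθ] at h1
      nlinarith
    have h3 := le_of_mul_le_mul_right h2 hN0
    exact_mod_cast h3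
  have hch := cheeger hsym hnn hrow φ hφ hφ1 p (fun S hSS => hS S
    ((Finset.card_le_card (hSS.trans hsupp)).trans hcard))
  have hnorm : N / 2 ≤ ∑ v, p v ^ 2 := by
    have h1 : ∀ v, q v ^ 2 - 2 * θ * q v ≤ p v ^ 2 := by
      intro v
      simp only [p]
      rcases le_total (q v) θ with h | h
      · rw [max_eq_right (by linarith)]
        nlinarith [hq v]
      · rw [max_eq_left (by linarith)]
        nlinarith [sq_nonneg θ]
    have h2 : ∑ v, (q v ^ 2 - 2 * θ * q v) ≤ ∑ v, p v ^ 2 := Finset.sum_le_sum fun v _ => h1 v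
    rw [Finset.sum_sub_distrib, ← Finset.mul_sum] at h2
    nlinarith
  have hen : energy W p ≤ energy W q := by
    rw [energy_eq hsym, energy_eq hsym]
    apply add_le_add
    · apply div_le_div_of_nonneg_right _ (by norm_num)
      refine Finset.sum_le_sum fun u _ => Finset.sum_le_sum fun v _ => ?_
      apply mul_le_mul_of_nonneg_left _ (hnn u v)
      simp only [p]
      rw [← sq_abs (max (q u - θ) 0 - max (q v - θ) 0), ← sq_abs (q u - q v)]
      apply pow_le_pow_left₀ (abs_nonneg _)
      have h1 := abs_max_sub_max_le_abs (q u - θ) (q v - θ) 0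
      have h2 : q u - θ - (q v - θ) = q u - q v := by ring
      rwa [h2] at h1
    · refine Finset.sum_le_sum fun u _ => ?_
      apply mul_le_mul_of_nonneg_left _ (by linarith [hrow u])
      simp only [p]
      apply pow_le_pow_left₀ (le_max_right _ _)
      exact max_le (by linarith [hq u]) (hq u)
  have hφ2 : 0 < φ ^ 2 := by positivity
  nlinarith

end coarea

section decay
variable {V : Type*} [Fintype V] [DecidableEq V] {W : Matrix V V ℝ}

theorem pow_symm (hsym : ∀ u v, W u v = W v u) (k : ℕ) (u v : V) :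
    (W ^ k) u v = (W ^ k) v u := by
  have hT : Wᵀ = W := by ext u v; exact hsym v u
  have : (W ^ k)ᵀ = W ^ k := by rw [Matrix.transpose_pow, hT]
  conv_lhs => rw [← this]
  rfl

theorem pow_nonneg_entry (hnn : ∀ u v, 0 ≤ W u v) (k : ℕ) (u v : V) : 0 ≤ (W ^ k) u v := by
  induction k generalizing u v with
  | zero =>
    rw [pow_zero, Matrix.one_apply]
    split_ifs <;> norm_num
  | succ k ih =>
    rw [pow_succ, Matrix.mul_apply]
    exact Finset.sum_nonneg fun w _ => mul_nonneg (ih _ _) (hnn _ _)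

theorem pow_col_sum (hsym : ∀ u v, W u v = W v u) (hnn : ∀ u v, 0 ≤ W u v)
    (hrow : ∀ u, ∑ v, W u v ≤ 1) (k : ℕ) (u : V) : ∑ v, (W ^ k) v u ≤ 1 := by
  induction k with
  | zero => simp [Matrix.one_apply]
  | succ k ih =>
    have e : ∑ v, (W ^ (k + 1)) v u = ∑ w, (∑ v, W w v) * (W ^ k) w u := by
      simp_rw [pow_succ', Matrix.mul_apply]
      rw [Finset.sum_comm]
      refine Finset.sum_congr rfl fun w _ => ?_
      rw [Finset.sum_mul]
      exact Finset.sum_congr rfl fun v _ => by rw [hsym v w]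
    rw [e]
    refine le_trans (Finset.sum_le_sum fun w _ => ?_) ih
    have := mul_le_mul_of_nonneg_right (hrow w) (pow_nonneg_entry hnn k w u)
    linarith

theorem sum_pow_mul (hsym : ∀ u v, W u v = W v u) (i j : ℕ) (u : V) :
    ∑ v, (W ^ i) v u * (W ^ j) v u = (W ^ (i + j)) u u := by
  rw [pow_add, Matrix.mul_apply]
  exact Finset.sum_congr rfl fun v _ => by rw [pow_symm hsym i v u]

theorem sum_pow_mul_W (hsym : ∀ u v, W u v = W v u) (i j : ℕ) (u : V) :
    ∑ v, ∑ w, W v w * ((W ^ i) v u * (W ^ j) w u) = (W ^ (i + j + 1)) u u := by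
  have e : i + j + 1 = i + (j + 1) := by ring
  rw [e, ← sum_pow_mul hsym i (j + 1) u]
  refine Finset.sum_congr rfl fun v _ => ?_
  rw [pow_succ' W j, Matrix.mul_apply, Finset.mul_sum]
  exact Finset.sum_congr rfl fun w _ => by ring

/-- The return weight drops when no small set is nearly closed. -/
theorem return_step (hsym : ∀ u v, W u v = W v u) (hnn : ∀ u v, 0 ≤ W u v)
    (hrow : ∀ u, ∑ v, W u v ≤ 1) (hq : ∀ z : V → ℝ, 0 ≤ qform W z)
    (φ : ℝ) (hφ : 0 < φ) (hφ1 : φ ≤ 1) (s : ℕ)
    (hS : ∀ S : Finset V, S.card ≤ s → ∑ u ∈ S, ∑ v ∈ S, W u v ≤ (1 - φ) * S.card)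
    (u : V) (t : ℕ) :
    (W ^ (2 * (t + 1))) u u ≤ (W ^ (2 * t)) u u ∧
    (16 ≤ s * (W ^ (2 * t)) u u →
      (W ^ (2 * (t + 1))) u u ≤ (1 - φ ^ 2 / 8) * (W ^ (2 * t)) u u) := by
  set a0 := (W ^ (2 * t)) u u with ha0
  set a1 := (W ^ (2 * t + 1)) u u with ha1
  set a2 := (W ^ (2 * (t + 1))) u u with ha2
  set a3 := (W ^ (2 * t + 3)) u u with ha3
  let q : V → ℝ := fun v => (W ^ t) v u + (W ^ (t + 1)) v u
  let r : V → ℝ := fun v => (W ^ t) v u - (W ^ (t + 1)) v u
  have s00 : ∑ v, (W ^ t) v u * (W ^ t) v u = a0 := by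
    rw [sum_pow_mul hsym, ha0]; congr 2; ring
  have s01 : ∑ v, (W ^ t) v u * (W ^ (t + 1)) v u = a1 := by
    rw [sum_pow_mul hsym, ha1]; congr 2; ring
  have s11 : ∑ v, (W ^ (t + 1)) v u * (W ^ (t + 1)) v u = a2 := by
    rw [sum_pow_mul hsym, ha2]; congr 2; ring
  have w00 : ∑ v, ∑ w, W v w * ((W ^ t) v u * (W ^ t) w u) = a1 := by
    rw [sum_pow_mul_W hsym, ha1]; congr 2; ring
  have w01 : ∑ v, ∑ w, W v w * ((W ^ t) v u * (W ^ (t + 1)) w u) = a2 := by
    rw [sum_pow_mul_W hsym, ha2]; congr 2; ring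
  have w10 : ∑ v, ∑ w, W v w * ((W ^ (t + 1)) v u * (W ^ t) w u) = a2 := by
    rw [sum_pow_mul_W hsym, ha2]; congr 2; ring
  have w11 : ∑ v, ∑ w, W v w * ((W ^ (t + 1)) v u * (W ^ (t + 1)) w u) = a3 := by
    rw [sum_pow_mul_W hsym, ha3]; congr 2; ring
  have hq2 : ∑ v, q v ^ 2 = a0 + 2 * a1 + a2 := by
    rw [← s00, ← s01, ← s11, Finset.mul_sum, ← Finset.sum_add_distrib, ← Finset.sum_add_distrib]
    exact Finset.sum_congr rfl fun v _ => by simp only [q]; ring
  have hr2 : ∑ v, r v ^ 2 = a0 - 2 * a1 + a2 := by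
    rw [← s00, ← s01, ← s11, Finset.mul_sum, ← Finset.sum_sub_distrib, ← Finset.sum_add_distrib]
    exact Finset.sum_congr rfl fun v _ => by simp only [r]; ring
  have hqW : ∑ v, ∑ w, W v w * (q v * q w) = a1 + 2 * a2 + a3 := by
    have : ∑ v, ∑ w, W v w * (q v * q w)
        = ∑ v, ∑ w, W v w * ((W ^ t) v u * (W ^ t) w u)
        + ∑ v, ∑ w, W v w * ((W ^ t) v u * (W ^ (t + 1)) w u)
        + ∑ v, ∑ w, W v w * ((W ^ (t + 1)) v u * (W ^ t) w u)
        + ∑ v, ∑ w, W v w * ((W ^ (t + 1)) v u * (W ^ (t + 1)) w u) := by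
      simp only [← Finset.sum_add_distrib]
      exact Finset.sum_congr rfl fun v _ => Finset.sum_congr rfl fun w _ => by
        simp only [q]; ring
    rw [this, w00, w01, w10, w11]
    ring
  have hrW : ∑ v, ∑ w, W v w * (r v * r w) = a1 - 2 * a2 + a3 := by
    have : ∑ v, ∑ w, W v w * (r v * r w)
        = ∑ v, ∑ w, W v w * ((W ^ t) v u * (W ^ t) w u)
        - ∑ v, ∑ w, W v w * ((W ^ t) v u * (W ^ (t + 1)) w u)
        - ∑ v, ∑ w, W v w * ((W ^ (t + 1)) v u * (W ^ t) w u)
        + ∑ v, ∑ w, W v w * ((W ^ (t + 1)) v u * (W ^ (t + 1)) w u) := by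
      simp only [← Finset.sum_add_distrib, ← Finset.sum_sub_distrib]
      exact Finset.sum_congr rfl fun v _ => Finset.sum_congr rfl fun w _ => by
        simp only [r]; ring
    rw [this, w00, w01, w10, w11]
    ring
  have hr := hq r
  unfold qform at hr
  rw [hr2, hrW] at hr
  have hE : energy W q = a0 + a1 - a2 - a3 := by
    unfold energy
    rw [hq2, hqW]; ring
  have hE0 : 0 ≤ energy W q := by
    rw [energy_eq hsym]
    apply add_nonneg
    · apply div_nonneg _ (by norm_num)
      exact Finset.sum_nonneg fun u _ => Finset.sum_nonneg fun v _ =>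
        mul_nonneg (hnn u v) (sq_nonneg _)
    · exact Finset.sum_nonneg fun u _ => mul_nonneg (by linarith [hrow u]) (sq_nonneg _)
  have ha1nn : 0 ≤ a1 := pow_nonneg_entry hnn _ _ _
  have ha2nn : 0 ≤ a2 := pow_nonneg_entry hnn _ _ _
  have ha0nn : 0 ≤ a0 := pow_nonneg_entry hnn _ _ _
  constructor
  · rw [hE] at hE0
    linarith
  · intro h16
    have hqs : (16 : ℝ) ≤ s * ∑ v, q v ^ 2 := by
      rw [hq2]
      have : (s : ℝ) * a0 ≤ s * (a0 + 2 * a1 + a2) :=
        mul_le_mul_of_nonneg_left (by linarith) (Nat.cast_nonneg _)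
      linarith
    have hq1 : ∑ v, q v ≤ 2 := by
      simp only [q]
      rw [Finset.sum_add_distrib]
      have h1 := pow_col_sum hsym hnn hrow t u
      have h2 := pow_col_sum hsym hnn hrow (t + 1) u
      linarith
    have hlow := energy_lower hsym hnn hrow φ hφ hφ1 s hS q
      (fun v => add_nonneg (pow_nonneg_entry hnn _ _ _) (pow_nonneg_entry hnn _ _ _)) hq1 hqs
    rw [hE, hq2] at hlow
    have : 0 ≤ φ ^ 2 * (2 * a1 + a2) := by positivity
    nlinarith

theorem return_le (hsym : ∀ u v, W u v = W v u) (hnn : ∀ u v, 0 ≤ W u v)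
    (hrow : ∀ u, ∑ v, W u v ≤ 1) (hq : ∀ z : V → ℝ, 0 ≤ qform W z)
    (φ : ℝ) (hφ : 0 < φ) (hφ1 : φ ≤ 1) (s : ℕ) (hs : 1 ≤ s)
    (hS : ∀ S : Finset V, S.card ≤ s → ∑ u ∈ S, ∑ v ∈ S, W u v ≤ (1 - φ) * S.card)
    (u : V) (t : ℕ) :
    (W ^ (2 * t)) u u ≤ max (16 / (s : ℝ)) ((1 - φ ^ 2 / 8) ^ t) := by
  have hs0 : (0 : ℝ) < s := by exact_mod_cast hs
  have hc0 : 0 ≤ 1 - φ ^ 2 / 8 := by nlinarith
  induction t with
  | zero => simp
  | succ t ih =>
    obtain ⟨h1, h2⟩ := return_step hsym hnn hrow hq φ hφ hφ1 s hS u t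
    by_cases hcase : (W ^ (2 * t)) u u ≤ 16 / s
    · exact (h1.trans hcase).trans (le_max_left _ _)
    · have hgt := not_le.1 hcase
      have h16 : (16 : ℝ) ≤ s * (W ^ (2 * t)) u u := by
        rw [div_lt_iff₀ hs0] at hgt
        linarith
      have h3 : (W ^ (2 * t)) u u ≤ (1 - φ ^ 2 / 8) ^ t := by
        rcases le_max_iff.1 ih with h | h
        · exact absurd h hcase
        · exact h
      refine le_trans ?_ (le_max_right _ _)
      refine (h2 h16).trans ?_
      rw [pow_succ' (1 - φ ^ 2 / 8) t]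
      exact mul_le_mul_of_nonneg_left h3 hc0

theorem trace_le_of_expanding (hsym : ∀ u v, W u v = W v u) (hnn : ∀ u v, 0 ≤ W u v)
    (hrow : ∀ u, ∑ v, W u v ≤ 1) (hq : ∀ z : V → ℝ, 0 ≤ qform W z)
    (φ : ℝ) (hφ : 0 < φ) (hφ1 : φ ≤ 1) (s : ℕ) (hs : 1 ≤ s)
    (hS : ∀ S : Finset V, S.card ≤ s → ∑ u ∈ S, ∑ v ∈ S, W u v ≤ (1 - φ) * S.card)
    (t : ℕ) (ht : 1 ≤ t) (U : Finset V) (hU : ∀ u v, W u v ≠ 0 → u ∈ U) :
    trace (W ^ (2 * t)) ≤ max (16 / (s : ℝ)) ((1 - φ ^ 2 / 8) ^ t) * U.card := by
  unfold Matrix.trace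
  have h2 : ∀ u, Matrix.diag (W ^ (2 * t)) u
      ≤ if u ∈ U then max (16 / (s : ℝ)) ((1 - φ ^ 2 / 8) ^ t) else 0 := by
    intro u
    rw [Matrix.diag_apply]
    split_ifs with hu
    · exact return_le hsym hnn hrow hq φ hφ hφ1 s hs hS u t
    · obtain ⟨k, hk⟩ : ∃ k, 2 * t = k + 1 := ⟨2 * t - 1, by omega⟩
      rw [hk, pow_succ', Matrix.mul_apply]
      refine (Finset.sum_eq_zero fun w _ => ?_).le
      have : W u w = 0 := by
        by_contra hne
        exact hu (hU u w hne)
      rw [this, zero_mul]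
  refine (Finset.sum_le_sum fun u _ => h2 u).trans (le_of_eq ?_)
  have ef : Finset.univ.filter (fun u => u ∈ U) = U := by ext u; simp
  rw [← Finset.sum_filter, ef, Finset.sum_const, nsmul_eq_mul, mul_comm]

end decay

end Pool.Agent.Helper53.VCR
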