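import Mathlib
import Pool.Agent.Helper53.VCR.Main
import Pool.Agent.Helper53.VCR.SSE

/-!
# Clusters or candidates
-/

open Matrix Module

namespace Pool.Agent.Helper53.VCR

variable {V : Type*} [Fintype V] [DecidableEq V]

/-- The span of the vectors supported on `R` that are eigenvectors, with eigenvalue at most `η`,
of the signless Laplacian of the weights `W` restricted to `R`. -/
def signless (W : Matrix V V ℝ) (R : Finset V) (η : ℝ) : Submodule ℝ (EuclideanSpace ℝ V) :=
  Submodule.span ℝ {z | (∀ u, u ∉ R → z u = 0) ∧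
    ∃ l : ℝ, l ≤ η ∧ ∀ u ∈ R, ∑ v ∈ R, W u v * (z u + z v) = l * z u}

/-- The signless Laplacian of `W` on `R`, minus the identity of `R`. -/
def tmat (W : Matrix V V ℝ) (R : Finset V) : Matrix V V ℝ := fun u v =>
  if u ∈ R ∧ v ∈ R then W u v - (if u = v then 1 - ∑ w ∈ R, W u w else 0) else 0

/-- The walk on `R` that stays put instead of leaving `R`. -/
def pmat (W : Matrix V V ℝ) (R : Finset V) : Matrix V V ℝ := fun u v =>
  if u ∈ R ∧ v ∈ R then W u v + (if u = v then 1 - ∑ w ∈ R, W u w else 0) else 0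

theorem tmat_mulVec (W : Matrix V V ℝ) (R : Finset V) (g : V → ℝ) (u : V) :
    ∑ v, tmat W R u v * g v
      = if u ∈ R then ∑ v ∈ R, W u v * g v - (1 - ∑ w ∈ R, W u w) * g u else 0 := by
  split_ifs with hu
  · have e1 : ∑ v, tmat W R u v * g v
        = ∑ v, ((if v ∈ R then W u v * g v else 0)
          - (if v = u then (1 - ∑ w ∈ R, W u w) * g u else 0)) := by
      refine Finset.sum_congr rfl fun v _ => ?_
      unfold tmat
      by_cases hv : v ∈ R
      · by_cases huv : u = v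
        · subst huv; simp [hu]; ring
        · simp [hu, hv, huv, Ne.symm huv]
      · have : ¬ v = u := fun h => hv (h ▸ hu)
        simp [hu, hv, this]
    have ef : Finset.univ.filter (fun v => v ∈ R) = R := by ext v; simp
    rw [e1, Finset.sum_sub_distrib, ← Finset.sum_filter, ef, Finset.sum_ite_eq']
    simp
  · exact Finset.sum_eq_zero fun v _ => by simp [tmat, hu]

theorem signless_eq (W : Matrix V V ℝ) (R : Finset V) (η : ℝ) (hη : η < 1) :
    signless W R η = lowSpan (tmat W R) (-(1 - η)) := by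
  unfold signless lowSpan
  congr 1
  ext z
  have key : ∀ u ∈ R, ∑ v ∈ R, W u v * (z u + z v)
      = (∑ w ∈ R, W u w) * z u + ∑ v ∈ R, W u v * z v := by
    intro u _
    rw [Finset.sum_mul, ← Finset.sum_add_distrib]
    exact Finset.sum_congr rfl fun v _ => by ring
  constructor
  · rintro ⟨h0, l, hl, he⟩
    refine ⟨l - 1, by linarith, fun u => ?_⟩
    rw [tmat_mulVec]
    split_ifs with hu
    · have := he u hu
      rw [key u hu] at this
      linarith
    · rw [h0 u hu]; ring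
  · rintro ⟨l, hl, he⟩
    refine ⟨fun u hu => ?_, l + 1, by linarith, fun u hu => ?_⟩
    · have := he u
      rw [tmat_mulVec, if_neg hu] at this
      rcases mul_eq_zero.1 this.symm with h | h
      · linarith
      · exact h
    · have := he u
      rw [tmat_mulVec, if_pos hu] at this
      rw [key u hu]
      linarith

section forms
variable {W : Matrix V V ℝ}

theorem tmat_symm (hsym : ∀ u v, W u v = W v u) (R : Finset V) (u v : V) :
    tmat W R u v = tmat W R v u := by
  unfold tmat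
  by_cases huv : u = v
  · subst huv; rfl
  · have hvu : ¬ v = u := fun h => huv h.symm
    simp only [huv, hvu, if_false, sub_zero, hsym u v]
    by_cases hu : u ∈ R <;> by_cases hv : v ∈ R <;> simp [hu, hv]

theorem pmat_symm (hsym : ∀ u v, W u v = W v u) (R : Finset V) (u v : V) :
    pmat W R u v = pmat W R v u := by
  unfold pmat
  by_cases huv : u = v
  · subst huv; rfl
  · have hvu : ¬ v = u := fun h => huv h.symm
    simp only [huv, hvu, if_false, add_zero, hsym u v]
    by_cases hu : u ∈ R <;> by_cases hv : v ∈ R <;> simp [hu, hv]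

theorem rowR_le (hnn : ∀ u v, 0 ≤ W u v) (hrow : ∀ u, ∑ v, W u v ≤ 1) (R : Finset V) (u : V) :
    ∑ w ∈ R, W u w ≤ 1 :=
  (Finset.sum_le_sum_of_subset_of_nonneg (Finset.subset_univ _) fun _ _ _ => hnn _ _).trans
    (hrow u)

theorem pmat_nonneg (hnn : ∀ u v, 0 ≤ W u v) (hrow : ∀ u, ∑ v, W u v ≤ 1) (R : Finset V)
    (u v : V) : 0 ≤ pmat W R u v := by
  unfold pmat
  have := rowR_le hnn hrow R u
  have := hnn u v
  split_ifs <;> linarith

theorem tmat_abs (hnn : ∀ u v, 0 ≤ W u v) (hrow : ∀ u, ∑ v, W u v ≤ 1) (R : Finset V)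
    (u v : V) : |tmat W R u v| ≤ pmat W R u v := by
  unfold tmat pmat
  have := rowR_le hnn hrow R u
  have := hnn u v
  rw [abs_le]
  split_ifs <;> constructor <;> linarith

theorem pmat_mulVec (W : Matrix V V ℝ) (R : Finset V) (g : V → ℝ) (u : V) :
    ∑ v, pmat W R u v * g v
      = if u ∈ R then ∑ v ∈ R, W u v * g v + (1 - ∑ w ∈ R, W u w) * g u else 0 := by
  split_ifs with hu
  · have e1 : ∑ v, pmat W R u v * g v
        = ∑ v, ((if v ∈ R then W u v * g v else 0)
          + (if v = u then (1 - ∑ w ∈ R, W u w) * g u else 0)) := by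
      refine Finset.sum_congr rfl fun v _ => ?_
      unfold pmat
      by_cases hv : v ∈ R
      · by_cases huv : u = v
        · subst huv; simp [hu]; ring
        · simp [hu, hv, huv, Ne.symm huv]
      · have : ¬ v = u := fun h => hv (h ▸ hu)
        simp [hu, hv, this]
    have ef : Finset.univ.filter (fun v => v ∈ R) = R := by ext v; simp
    rw [e1, Finset.sum_add_distrib, ← Finset.sum_filter, ef, Finset.sum_ite_eq']
    simp
  · exact Finset.sum_eq_zero fun v _ => by simp [pmat, hu]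

theorem pmat_row (W : Matrix V V ℝ) (R : Finset V) (u : V) : ∑ v, pmat W R u v ≤ 1 := by
  have := pmat_mulVec W R (fun _ => 1) u
  simp only [mul_one] at this
  rw [this]
  split_ifs
  · linarith
  · norm_num

theorem qform_nonneg' {P : Matrix V V ℝ} (hsym : ∀ u v, P u v = P v u) (hnn : ∀ u v, 0 ≤ P u v)
    (hrow : ∀ u, ∑ v, P u v ≤ 1) (z : V → ℝ) : 0 ≤ qform P z := by
  have h1 : ∑ u, (∑ v, P u v) * z u ^ 2 ≤ ∑ u, z u ^ 2 := by
    refine Finset.sum_le_sum fun u _ => ?_
    have := mul_le_mul_of_nonneg_right (hrow u) (sq_nonneg (z u))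
    linarith
  have h2 : ∑ u, (∑ v, P u v) * z u ^ 2 = ∑ u, ∑ v, P u v * z u ^ 2 :=
    Finset.sum_congr rfl fun u _ => Finset.sum_mul _ _ _
  have h3 : ∑ u, ∑ v, P u v * z u ^ 2 = ∑ u, ∑ v, P u v * z v ^ 2 := by
    rw [Finset.sum_comm]
    exact Finset.sum_congr rfl fun v _ => Finset.sum_congr rfl fun u _ => by rw [hsym u v]
  have h4 : 0 ≤ ∑ u, ∑ v, P u v * (z u + z v) ^ 2 :=
    Finset.sum_nonneg fun u _ => Finset.sum_nonneg fun v _ =>
      mul_nonneg (hnn u v) (sq_nonneg _)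
  have h5 : ∑ u, ∑ v, P u v * (z u + z v) ^ 2
      = ∑ u, ∑ v, P u v * z u ^ 2 + ∑ u, ∑ v, P u v * z v ^ 2
        + 2 * ∑ u, ∑ v, P u v * (z u * z v) := by
    rw [Finset.mul_sum, ← Finset.sum_add_distrib, ← Finset.sum_add_distrib]
    refine Finset.sum_congr rfl fun u _ => ?_
    rw [Finset.mul_sum, ← Finset.sum_add_distrib, ← Finset.sum_add_distrib]
    exact Finset.sum_congr rfl fun v _ => by ring
  unfold qform
  rw [h5, ← h3] at h4
  rw [h2] at h1
  linarith

/-- The quadratic form of the signless Laplacian. -/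
theorem qform_tmat (hsym : ∀ u v, W u v = W v u) (R : Finset V) (z : V → ℝ) :
    qform (tmat W R) z = ∑ u, (if u ∈ R then 0 else z u ^ 2)
      + (∑ u ∈ R, ∑ v ∈ R, W u v * (z u + z v) ^ 2) / 2 := by
  have ef : Finset.univ.filter (fun v => v ∈ R) = R := by ext v; simp
  have h1 : ∑ u, ∑ v, tmat W R u v * (z u * z v)
      = ∑ u ∈ R, (∑ v ∈ R, W u v * (z u * z v) - (1 - ∑ w ∈ R, W u w) * z u ^ 2) := by
    have e : ∀ u, ∑ v, tmat W R u v * (z u * z v) = z u * ∑ v, tmat W R u v * z v := by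
      intro u
      rw [Finset.mul_sum]
      exact Finset.sum_congr rfl fun v _ => by ring
    simp_rw [e, tmat_mulVec]
    rw [← Finset.sum_filter_add_sum_filter_not Finset.univ (fun u => u ∈ R), ef]
    have z0 : ∑ u ∈ Finset.univ.filter (fun u => ¬ u ∈ R),
        z u * (if u ∈ R then ∑ v ∈ R, W u v * z v - (1 - ∑ w ∈ R, W u w) * z u else 0) = 0 := by
      refine Finset.sum_eq_zero fun u hu => ?_
      rw [if_neg (Finset.mem_filter.1 hu).2, mul_zero]
    rw [z0, add_zero]
    refine Finset.sum_congr rfl fun u hu => ?_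
    rw [if_pos hu, mul_sub, Finset.mul_sum]
    congr 1
    · exact Finset.sum_congr rfl fun v _ => by ring
    · ring
  have h2 : ∑ u, z u ^ 2 = ∑ u, (if u ∈ R then 0 else z u ^ 2) + ∑ u ∈ R, z u ^ 2 := by
    have : ∑ u ∈ R, z u ^ 2 = ∑ u, (if u ∈ R then z u ^ 2 else 0) := by
      rw [← Finset.sum_filter, ef]
    rw [this, ← Finset.sum_add_distrib]
    refine Finset.sum_congr rfl fun u _ => ?_
    split_ifs <;> ring
  have h3 : ∑ u ∈ R, ∑ v ∈ R, W u v * z u ^ 2 = ∑ u ∈ R, ∑ v ∈ R, W u v * z v ^ 2 := by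
    rw [Finset.sum_comm]
    exact Finset.sum_congr rfl fun v _ => Finset.sum_congr rfl fun u _ => by rw [hsym u v]
  have h5 : ∑ u ∈ R, ∑ v ∈ R, W u v * (z u + z v) ^ 2
      = ∑ u ∈ R, ∑ v ∈ R, W u v * z u ^ 2 + ∑ u ∈ R, ∑ v ∈ R, W u v * z v ^ 2
        + 2 * ∑ u ∈ R, ∑ v ∈ R, W u v * (z u * z v) := by
    rw [Finset.mul_sum, ← Finset.sum_add_distrib, ← Finset.sum_add_distrib]
    refine Finset.sum_congr rfl fun u _ => ?_
    rw [Finset.mul_sum, ← Finset.sum_add_distrib, ← Finset.sum_add_distrib]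
    exact Finset.sum_congr rfl fun v _ => by ring
  have h6 : ∑ u ∈ R, (∑ w ∈ R, W u w) * z u ^ 2 = ∑ u ∈ R, ∑ v ∈ R, W u v * z u ^ 2 :=
    Finset.sum_congr rfl fun u _ => Finset.sum_mul _ _ _
  have h7 : ∑ u ∈ R, (∑ v ∈ R, W u v * (z u * z v) - (1 - ∑ w ∈ R, W u w) * z u ^ 2)
      = ∑ u ∈ R, ∑ v ∈ R, W u v * (z u * z v) - ∑ u ∈ R, z u ^ 2
        + ∑ u ∈ R, (∑ w ∈ R, W u w) * z u ^ 2 := by
    rw [← Finset.sum_sub_distrib, ← Finset.sum_add_distrib]
    exact Finset.sum_congr rfl fun u _ => by ring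
  unfold qform
  rw [h1, h7, h6, h2, h5, ← h3]
  ring

theorem qform_tmat_nonneg (hsym : ∀ u v, W u v = W v u) (hnn : ∀ u v, 0 ≤ W u v) (R : Finset V)
    (z : V → ℝ) : 0 ≤ qform (tmat W R) z := by
  rw [qform_tmat hsym]
  apply add_nonneg
  · refine Finset.sum_nonneg fun u _ => ?_
    split_ifs <;> positivity
  · apply div_nonneg _ (by norm_num)
    exact Finset.sum_nonneg fun u _ => Finset.sum_nonneg fun v _ =>
      mul_nonneg (hnn u v) (sq_nonneg _)

theorem tmat_pow_abs (hnn : ∀ u v, 0 ≤ W u v) (hrow : ∀ u, ∑ v, W u v ≤ 1) (R : Finset V)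
    (k : ℕ) (u v : V) : |(tmat W R ^ k) u v| ≤ (pmat W R ^ k) u v := by
  induction k generalizing u v with
  | zero =>
    rw [pow_zero, pow_zero, Matrix.one_apply]
    split_ifs <;> simp
  | succ k ih =>
    rw [pow_succ (tmat W R) k, pow_succ (pmat W R) k, Matrix.mul_apply, Matrix.mul_apply]
    refine (Finset.abs_sum_le_sum_abs _ _).trans (Finset.sum_le_sum fun w _ => ?_)
    rw [abs_mul]
    exact mul_le_mul (ih u w) (tmat_abs hnn hrow R w v) (abs_nonneg _)
      (pow_nonneg_entry (pmat_nonneg hnn hrow R) _ _ _)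

theorem trace_tmat_le (hnn : ∀ u v, 0 ≤ W u v) (hrow : ∀ u, ∑ v, W u v ≤ 1) (R : Finset V)
    (k : ℕ) : trace (tmat W R ^ k) ≤ trace (pmat W R ^ k) := by
  unfold Matrix.trace
  refine Finset.sum_le_sum fun u _ => ?_
  rw [Matrix.diag_apply, Matrix.diag_apply]
  exact (le_abs_self _).trans (tmat_pow_abs hnn hrow R k u u)

/-- Small sets are not nearly closed under the lazy walk. -/
theorem pmat_small (hnn : ∀ u v, 0 ≤ W u v) (R : Finset V) (φ : ℝ) (hφ1 : φ ≤ 1) (s : ℕ)
    (hexp : ∀ S ⊆ R, S.card ≤ s → φ * S.card ≤ ∑ u ∈ S, ∑ v ∈ R \ S, W u v)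
    (S : Finset V) (hS : S.card ≤ s) :
    ∑ u ∈ S, ∑ v ∈ S, pmat W R u v ≤ (1 - φ) * S.card := by
  have e1 : ∑ u ∈ S, ∑ v ∈ S, pmat W R u v
      = ∑ u ∈ S ∩ R, (∑ v ∈ S ∩ R, W u v + (1 - ∑ w ∈ R, W u w)) := by
    rw [← Finset.sum_filter_add_sum_filter_not S (fun u => u ∈ R)]
    have z0 : ∑ u ∈ S.filter (fun u => ¬ u ∈ R), ∑ v ∈ S, pmat W R u v = 0 := by
      refine Finset.sum_eq_zero fun u hu => Finset.sum_eq_zero fun v _ => ?_
      simp [pmat, (Finset.mem_filter.1 hu).2]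
    rw [z0, add_zero, Finset.filter_mem_eq_inter]
    refine Finset.sum_congr rfl fun u hu => ?_
    have hu' := Finset.mem_inter.1 hu
    have e2 : ∑ v ∈ S, pmat W R u v
        = ∑ v ∈ S, ((if v ∈ R then W u v else 0)
          + (if v = u then (1 - ∑ w ∈ R, W u w) else 0)) := by
      refine Finset.sum_congr rfl fun v _ => ?_
      unfold pmat
      by_cases hv : v ∈ R
      · by_cases huv : u = v
        · subst huv; simp [hv]
        · simp [hu'.2, hv, huv, Ne.symm huv]
      · have : ¬ v = u := fun h => hv (h ▸ hu'.2)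
        simp [hu'.2, hv, this]
    rw [e2, Finset.sum_add_distrib, Finset.sum_ite_eq' S u, if_pos hu'.1, ← Finset.sum_filter,
      Finset.filter_mem_eq_inter]
  have e3 : ∑ u ∈ S ∩ R, (∑ v ∈ S ∩ R, W u v + (1 - ∑ w ∈ R, W u w))
      = (S ∩ R).card - ∑ u ∈ S ∩ R, ∑ v ∈ R \ (S ∩ R), W u v := by
    have : ((S ∩ R).card : ℝ) = ∑ u ∈ S ∩ R, (1 : ℝ) := by simp
    rw [this, ← Finset.sum_sub_distrib]
    refine Finset.sum_congr rfl fun u _ => ?_
    have h := Finset.sum_sdiff (f := fun v => W u v) (Finset.inter_subset_right (s₁ := S) (s₂ := R))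
    linarith
  rw [e1, e3]
  have h1 := hexp (S ∩ R) Finset.inter_subset_right
    ((Finset.card_le_card Finset.inter_subset_left).trans hS)
  have h2 : ((S ∩ R).card : ℝ) ≤ S.card := by
    exact_mod_cast Finset.card_le_card Finset.inter_subset_left
  have h3 : (1 - φ) * ((S ∩ R).card : ℝ) ≤ (1 - φ) * S.card :=
    mul_le_mul_of_nonneg_left h2 (by linarith)
  linarith

end forms

end Pool.Agent.Helper53.VCR
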