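import Mathlib
import Pool.Agent.Helper53.VCR.Dicho

/-!
# Clusters or candidates, second part
-/

open Matrix Module

namespace Pool.Agent.Helper53.VCR

variable {V : Type*} [Fintype V] [DecidableEq V]

/-- The family `F` consists of disjoint sets of at most `s` vertices with `x = 1/2`; they contain
all but a `c` fraction of these vertices, and all but a small part of the mass of `W` is inside
them. -/
structure Clustered (x : V → ℝ) (W : Matrix V V ℝ) (c : ℝ) (s : ℕ) (F : Finset (Finset V)) :
    Prop where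
  small : ∀ S ∈ F, S.card ≤ s
  sub : ∀ S ∈ F, ∀ v ∈ S, x v = 1 / 2
  disj : ∀ S ∈ F, ∀ T ∈ F, S ≠ T → Disjoint S T
  covers : (1 - c) * halfCount x ≤ (F.biUnion id).card
  inside : ∑ u, ∑ v, W u v - 3 / 2 * c * halfCount x ≤ ∑ S ∈ F, ∑ u ∈ S, ∑ v ∈ S, W u v

/-- The set `R` of vertices with `x = 1/2` has at least a `c` fraction of them, little mass of `W`
leaves it, and a `c/4` fraction of every set of at most `s` vertices leaves the set inside `R`. -/
structure ExpandingPart (x : V → ℝ) (W : Matrix V V ℝ) (c : ℝ) (s : ℕ) (R : Finset V) : Prop where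
  sub : ∀ v ∈ R, x v = 1 / 2
  large : c * halfCount x ≤ R.card
  cross : ∑ u ∈ R, ∑ v ∈ Rᶜ, W u v ≤ c / 4 * halfCount x
  exp : ∀ S ⊆ R, S.card ≤ s → c / 4 * S.card ≤ ∑ u ∈ S, ∑ v ∈ R \ S, W u v

/-- The candidate cover built from a part `R`, a vector, a threshold and a matching. -/
def candR {G : SimpleGraph V} (x : V → ℝ) (R : Finset V) (z : V → ℝ) (θ : ℝ) (M : G.Subgraph) :
    Set V :=
  {v | x v = 1} ∪ {v | x v = 1 / 2 ∧ (v ∈ R → z v ≤ θ)} ∪ M.verts

section
variable {G : SimpleGraph V} {x : V → ℝ} {W : Matrix V V ℝ}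

open Classical in
theorem halfCount_eq (x : V → ℝ) :
    halfCount x = (Finset.univ.filter fun v => x v = 1 / 2).card := by
  unfold halfCount
  rw [← Set.ncard_coe_finset]
  congr 1
  ext v; simp

open Classical in
/-- Mass inside a vertex cover. -/
theorem mass_inside (hW : FracMatching G x W) (K : Set V) (hK : G.IsVertexCover K) :
    ∑ u, ∑ v, W u v * ((if u ∈ K then 1 else 0) * (if v ∈ K then 1 else 0))
      ≤ 2 * ((Finset.univ.filter fun v => v ∈ K ∧ x v = 1 / 2).card : ℝ) - ∑ u, ∑ v, W u v := by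
  let k : V → ℝ := fun v => if v ∈ K then 1 else 0
  have h2 : ∀ u v, W u v * (k u * k v) = W u v * (k u + k v - 1) := by
    intro u v
    by_cases hw : W u v = 0
    · rw [hw]; ring
    · obtain ⟨ha, hu, hv⟩ := hW.supp u v hw
      congr 1
      have := hK ha
      simp only [k]
      by_cases h1 : u ∈ K
      · by_cases h2 : v ∈ K
        · simp [h1, h2]
        · simp [h1, h2]
      · have h2 : v ∈ K := by tauto
        simp [h1, h2]
  have h4 : ∑ u, k u * ∑ v, W u v
      ≤ ((Finset.univ.filter fun v => v ∈ K ∧ x v = 1 / 2).card : ℝ) := by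
    rw [Finset.card_filter]
    push_cast
    refine Finset.sum_le_sum fun u _ => ?_
    by_cases hu : x u = 1 / 2
    · by_cases hk : u ∈ K
      · simp only [k, hu, hk]
        simpa using hW.row u
      · simp [k, hk]
    · have : ∑ v, W u v = 0 := by
        refine Finset.sum_eq_zero fun v _ => ?_
        by_contra hne
        exact hu (hW.supp u v hne).2.1
      rw [this, mul_zero]
      split_ifs <;> norm_num
  have e1 : ∑ u, ∑ v, W u v * (k u * k v)
      = ∑ u, ∑ v, W u v * k u + ∑ u, ∑ v, W u v * k v - ∑ u, ∑ v, W u v := by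
    simp_rw [h2]
    rw [← Finset.sum_add_distrib, ← Finset.sum_sub_distrib]
    refine Finset.sum_congr rfl fun u _ => ?_
    rw [← Finset.sum_add_distrib, ← Finset.sum_sub_distrib]
    exact Finset.sum_congr rfl fun v _ => by ring
  have e2 : ∑ u, ∑ v, W u v * k v = ∑ u, ∑ v, W u v * k u := by
    rw [Finset.sum_comm]
    exact Finset.sum_congr rfl fun v _ => Finset.sum_congr rfl fun u _ => by rw [hW.symm u v]
  have e3 : ∑ u, ∑ v, W u v * k u = ∑ u, k u * ∑ v, W u v := by
    refine Finset.sum_congr rfl fun u _ => ?_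
    rw [Finset.mul_sum]
    exact Finset.sum_congr rfl fun v _ => by ring
  change ∑ u, ∑ v, W u v * (k u * k v) ≤ _
  rw [e1, e2, e3]
  linarith

open Classical in
/-- The sign vector of a vertex cover on `R`. -/
noncomputable def sgnR (R : Finset V) (K : Set V) (v : V) : ℝ :=
  if v ∈ R then (if v ∈ K then -1 else 1) else 0

open Classical in
theorem qform_sgnR (hW : FracMatching G x W) (R : Finset V) (K : Set V)
    (hK : G.IsVertexCover K) :
    qform (tmat W R) (sgnR R K)
      ≤ 2 * (2 * ((Finset.univ.filter fun v => v ∈ K ∧ x v = 1 / 2).card : ℝ)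
        - ∑ u, ∑ v, W u v) := by
  rw [qform_tmat hW.symm]
  have h1 : ∑ u, (if u ∈ R then (0 : ℝ) else sgnR R K u ^ 2) = 0 := by
    refine Finset.sum_eq_zero fun u _ => ?_
    unfold sgnR
    split_ifs <;> norm_num
  have h2 : ∑ u ∈ R, ∑ v ∈ R, W u v * (sgnR R K u + sgnR R K v) ^ 2
      = 4 * ∑ u ∈ R, ∑ v ∈ R, W u v * ((if u ∈ K then 1 else 0) * (if v ∈ K then 1 else 0)) := by
    rw [Finset.mul_sum]
    refine Finset.sum_congr rfl fun u hu => ?_
    rw [Finset.mul_sum]
    refine Finset.sum_congr rfl fun v hv => ?_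
    by_cases hw : W u v = 0
    · rw [hw]; ring
    · obtain ⟨ha, _, _⟩ := hW.supp u v hw
      have := hK ha
      unfold sgnR
      rw [if_pos hu, if_pos hv]
      by_cases h1 : u ∈ K
      · by_cases h2 : v ∈ K
        · simp [h1, h2]; ring
        · simp [h1, h2]
      · have h2 : v ∈ K := by tauto
        simp [h1, h2]
  have h3 : ∑ u ∈ R, ∑ v ∈ R, W u v * ((if u ∈ K then (1 : ℝ) else 0) * (if v ∈ K then 1 else 0))
      ≤ ∑ u, ∑ v, W u v * ((if u ∈ K then (1 : ℝ) else 0) * (if v ∈ K then 1 else 0)) := by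
    have hn : ∀ u v, 0 ≤ W u v * ((if u ∈ K then (1 : ℝ) else 0) * (if v ∈ K then 1 else 0)) := by
      intro u v
      have := hW.nonneg u v
      split_ifs <;> simp [this]
    calc ∑ u ∈ R, ∑ v ∈ R, W u v * ((if u ∈ K then (1 : ℝ) else 0) * (if v ∈ K then 1 else 0))
        ≤ ∑ u ∈ R, ∑ v, W u v * ((if u ∈ K then (1 : ℝ) else 0) * (if v ∈ K then 1 else 0)) :=
          Finset.sum_le_sum fun u _ => Finset.sum_le_sum_of_subset_of_nonneg
            (Finset.subset_univ _) fun v _ _ => hn u v
      _ ≤ _ := Finset.sum_le_sum_of_subset_of_nonneg (Finset.subset_univ _) fun u _ _ =>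
            Finset.sum_nonneg fun v _ => hn u v
  rw [h1, h2]
  have h4 := mass_inside hW K hK
  linarith

open Classical in
/-- The independent part outside `R` is at most about half. -/
theorem outside_bound (hW : FracMatching G x W) (R : Finset V) (K : Set V)
    (hK : G.IsVertexCover K) (hR : ∀ v ∈ R, x v = 1 / 2) (X D : ℝ)
    (hX : ∑ u ∈ R, ∑ v ∈ Rᶜ, W u v ≤ X)
    (hD : ((Finset.univ.filter fun v => x v = 1 / 2).card : ℝ) - D ≤ ∑ u, ∑ v, W u v) :
    ((Finset.univ.filter fun v => v ∉ K ∧ x v = 1 / 2 ∧ v ∉ R).card : ℝ)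
      ≤ ((Finset.univ.filter fun v => v ∈ K ∧ x v = 1 / 2 ∧ v ∉ R).card : ℝ) + X + D := by
  set I := Finset.univ.filter fun v => v ∉ K ∧ x v = 1 / 2 ∧ v ∉ R with hI
  set J := Finset.univ.filter fun v => v ∈ K ∧ x v = 1 / 2 ∧ v ∉ R with hJ
  set U := Finset.univ.filter fun v => x v = 1 / 2 with hU
  have hrow0 : ∀ u, u ∉ U → ∑ v, W u v = 0 := by
    intro u hu
    refine Finset.sum_eq_zero fun v _ => ?_
    by_contra hne
    exact hu (Finset.mem_filter.2 ⟨Finset.mem_univ _, (hW.supp u v hne).2.1⟩)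
  have hdef : (I.card : ℝ) - ∑ u ∈ I, ∑ v, W u v ≤ D := by
    have h1 : (I.card : ℝ) - ∑ u ∈ I, ∑ v, W u v = ∑ u ∈ I, (1 - ∑ v, W u v) := by
      rw [Finset.sum_sub_distrib]; simp
    have h2 : ∑ u ∈ I, (1 - ∑ v, W u v) ≤ ∑ u ∈ U, (1 - ∑ v, W u v) := by
      apply Finset.sum_le_sum_of_subset_of_nonneg
      · intro u hu
        exact Finset.mem_filter.2 ⟨Finset.mem_univ _, (Finset.mem_filter.1 hu).2.2.1⟩
      · intro u _ _
        linarith [hW.row u]
    have h3 : ∑ u ∈ U, (1 - ∑ v, W u v) = (U.card : ℝ) - ∑ u, ∑ v, W u v := by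
      rw [Finset.sum_sub_distrib]
      have : ∑ u ∈ U, ∑ v, W u v = ∑ u, ∑ v, W u v :=
        Finset.sum_subset (Finset.subset_univ _) fun u _ hu => hrow0 u hu
      rw [this]; simp
    linarith
  have hIs : ∑ u ∈ I, ∑ v, W u v ≤ J.card + X := by
    have h1 : ∀ u ∈ I, ∑ v, W u v ≤ ∑ v ∈ J, W u v + ∑ v ∈ R, W u v := by
      intro u hu
      have hu' := (Finset.mem_filter.1 hu).2
      have hdis : Disjoint J R := by
        rw [Finset.disjoint_left]
        intro v h1 h2
        exact (Finset.mem_filter.1 h1).2.2.2 h2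
      rw [← Finset.sum_union hdis]
      refine (Finset.sum_subset (Finset.subset_univ _) fun v _ hv => ?_).ge
      by_contra hne
      obtain ⟨ha, _, hxv⟩ := hW.supp u v hne
      have hvK : v ∈ K := by
        have := hK ha
        tauto
      apply hv
      by_cases hvR : v ∈ R
      · exact Finset.mem_union_right _ hvR
      · exact Finset.mem_union_left _ (Finset.mem_filter.2 ⟨Finset.mem_univ _, hvK, hxv, hvR⟩)
    have h2 : ∑ u ∈ I, ∑ v, W u v ≤ ∑ u ∈ I, ∑ v ∈ J, W u v + ∑ u ∈ I, ∑ v ∈ R, W u v := by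
      rw [← Finset.sum_add_distrib]
      exact Finset.sum_le_sum h1
    have h3 : ∑ u ∈ I, ∑ v ∈ J, W u v ≤ J.card := by
      rw [Finset.sum_comm]
      calc ∑ v ∈ J, ∑ u ∈ I, W u v ≤ ∑ v ∈ J, (1 : ℝ) := by
            refine Finset.sum_le_sum fun v _ => ?_
            calc ∑ u ∈ I, W u v ≤ ∑ u, W u v :=
                  Finset.sum_le_sum_of_subset_of_nonneg (Finset.subset_univ _)
                    fun u _ _ => hW.nonneg u v
              _ = ∑ u, W v u := Finset.sum_congr rfl fun u _ => hW.symm u v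
              _ ≤ 1 := hW.row v
        _ = J.card := by simp
    have h4 : ∑ u ∈ I, ∑ v ∈ R, W u v ≤ X := by
      refine le_trans ?_ hX
      rw [Finset.sum_comm]
      refine Finset.sum_le_sum fun v _ => ?_
      calc ∑ u ∈ I, W u v = ∑ u ∈ I, W v u := Finset.sum_congr rfl fun u _ => hW.symm u v
        _ ≤ ∑ u ∈ Rᶜ, W v u := by
          apply Finset.sum_le_sum_of_subset_of_nonneg
          · intro u hu
            exact Finset.mem_compl.2 (Finset.mem_filter.1 hu).2.2.2
          · intro u _ _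
            exact hW.nonneg v u
    linarith
  linarith

/-- the final arithmetic of the second theorem -/
theorem arith2 (a κ m ρ i c X B T sz : ℝ) (ha : 0 ≤ a) (hκ : m ≤ 2 * κ) (hm : 0 ≤ m)
    (hc : 0 < c) (hc1 : c ≤ 1) (hρ : c * m ≤ ρ)
    (hsmall : ¬ a + m ≤ (2 - c ^ 3 / 8192) * (a + κ))
    (hT : (1 - c ^ 3 / 32768) * m ≤ T)
    (hX : X ^ 2 ≤ 2 * (2 * κ - T) / (c ^ 2 / 1024))
    (S : ℝ) (hS : S ^ 2 = ρ) (hB : B ≤ (X + S / 4) ^ 2 / 2)
    (hi : 2 * i ≤ (m - ρ) + c / 4 * m + c ^ 3 / 32768 * m)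
    (hsz : sz ≤ a + κ + (B + i)) :
    sz ≤ (2 - c ^ 3 / 8192) * (a + κ) := by
  have hc3 : 0 < c ^ 3 := by positivity
  have hc3' : c ^ 3 ≤ c := by
    have := pow_le_pow_of_le_one hc.le hc1 (show 1 ≤ 3 by norm_num)
    simpa using this
  push Not at hsmall
  have e4 : c ^ 3 / 32768 = c ^ 3 / 8192 / 4 := by ring
  rw [e4] at hT hi
  set β := c ^ 3 / 8192 with hβ
  have hβ0 : 0 < β := by positivity
  have hβc : β ≤ c / 8192 := by rw [hβ]; linarith
  have hβ1 : β ≤ 1 / 8192 := by linarith
  have hκ0 : 0 ≤ κ := by linarith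
  have h1β : 0 ≤ 1 - β := by linarith
  have hA : 0 ≤ (1 - β) * a := mul_nonneg h1β ha
  have hK : 0 ≤ (1 - β) * κ := mul_nonneg h1β hκ0
  have hexp : (2 - β) * (a + κ) = a + κ + (1 - β) * a + (1 - β) * κ := by ring
  rw [hexp] at hsmall ⊢
  have e5 : (1 - β) * κ = κ - β * κ := by ring
  -- `2 κ - m` is small
  have hκm : κ ≤ m := by linarith
  have hβκ : β * κ ≤ β * m := mul_le_mul_of_nonneg_left hκm hβ0.le
  have he : 2 * κ - m ≤ β * m := by linarith
  have hX2 : X ^ 2 ≤ 5 / 16 * c * m := by
    have e6 : (1 - β / 4) * m = m - β * m / 4 := by ring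
    have h1 : 2 * (2 * κ - T) ≤ 5 / 2 * β * m := by
      have e7 : 5 / 2 * β * m = 5 / 2 * (β * m) := by ring
      linarith
    have h2 : 2 * (2 * κ - T) / (c ^ 2 / 1024) ≤ (5 / 2 * β * m) / (c ^ 2 / 1024) :=
      div_le_div_of_nonneg_right h1 (by positivity)
    have h3 : (5 / 2 * β * m) / (c ^ 2 / 1024) = 5 / 16 * c * m := by
      rw [hβ]; field_simp; ring
    linarith
  have hXS : 2 * (X * (S / 4)) ≤ (X ^ 2 + S ^ 2) / 4 := by
    have h0 := sq_nonneg (X - S)
    have h1 : (X - S) ^ 2 = X ^ 2 + S ^ 2 - 4 * (2 * (X * (S / 4))) := by ring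
    linarith
  have hB2 : B ≤ 5 / 8 * X ^ 2 + 5 / 32 * ρ := by
    have h1 : (X + S / 4) ^ 2 = X ^ 2 + 2 * (X * (S / 4)) + S ^ 2 / 16 := by ring
    rw [h1] at hB
    rw [← hS]
    linarith
  have hβm : β * m ≤ c / 8192 * m := mul_le_mul_of_nonneg_right hβc hm
  have e8 : 5 / 16 * c * m = 5 / 16 * (c * m) := by ring
  have e9 : c / 4 * m = (c * m) / 4 := by ring
  have e10 : β / 4 * m = β * m / 4 := by ring
  have e11 : c / 8192 * m = c * m / 8192 := by ring
  rw [e9, e10] at hi
  rw [e8] at hX2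
  rw [e11] at hβm
  have hcm : 0 ≤ c * m := by positivity
  linarith

open Classical in
theorem main_listR (G : SimpleGraph V) (x : V → ℝ) (W : Matrix V V ℝ) (c : ℝ) (s : ℕ)
    (R : Finset V) (hx : HalfOpt G x) (hW : FracMatching G x W) (hc : 0 < c) (hc1 : c ≤ 1)
    (hmass : (1 - c ^ 3 / 32768) * halfCount x ≤ ∑ u, ∑ v, W u v)
    (hR : ExpandingPart x W c s R) (N : Finset (EuclideanSpace ℝ V))
    (hN : IsNet (signless W R (c ^ 2 / 1024)) (√(R.card)) (1 / 4 * √(R.card)) N) :
    Within G (2 - c ^ 3 / 8192) {v | 1 / 2 ≤ x v} ∨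
      ∃ z ∈ N, ∃ θ : ℝ, ∀ M : G.Subgraph, IsMaxMatching G {v | v ∈ R ∧ θ < z v} M →
        Within G (2 - c ^ 3 / 8192) (candR x R z θ M) := by
  set r := 2 - c ^ 3 / 8192 with hr
  have hη1 : c ^ 2 / 1024 < 1 := by
    have : c ^ 2 ≤ 1 := by nlinarith
    linarith
  have hr0 : 0 ≤ r := by
    have : c ^ 3 ≤ 1 := pow_le_one₀ hc.le hc1
    rw [hr]; linarith
  obtain ⟨K, hK, hKmin⟩ : ∃ K : Set V, G.IsVertexCover K ∧
      ∀ K' : Set V, G.IsVertexCover K' → K.ncard ≤ K'.ncard := by
    obtain ⟨K, hK, hm⟩ := Set.exists_min_image {K : Set V | G.IsVertexCover K} Set.ncard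
      (Set.toFinite _) ⟨Set.univ, by simp [SimpleGraph.IsVertexCover]⟩
    exact ⟨K, hK, hm⟩
  set A := Finset.univ.filter fun v => x v = 1 with hA
  set U := Finset.univ.filter fun v => x v = 1 / 2 with hU
  set KU := Finset.univ.filter fun v => v ∈ K ∧ x v = 1 / 2 with hKU
  set IU := Finset.univ.filter fun v => v ∉ K ∧ x v = 1 / 2 with hIU
  set KO := Finset.univ.filter fun v => v ∈ K ∧ x v = 1 / 2 ∧ v ∉ R with hKO
  set IO := Finset.univ.filter fun v => v ∉ K ∧ x v = 1 / 2 ∧ v ∉ R with hIO
  have hm : halfCount x = U.card := halfCount_eq x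
  have hUK : U.card ≤ 2 * KU.card := persist_half hx K hK
  have hkK : A.card + KU.card ≤ K.ncard := by
    have h1 := persist_one hx K hK
    rw [← hA] at h1
    have h2 : K.ncard = KU.card + (Finset.univ.filter fun v => v ∈ K ∧ x v ≠ 1 / 2).card := by
      have e : K = ((Finset.univ.filter fun v => v ∈ K : Finset V) : Set V) := by ext v; simp
      have e2 : K.ncard = (Finset.univ.filter fun v => v ∈ K).card := by
        conv_lhs => rw [e]
        rw [Set.ncard_coe_finset]
      rw [e2, ← Finset.card_filter_add_card_filter_not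
        (s := Finset.univ.filter fun v => v ∈ K) (fun v => x v = 1 / 2),
        Finset.filter_filter, Finset.filter_filter]
    omega
  have hkR : ((A.card : ℝ) + KU.card) ≤ K.ncard := by exact_mod_cast hkK
  have hall : ∀ C : Set V, G.IsVertexCover C → (C.ncard : ℝ) ≤ r * (A.card + KU.card) →
      Within G r C := by
    intro C hC hle
    refine ⟨hC, fun K' hK' => hle.trans ?_⟩
    apply mul_le_mul_of_nonneg_left _ hr0
    have : (K.ncard : ℝ) ≤ K'.ncard := by exact_mod_cast hKmin K' hK'
    linarith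
  by_cases htriv : (A.card : ℝ) + U.card ≤ r * (A.card + KU.card)
  · left
    apply hall
    · intro u v huv
      have hc := hx.cover u v huv
      simp only [Set.mem_setOf_eq]
      by_contra hcon
      push Not at hcon
      linarith [hcon.1, hcon.2]
    · refine le_trans ?_ htriv
      have e : {v | 1 / 2 ≤ x v} = ((A ∪ U : Finset V) : Set V) := by
        ext v
        simp only [Set.mem_setOf_eq, hA, hU, Finset.coe_union, Finset.coe_filter, Finset.mem_univ,
          true_and, Set.mem_union]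
        rcases hx.half v with h | h | h <;> rw [h] <;> norm_num
      rw [e, Set.ncard_coe_finset]
      exact_mod_cast Finset.card_union_le _ _
  · right
    let f : EuclideanSpace ℝ V := WithLp.toLp 2 (sgnR R K)
    have hfv : ∀ v, f v = sgnR R K v := fun v => rfl
    have hfn : ‖f‖ ^ 2 = R.card := by
      rw [EuclideanSpace.real_norm_sq_eq]
      have e : (R.card : ℝ) = ∑ v, (if v ∈ R then (1 : ℝ) else 0) := by
        rw [← Finset.sum_filter, Finset.sum_const, nsmul_eq_mul, mul_one]
        congr 2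
        ext v; simp
      rw [e]
      refine Finset.sum_congr rfl fun v _ => ?_
      rw [hfv]
      unfold sgnR
      split_ifs <;> norm_num
    have hfn' : ‖f‖ = √(R.card) := by
      rw [← hfn, Real.sqrt_sq (norm_nonneg _)]
    have hHerm : (tmat W R).IsHermitian := by
      ext u v
      simp [tmat_symm hW.symm R u v]
    obtain ⟨y, hyE, hyn, hyf⟩ := exists_low_approx hHerm
      (qform_tmat_nonneg hW.symm hW.nonneg R) (c ^ 2 / 1024) (by positivity) f
    rw [← signless_eq W R _ hη1] at hyE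
    obtain ⟨z, hzN, hzy⟩ := hN.2 y hyE (by rw [← hfn']; exact hyn)
    obtain ⟨θ, hθ⟩ := exists_threshold (KU.filter fun v => v ∈ R) (IU.filter fun v => v ∈ R)
      (fun v => z v)
    -- use the earlier lemmas with a modified vector
    let z' : V → ℝ := fun v => if v ∈ R then z v else θ
    have hset : {v | v ∈ R ∧ θ < z v} = {v | x v = 1 / 2 ∧ θ < z' v} := by
      ext v
      simp only [Set.mem_setOf_eq, z']
      constructor
      · rintro ⟨h1, h2⟩
        exact ⟨hR.sub v h1, by rw [if_pos h1]; exact h2⟩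
      · rintro ⟨h1, h2⟩
        split_ifs at h2 with h3
        · exact ⟨h3, h2⟩
        · exact absurd h2 (lt_irrefl _)
    have hcandeq : ∀ M : G.Subgraph, candR x R z θ M = cand x z' θ M := by
      intro M
      unfold candR cand
      congr 2
      ext v
      simp only [Set.mem_setOf_eq, z']
      by_cases hv : v ∈ R
      · simp [hv]
      · simp [hv]
    refine ⟨z, hzN, θ, fun M hM => ?_⟩
    rw [hcandeq]
    rw [hset] at hM
    refine hall _ (cand_cover hx z' θ M hM) ?_
    have hcard := cand_card (x := x) z' θ M hM K hK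
    rw [← hA, ← hKU, ← hIU] at hcard
    have eKU : KU.filter (fun v => θ < z' v) = (KU.filter fun v => v ∈ R).filter fun v => θ < z v := by
      ext v
      simp only [Finset.mem_filter, z']
      by_cases hv : v ∈ R
      · simp [hv]
      · simp [hv]
    have eIU : (IU.filter (fun v => z' v ≤ θ)).card
        = ((IU.filter fun v => v ∈ R).filter fun v => z v ≤ θ).card + IO.card := by
      rw [← Finset.card_filter_add_card_filter_not (s := IU.filter (fun v => z' v ≤ θ))
        (fun v => v ∈ R)]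
      congr 1
      · congr 1
        ext v
        simp only [Finset.mem_filter, z']
        by_cases hv : v ∈ R
        · simp [hv]
        · simp [hv]
      · congr 1
        ext v
        simp only [Finset.mem_filter, hIU, hIO, Finset.mem_univ, true_and, z']
        by_cases hv : v ∈ R
        · simp [hv]
        · simp [hv]
    rw [eKU, eIU] at hcard
    set B1 := ((KU.filter fun v => v ∈ R).filter fun v => θ < z v).card with hB1
    set B2 := ((IU.filter fun v => v ∈ R).filter fun v => z v ≤ θ).card with hB2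
    have hcardR : ((cand x z' θ M).ncard : ℝ) ≤ A.card + KU.card
        + (((B1 : ℝ) + B2) + IO.card) := by
      have : (cand x z' θ M).ncard ≤ A.card + KU.card + ((B1 + B2) + IO.card) := by omega
      exact_mod_cast this
    have hfz : ∑ u ∈ KU.filter (fun v => v ∈ R), (z u + 1) ^ 2
        + ∑ u ∈ IU.filter (fun v => v ∈ R), (z u - 1) ^ 2 ≤ ‖f - z‖ ^ 2 := by
      rw [EuclideanSpace.real_norm_sq_eq]
      have hdis : Disjoint (KU.filter fun v => v ∈ R) (IU.filter fun v => v ∈ R) := by
        rw [Finset.disjoint_left]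
        intro v h1 h2
        exact (Finset.mem_filter.1 (Finset.mem_filter.1 h2).1).2.1
          (Finset.mem_filter.1 (Finset.mem_filter.1 h1).1).2.1
      have h1 : ∑ u ∈ KU.filter (fun v => v ∈ R), (z u + 1) ^ 2
          = ∑ u ∈ KU.filter (fun v => v ∈ R), (f - z) u ^ 2 := by
        refine Finset.sum_congr rfl fun u hu => ?_
        obtain ⟨hu1, hu2⟩ := Finset.mem_filter.1 hu
        have hu' := (Finset.mem_filter.1 hu1).2
        rw [PiLp.sub_apply, hfv]
        unfold sgnR
        rw [if_pos hu2, if_pos hu'.1]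
        ring
      have h2 : ∑ u ∈ IU.filter (fun v => v ∈ R), (z u - 1) ^ 2
          = ∑ u ∈ IU.filter (fun v => v ∈ R), (f - z) u ^ 2 := by
        refine Finset.sum_congr rfl fun u hu => ?_
        obtain ⟨hu1, hu2⟩ := Finset.mem_filter.1 hu
        have hu' := (Finset.mem_filter.1 hu1).2
        rw [PiLp.sub_apply, hfv]
        unfold sgnR
        rw [if_pos hu2, if_neg hu'.1]
        ring
      rw [h1, h2, ← Finset.sum_union hdis]
      apply Finset.sum_le_sum_of_subset_of_nonneg (Finset.subset_univ _)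
      intro _ _ _
      exact sq_nonneg _
    have htri : ‖f - z‖ ≤ ‖f - y‖ + √(R.card) / 4 := by
      calc ‖f - z‖ = ‖(f - y) + (y - z)‖ := by congr 1; abel
        _ ≤ ‖f - y‖ + ‖y - z‖ := norm_add_le _ _
        _ ≤ _ := by linarith
    have hmass' : (1 - c ^ 3 / 32768) * (U.card : ℝ) ≤ ∑ u, ∑ v, W u v := by
      rw [hm] at hmass; exact hmass
    have hout := outside_bound hW R K hK hR.sub (c / 4 * halfCount x)
      (c ^ 3 / 32768 * halfCount x) hR.cross (by
        rw [← hU, hm]; linarith)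
    rw [← hIO, ← hKO] at hout
    have hUcount : (IO.card : ℝ) + KO.card = U.card - R.card := by
      have h1 : U.card = (U.filter fun v => v ∈ R).card + (U.filter fun v => ¬ v ∈ R).card :=
        (Finset.card_filter_add_card_filter_not _).symm
      have h2 : U.filter (fun v => v ∈ R) = R := by
        ext v
        simp only [Finset.mem_filter, hU, Finset.mem_univ, true_and]
        exact ⟨fun h => h.2, fun h => ⟨hR.sub v h, h⟩⟩
      have h3 : (U.filter fun v => ¬ v ∈ R).card = KO.card + IO.card := by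
        rw [← Finset.card_filter_add_card_filter_not (s := U.filter fun v => ¬ v ∈ R)
          (fun v => v ∈ K)]
        congr 2
        · ext v
          simp only [Finset.mem_filter, hU, hKO, Finset.mem_univ, true_and]
          tauto
        · ext v
          simp only [Finset.mem_filter, hU, hIO, Finset.mem_univ, true_and]
          tauto
      rw [h2, h3] at h1
      have h4 : (U.card : ℝ) = R.card + (KO.card + IO.card) := by exact_mod_cast h1
      linarith
    refine arith2 (A.card : ℝ) (KU.card : ℝ) (U.card : ℝ) (R.card : ℝ) (IO.card : ℝ) c (‖f - y‖)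
      ((B1 : ℝ) + B2) (∑ u, ∑ v, W u v) ((cand x z' θ M).ncard : ℝ) (Nat.cast_nonneg _)
      (by exact_mod_cast hUK) (Nat.cast_nonneg _) hc hc1 (by rw [← hm]; exact hR.large) htriv hmass'
      ?_ (√(R.card)) ?_ ?_ ?_ hcardR
    · refine hyf.trans ?_
      apply div_le_div_of_nonneg_right _ (by positivity)
      exact qform_sgnR hW R K hK
    · rw [Real.sq_sqrt (Nat.cast_nonneg _)]
    · refine hθ.trans ?_
      apply div_le_div_of_nonneg_right _ (by norm_num)
      refine hfz.trans ?_
      exact pow_le_pow_left₀ (norm_nonneg _) htri 2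
    · rw [hm] at hout
      linarith

end

end Pool.Agent.Helper53.VCR
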