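import Mathlib
import Pool.Agent.Helper53.VCR.Dicho2

/-!
# Clusters or candidates, third part
-/

open Matrix Module

namespace Pool.Agent.Helper53.VCR

variable {V : Type*} [Fintype V] [DecidableEq V]

section
variable {G : SimpleGraph V} {x : V → ℝ} {W : Matrix V V ℝ}

theorem rank_decay (hW : FracMatching G x W) (c : ℝ) (s : ℕ) (R : Finset V) (hc : 0 < c)
    (hc1 : c ≤ 1) (hs : 1 ≤ s) (hR : ExpandingPart x W c s R) (t : ℕ) (ht : 1 ≤ t) :
    (finrank ℝ (signless W R (c ^ 2 / 1024)) : ℝ) * (1 - c ^ 2 / 1024) ^ (2 * t)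
      ≤ max (16 / (s : ℝ)) ((1 - c ^ 2 / 128) ^ t) * R.card := by
  have hc2 : c ^ 2 ≤ 1 := by nlinarith
  have hη1 : c ^ 2 / 1024 < 1 := by linarith
  have hHerm : (tmat W R).IsHermitian := by
    ext u v
    simp [tmat_symm hW.symm R u v]
  rw [signless_eq W R _ hη1]
  refine (finrank_mul_le_trace hHerm (1 - c ^ 2 / 1024) (by linarith) t).trans ?_
  refine (trace_tmat_le hW.nonneg hW.row R (2 * t)).trans ?_
  have hp := trace_le_of_expanding (W := pmat W R) (pmat_symm hW.symm R)
    (pmat_nonneg hW.nonneg hW.row R) (pmat_row W R)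
    (qform_nonneg' (pmat_symm hW.symm R) (pmat_nonneg hW.nonneg hW.row R) (pmat_row W R))
    (c / 4) (by linarith) (by linarith) s hs
    (pmat_small hW.nonneg R (c / 4) (by linarith) s hR.exp) t ht R
    (fun u v hne => by
      by_contra hu
      exact hne (by simp [pmat, hu]))
  have e : (c / 4) ^ 2 / 8 = c ^ 2 / 128 := by ring
  rwa [e] at hp

theorem rank_basic (hW : FracMatching G x W) (c : ℝ) (R : Finset V) (hc : 0 < c)
    (hc1 : c ≤ 1) :
    (finrank ℝ (signless W R (c ^ 2 / 1024)) : ℝ) * (1 - c ^ 2 / 1024) ^ 2 ≤ R.card := by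
  have hc2 : c ^ 2 ≤ 1 := by nlinarith
  have hη1 : c ^ 2 / 1024 < 1 := by linarith
  have hHerm : (tmat W R).IsHermitian := by
    ext u v
    simp [tmat_symm hW.symm R u v]
  rw [signless_eq W R _ hη1]
  have h1 := finrank_mul_le_trace hHerm (1 - c ^ 2 / 1024) (by linarith) 1
  rw [mul_one] at h1
  refine h1.trans ((trace_tmat_le hW.nonneg hW.row R 2).trans ?_)
  unfold Matrix.trace
  have h2 : ∀ u, Matrix.diag (pmat W R ^ 2) u ≤ if u ∈ R then (1 : ℝ) else 0 := by
    intro u
    rw [Matrix.diag_apply]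
    split_ifs with hu
    · refine le_trans ?_ (pow_col_sum (pmat_symm hW.symm R) (pmat_nonneg hW.nonneg hW.row R)
        (pmat_row W R) 2 u)
      exact Finset.single_le_sum (f := fun v => (pmat W R ^ 2) v u)
        (fun v _ => pow_nonneg_entry (pmat_nonneg hW.nonneg hW.row R) _ _ _) (Finset.mem_univ u)
    · rw [pow_succ' (pmat W R) 1, Matrix.mul_apply]
      refine (Finset.sum_eq_zero fun w _ => ?_).le
      simp [pmat, hu]
  refine (Finset.sum_le_sum fun u _ => h2 u).trans (le_of_eq ?_)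
  have ef : Finset.univ.filter (fun u => u ∈ R) = R := by ext u; simp
  rw [← Finset.sum_filter, ef, Finset.sum_const, nsmul_eq_mul, mul_one]

/-- The arithmetic turning the decay into a power of `s`. -/
theorem rank_arith (r ρ c : ℝ) (s : ℕ) (hr : 0 ≤ r) (hρ : 0 ≤ ρ) (hc : 0 < c) (hc1 : c ≤ 1)
    (hs : 1 ≤ s) (h1 : r * (1 - c ^ 2 / 1024) ^ 2 ≤ ρ)
    (h2 : ∀ t : ℕ, 1 ≤ t → r * (1 - c ^ 2 / 1024) ^ (2 * t)
      ≤ max (16 / (s : ℝ)) ((1 - c ^ 2 / 128) ^ t) * ρ) :
    r ^ 4 * (s : ℝ) ^ 3 ≤ (9 * ρ) ^ 4 := by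
  have hc2 : c ^ 2 ≤ 1 := by nlinarith
  have hc2' : 0 < c ^ 2 := by positivity
  have hs0 : (0 : ℝ) < s := by exact_mod_cast hs
  set y := (1 - c ^ 2 / 1024) ^ 2 with hy
  have hy1 : 1 - c ^ 2 / 512 ≤ y := by rw [hy]; nlinarith
  have hy0 : 0 < y := by linarith
  have hylt : y < 1 := by rw [hy]; nlinarith
  have hy4 : 1 - c ^ 2 / 128 ≤ y ^ 4 := by
    have h := one_add_mul_le_pow (a := -(c ^ 2 / 512)) (by linarith) 4
    have h' : (1 + -(c ^ 2 / 512)) ^ 4 ≤ y ^ 4 :=
      pow_le_pow_left₀ (by linarith) (by linarith) 4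
    push_cast at h
    linarith
  have hy4' : 127 / 128 ≤ y ^ 4 := by linarith
  rcases le_or_gt s 16 with h16 | h16
  · have h3 : r * (511 / 512) ≤ ρ := by
      refine le_trans (mul_le_mul_of_nonneg_left ?_ hr) h1
      linarith
    have h4 : r ≤ 512 / 511 * ρ := by linarith
    have h5 : r ^ 4 ≤ (512 / 511 * ρ) ^ 4 := pow_le_pow_left₀ hr h4 4
    have h6 : (s : ℝ) ^ 3 ≤ 16 ^ 3 := pow_le_pow_left₀ hs0.le (by exact_mod_cast h16) 3
    calc r ^ 4 * (s : ℝ) ^ 3 ≤ (512 / 511 * ρ) ^ 4 * 16 ^ 3 :=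
          mul_le_mul h5 h6 (by positivity) (by positivity)
      _ = ((512 / 511) ^ 4 * 16 ^ 3) * ρ ^ 4 := by ring
      _ ≤ 9 ^ 4 * ρ ^ 4 := mul_le_mul_of_nonneg_right (by norm_num) (by positivity)
      _ = (9 * ρ) ^ 4 := by ring
  · have hs16 : (16 : ℝ) < s := by exact_mod_cast h16
    have hex : ∃ t : ℕ, (y ^ t) ^ 4 ≤ 16 / (s : ℝ) := by
      obtain ⟨t, ht⟩ := exists_pow_lt_of_lt_one (show (0 : ℝ) < 16 / s by positivity) hylt
      refine ⟨t, ?_⟩
      have h0 : 0 ≤ y ^ t := by positivity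
      have h1 : y ^ t ≤ 1 := pow_le_one₀ hy0.le hylt.le
      calc (y ^ t) ^ 4 ≤ (y ^ t) ^ 1 := pow_le_pow_of_le_one h0 h1 (by norm_num)
        _ = y ^ t := pow_one _
        _ ≤ _ := ht.le
    classical
    let t := Nat.find hex
    have ht : (y ^ t) ^ 4 ≤ 16 / (s : ℝ) := Nat.find_spec hex
    have ht1 : 1 ≤ t := by
      by_contra h
      have h0 : t = 0 := by omega
      rw [h0] at ht
      rw [pow_zero, one_pow, le_div_iff₀ hs0] at ht
      linarith
    have hprev : 16 / (s : ℝ) < (y ^ (t - 1)) ^ 4 := by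
      have := Nat.find_min hex (m := t - 1) (by omega)
      exact not_le.1 this
    have hZ : y ^ t = y ^ (t - 1) * y := by
      rw [← pow_succ]
      congr 1
      omega
    set Z := y ^ t with hZdef
    have hZ0 : 0 < Z := by positivity
    have hZ4 : y ^ 4 * (16 / (s : ℝ)) ≤ Z ^ 4 := by
      rw [hZ, mul_pow, mul_comm]
      exact mul_le_mul_of_nonneg_right hprev.le (by positivity)
    have h3 := h2 t ht1
    have hpow : (1 - c ^ 2 / 1024) ^ (2 * t) = Z := by rw [pow_mul, ← hy]
    have hmax : max (16 / (s : ℝ)) ((1 - c ^ 2 / 128) ^ t) ≤ 16 / s := by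
      apply max_le le_rfl
      calc (1 - c ^ 2 / 128) ^ t ≤ (y ^ 4) ^ t := pow_le_pow_left₀ (by linarith) hy4 t
        _ = (y ^ t) ^ 4 := pow_right_comm y 4 t
        _ ≤ _ := ht
    rw [hpow] at h3
    have h4 : r * Z ≤ 16 / s * ρ := h3.trans (mul_le_mul_of_nonneg_right hmax hρ)
    have h5 : (r * Z) ^ 4 ≤ (16 / s * ρ) ^ 4 := pow_le_pow_left₀ (by positivity) h4 4
    have h6 : r ^ 4 * (y ^ 4 * (16 / (s : ℝ))) ≤ (16 / s * ρ) ^ 4 := by
      refine le_trans (mul_le_mul_of_nonneg_left hZ4 (by positivity)) ?_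
      rw [← mul_pow]; exact h5
    have h7 : r ^ 4 * (127 / 128 * (16 / (s : ℝ))) ≤ (16 / s * ρ) ^ 4 := by
      refine le_trans (mul_le_mul_of_nonneg_left ?_ (by positivity)) h6
      exact mul_le_mul_of_nonneg_right hy4' (by positivity)
    have h8 : r ^ 4 * (127 / 128 * 16) * (s : ℝ) ^ 3 ≤ 16 ^ 4 * ρ ^ 4 := by
      have e1 : r ^ 4 * (127 / 128 * (16 / (s : ℝ))) = r ^ 4 * (127 / 128 * 16) * (s : ℝ) ^ 3
          / (s : ℝ) ^ 4 := by field_simp
      have e2 : (16 / s * ρ) ^ 4 = 16 ^ 4 * ρ ^ 4 / (s : ℝ) ^ 4 := by field_simp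
      rw [e1, e2] at h7
      exact (div_le_div_iff_of_pos_right (by positivity)).1 h7
    have h9 : 0 ≤ ρ ^ 4 := by positivity
    nlinarith

theorem rank_final (hW : FracMatching G x W) (c : ℝ) (s : ℕ) (R : Finset V) (hc : 0 < c)
    (hc1 : c ≤ 1) (hs : 1 ≤ s) (hR : ExpandingPart x W c s R) :
    (finrank ℝ (signless W R (c ^ 2 / 1024)) : ℝ) ^ 4 * (s : ℝ) ^ 3 ≤ (9 * R.card) ^ 4 :=
  rank_arith _ _ c s (Nat.cast_nonneg _) (Nat.cast_nonneg _) hc hc1 hs
    (rank_basic hW c R hc hc1) (rank_decay hW c s R hc hc1 hs hR)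

/-- block decomposition of the mass -/
theorem mass_split (hsym : ∀ u v, W u v = W v u) (A B : Finset V) (h : Disjoint A B) :
    ∑ u ∈ A ∪ B, ∑ v ∈ A ∪ B, W u v
      = ∑ u ∈ A, ∑ v ∈ A, W u v + 2 * ∑ u ∈ A, ∑ v ∈ B, W u v + ∑ u ∈ B, ∑ v ∈ B, W u v := by
  rw [Finset.sum_union h]
  have h1 : ∀ u, ∑ v ∈ A ∪ B, W u v = ∑ v ∈ A, W u v + ∑ v ∈ B, W u v := fun u =>
    Finset.sum_union h
  simp_rw [h1, Finset.sum_add_distrib]
  have h2 : ∑ u ∈ B, ∑ v ∈ A, W u v = ∑ u ∈ A, ∑ v ∈ B, W u v := by
    rw [Finset.sum_comm]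
    exact Finset.sum_congr rfl fun v _ => Finset.sum_congr rfl fun u _ => hsym u v
  rw [h2]; ring

/-- Every graph is clustered or has an expanding part. -/
theorem dichotomy (hW : FracMatching G x W) (c : ℝ) (s : ℕ) (hc : 0 < c) :
    (∃ F, Clustered x W c s F) ∨ ∃ R, ExpandingPart x W c s R := by
  classical
  set U : Finset V := Finset.univ.filter fun v => x v = 1 / 2 with hU
  have hm : halfCount x = U.card := halfCount_eq x
  set τ := ∑ u, ∑ v, W u v with hτ
  have hz : ∀ u v, (u ∉ U ∨ v ∉ U) → W u v = 0 := by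
    intro u v h
    by_contra hne
    obtain ⟨_, h1, h2⟩ := hW.supp u v hne
    rcases h with h | h
    · exact h (Finset.mem_filter.2 ⟨Finset.mem_univ _, h1⟩)
    · exact h (Finset.mem_filter.2 ⟨Finset.mem_univ _, h2⟩)
  have hτU : τ = ∑ u ∈ U, ∑ v ∈ U, W u v := by
    rw [hτ]
    symm
    have h1 : ∀ u, ∑ v ∈ U, W u v = ∑ v, W u v := fun u =>
      Finset.sum_subset (Finset.subset_univ _) fun v _ hv => hz u v (Or.inr hv)
    simp_rw [h1]
    exact Finset.sum_subset (Finset.subset_univ _) fun u _ hu =>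
      Finset.sum_eq_zero fun v _ => hz u v (Or.inl hu)
  let bl : Finset V → ℝ := fun S => ∑ u ∈ S, ∑ v ∈ S, W u v
  let Valid : Finset (Finset V) → Prop := fun F =>
    (∀ S ∈ F, S.card ≤ s) ∧ (∀ S ∈ F, S ⊆ U) ∧ (∀ S ∈ F, ∀ T ∈ F, S ≠ T → Disjoint S T) ∧
      τ - (∑ S ∈ F, bl S + bl (U \ F.biUnion id)) ≤ c / 2 * (F.biUnion id).card
  have h0 : Valid ∅ := by
    refine ⟨by simp, by simp, by simp, ?_⟩
    simp only [Finset.sum_empty, Finset.biUnion_empty, Finset.sdiff_empty, Finset.card_empty,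
      Nat.cast_zero, mul_zero, zero_add, bl]
    rw [hτU]; simp
  obtain ⟨F, hF, hmax⟩ := Set.exists_max_image {F | Valid F} (fun F => (F.biUnion id).card)
    (Set.toFinite _) ⟨∅, h0⟩
  obtain ⟨hF1, hF2, hF3, hF4⟩ := hF
  set B := F.biUnion id with hB
  set R := U \ B with hR
  have hBU : B ⊆ U := by
    rw [hB]
    exact Finset.biUnion_subset.2 fun S hS => hF2 S hS
  have hRB : Disjoint R B := Finset.sdiff_disjoint
  have hUeq : U = R ∪ B := by rw [hR, Finset.sdiff_union_of_subset hBU]
  have hcard : (U.card : ℝ) = R.card + B.card := by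
    have : U.card = R.card + B.card := by
      conv_lhs => rw [hUeq]
      exact Finset.card_union_of_disjoint hRB
    exact_mod_cast this
  have hτs : τ = bl R + 2 * ∑ u ∈ R, ∑ v ∈ B, W u v + bl B := by
    rw [hτU, hUeq]
    exact mass_split hW.symm R B hRB
  by_cases hlarge : c * halfCount x ≤ R.card
  · right
    refine ⟨R, ⟨?_, hlarge, ?_, ?_⟩⟩
    · intro v hv
      exact (Finset.mem_filter.1 (Finset.mem_sdiff.1 hv).1).2
    · have hFB : ∑ S ∈ F, bl S ≤ bl B := by
        have h1 : bl B = ∑ S ∈ F, ∑ u ∈ S, ∑ v ∈ B, W u v := by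
          exact Finset.sum_biUnion (s := F) (t := (id : Finset V → Finset V))
            (f := fun u => ∑ v ∈ B, W u v) (fun S hS T hT hne => hF3 S hS T hT hne)
        rw [h1]
        refine Finset.sum_le_sum fun S hS => Finset.sum_le_sum fun u _ => ?_
        apply Finset.sum_le_sum_of_subset_of_nonneg
        · intro v hv
          exact Finset.mem_biUnion.2 ⟨S, hS, hv⟩
        · intro v _ _
          exact hW.nonneg u v
      have hRc : ∑ u ∈ R, ∑ v ∈ Rᶜ, W u v = ∑ u ∈ R, ∑ v ∈ B, W u v := by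
        refine Finset.sum_congr rfl fun u _ => ?_
        symm
        apply Finset.sum_subset
        · intro v hv
          exact Finset.mem_compl.2 fun hvR => Finset.disjoint_left.1 hRB hvR hv
        · intro v hv hvB
          apply hz
          right
          intro hvU
          rw [hUeq] at hvU
          rcases Finset.mem_union.1 hvU with h | h
          · exact Finset.mem_compl.1 hv h
          · exact hvB h
      rw [hRc]
      have hBm : (B.card : ℝ) ≤ halfCount x := by
        rw [hm]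
        exact_mod_cast Finset.card_le_card hBU
      nlinarith
    · intro S hSR hSs
      rcases S.eq_empty_or_nonempty with he | hne
      · subst he; simp
      · have hSB : Disjoint S B := Finset.disjoint_of_subset_left hSR hRB
        have hSF : S ∉ F := by
          intro h
          obtain ⟨v, hv⟩ := hne
          exact Finset.disjoint_left.1 hSB hv (Finset.mem_biUnion.2 ⟨S, h, hv⟩)
        have hbi : (insert S F).biUnion id = S ∪ B := by
          rw [Finset.biUnion_insert, hB]; rfl
        have hcS : ((insert S F).biUnion id).card = S.card + B.card := by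
          rw [hbi, Finset.card_union_of_disjoint hSB]
        have hnot : ¬ Valid (insert S F) := by
          intro hv
          have := hmax _ hv
          rw [hcS] at this
          have := hne.card_pos
          omega
        have h4 : ¬ τ - (∑ T ∈ insert S F, bl T + bl (U \ (insert S F).biUnion id))
            ≤ c / 2 * ((insert S F).biUnion id).card := by
          intro h
          apply hnot
          refine ⟨?_, ?_, ?_, h⟩
          · intro T hT
            rcases Finset.mem_insert.1 hT with rfl | hT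
            · exact hSs
            · exact hF1 T hT
          · intro T hT
            rcases Finset.mem_insert.1 hT with rfl | hT
            · exact hSR.trans (by rw [hUeq]; exact Finset.subset_union_left)
            · exact hF2 T hT
          · intro T hT T' hT' hne'
            rcases Finset.mem_insert.1 hT with e | hT1
            · rcases Finset.mem_insert.1 hT' with e' | hT1'
              · exact absurd (e.trans e'.symm) hne'
              · rw [e]
                exact Finset.disjoint_of_subset_right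
                  (fun v hv => Finset.mem_biUnion.2 ⟨T', hT1', hv⟩) hSB
            · rcases Finset.mem_insert.1 hT' with e' | hT1'
              · rw [e']
                exact (Finset.disjoint_of_subset_right
                  (fun v hv => Finset.mem_biUnion.2 ⟨T, hT1, hv⟩) hSB).symm
              · exact hF3 T hT1 T' hT1' hne'
        have hRS : U \ (insert S F).biUnion id = R \ S := by
          rw [hbi, hR]
          ext v
          simp only [Finset.mem_sdiff, Finset.mem_union]
          tauto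
        have hsumF : ∑ T ∈ insert S F, bl T = bl S + ∑ T ∈ F, bl T := Finset.sum_insert hSF
        have hblR : bl R = bl (R \ S) + 2 * ∑ u ∈ S, ∑ v ∈ R \ S, W u v + bl S := by
          have hd : Disjoint (R \ S) S := Finset.sdiff_disjoint
          have e : R = (R \ S) ∪ S := (Finset.sdiff_union_of_subset hSR).symm
          have h5 := mass_split hW.symm (R \ S) S hd
          rw [← e] at h5
          have h6 : ∑ u ∈ R \ S, ∑ v ∈ S, W u v = ∑ u ∈ S, ∑ v ∈ R \ S, W u v := by
            rw [Finset.sum_comm]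
            exact Finset.sum_congr rfl fun v _ => Finset.sum_congr rfl fun u _ => hW.symm u v
          rw [h6] at h5
          exact h5
        rw [hRS, hsumF, hcS] at h4
        push Not at h4
        push_cast at h4
        linarith
  · left
    refine ⟨F, ⟨hF1, ?_, hF3, ?_, ?_⟩⟩
    · intro S hS v hv
      exact (Finset.mem_filter.1 (hF2 S hS hv)).2
    · rw [← hB]
      have := not_le.1 hlarge
      rw [hm] at this ⊢
      linarith
    · have h1 := not_le.1 hlarge
      have h2 : bl R ≤ R.card := by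
        simp only [bl]
        calc ∑ u ∈ R, ∑ v ∈ R, W u v ≤ ∑ u ∈ R, (1 : ℝ) := Finset.sum_le_sum fun u _ =>
              rowR_le hW.nonneg hW.row R u
          _ = R.card := by simp
      have h3 : (B.card : ℝ) ≤ halfCount x := by
        rw [hm]
        exact_mod_cast Finset.card_le_card hBU
      have h4 : c / 2 * (B.card : ℝ) ≤ c / 2 * halfCount x :=
        mul_le_mul_of_nonneg_left h3 (by linarith)
      change τ - 3 / 2 * c * halfCount x ≤ ∑ S ∈ F, bl S
      linarith

end

end Pool.Agent.Helper53.VCR
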