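import Mathlib

/-!
# Traces of powers of weights on graphs without short cycles
-/

open Matrix

namespace Pool.Agent.Helper53.VCR

section paths
variable {V : Type*} {G : SimpleGraph V}

/-- Two paths with the same ends and small total length are equal when there is no short cycle. -/
theorem path_eq_of_no_short_cycle (n : ℕ) (h : ∀ (v : V) (c : G.Walk v v), c.IsCycle → n < c.length)
    {a b : V} (p q : G.Walk a b) (hp : p.IsPath) (hq : q.IsPath) (hl : p.length + q.length ≤ n) :
    p = q := by
  classical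
  let S : Set (Sym2 V) := {e | e ∈ p.edges ∨ e ∈ q.edges}
  let H : SimpleGraph V := SimpleGraph.fromEdgeSet S
  have hSG : S ⊆ G.edgeSet := by
    rintro e (he | he)
    · exact p.edges_subset_edgeSet he
    · exact q.edges_subset_edgeSet he
  have hHS : H.edgeSet = S := by
    simp only [H, SimpleGraph.edgeSet_fromEdgeSet]
    ext e
    simp only [Set.mem_diff]
    refine ⟨fun h => h.1, fun h => ⟨h, ?_⟩⟩
    exact G.not_isDiag_of_mem_edgeSet (hSG h)
  have hHG : H ≤ G := by
    rw [← SimpleGraph.edgeSet_subset_edgeSet, hHS]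
    exact hSG
  have hac : H.IsAcyclic := by
    intro v c hc
    have hc' := hc.mapLe hHG
    have h1 := h v _ hc'
    have h2 : (c.mapLe hHG).length = c.length := by simp
    rw [h2] at h1
    have h3 : c.length = c.edges.toFinset.card := by
      rw [List.toFinset_card_of_nodup hc.edges_nodup, SimpleGraph.Walk.length_edges]
    have h4 : c.edges.toFinset ⊆ p.edges.toFinset ∪ q.edges.toFinset := by
      intro e he
      have : e ∈ S := by
        rw [← hHS]
        exact c.edges_subset_edgeSet (List.mem_toFinset.1 he)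
      rcases this with h | h
      · exact Finset.mem_union_left _ (List.mem_toFinset.2 h)
      · exact Finset.mem_union_right _ (List.mem_toFinset.2 h)
    have h5 := (Finset.card_le_card h4).trans (Finset.card_union_le _ _)
    have h6 : p.edges.toFinset.card ≤ p.length := by
      rw [← SimpleGraph.Walk.length_edges]; exact List.toFinset_card_le _
    have h7 : q.edges.toFinset.card ≤ q.length := by
      rw [← SimpleGraph.Walk.length_edges]; exact List.toFinset_card_le _
    omega
  have hpS : ∀ e ∈ p.edges, e ∈ H.edgeSet := fun e he => by rw [hHS]; exact Or.inl he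
  have hqS : ∀ e ∈ q.edges, e ∈ H.edgeSet := fun e he => by rw [hHS]; exact Or.inr he
  have hu := hac.path_unique ⟨p.transfer H hpS, hp.transfer hpS⟩ ⟨q.transfer H hqS, hq.transfer hqS⟩
  have hu' : p.transfer H hpS = q.transfer H hqS := congrArg Subtype.val hu
  have hs := congrArg SimpleGraph.Walk.support hu'
  rw [SimpleGraph.Walk.support_transfer, SimpleGraph.Walk.support_transfer] at hs
  exact SimpleGraph.Walk.ext_support hs

theorem parent_unique (n : ℕ) (h : ∀ (v : V) (c : G.Walk v v), c.IsCycle → n < c.length)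
    {u v p q : V} (hp : G.Adj p v) (hq : G.Adj q v) (hn : 2 * G.dist u v ≤ n)
    (h1 : G.dist u v = G.dist u p + 1) (h2 : G.dist u v = G.dist u q + 1) : p = q := by
  have hr : G.Reachable u v := SimpleGraph.Reachable.of_dist_ne_zero (by omega)
  obtain ⟨a, ha⟩ := (hr.trans hp.symm.reachable).exists_walk_length_eq_dist
  obtain ⟨b, hb⟩ := (hr.trans hq.symm.reachable).exists_walk_length_eq_dist
  have ea : (a.concat hp).length = G.dist u v := by rw [SimpleGraph.Walk.length_concat, ha, h1]
  have eb : (b.concat hq).length = G.dist u v := by rw [SimpleGraph.Walk.length_concat, hb, h2]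
  have hab := path_eq_of_no_short_cycle n h (a.concat hp) (b.concat hq)
    ((a.concat hp).isPath_of_length_eq_dist ea) ((b.concat hq).isPath_of_length_eq_dist eb)
    (by rw [ea, eb]; omega)
  have := congrArg SimpleGraph.Walk.penultimate hab
  simpa using this

theorem no_level_edge (n : ℕ) (h : ∀ (v : V) (c : G.Walk v v), c.IsCycle → n < c.length)
    {u v w : V} (hr : G.Reachable u v) (hadj : G.Adj v w) (hd : G.dist u v = G.dist u w)
    (hn : 2 * G.dist u v + 1 ≤ n) : False := by
  classical
  obtain ⟨a, hap, ha⟩ := hr.exists_path_of_dist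
  obtain ⟨b, hbp, hb⟩ := (hr.trans hadj.reachable).exists_path_of_dist
  have hvb : v ∉ b.support := by
    intro hv
    have h1 := SimpleGraph.Walk.length_takeUntil_lt_length hv hadj.ne
    have h2 := SimpleGraph.dist_le (b.takeUntil v hv)
    omega
  have hc := hbp.concat hvb hadj.symm
  have he := path_eq_of_no_short_cycle n h a (b.concat hadj.symm) hap hc (by
    rw [SimpleGraph.Walk.length_concat]; omega)
  have hl := congrArg SimpleGraph.Walk.length he
  rw [SimpleGraph.Walk.length_concat] at hl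
  omega

end paths

section sums
variable {V : Type*} [Fintype V]

theorem sq_sum_of_unique (T : V → ℝ) (h : ∀ w w', T w ≠ 0 → T w' ≠ 0 → w = w') :
    (∑ w, T w) ^ 2 = ∑ w, T w ^ 2 := by
  classical
  by_cases h0 : ∃ w, T w ≠ 0
  · obtain ⟨w, hw⟩ := h0
    have hz : ∀ w', w' ≠ w → T w' = 0 := fun w' hne => by
      by_contra hn
      exact hne (h w' w hn hw)
    rw [Finset.sum_eq_single w (fun w' _ hne => hz w' hne) (by simp),
      Finset.sum_eq_single w (fun w' _ hne => by rw [hz w' hne]; ring) (by simp)]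
  · push Not at h0
    simp [h0]

theorem sum_ite_le_of_unique (P : V → Prop) [DecidablePred P] (a : ℝ) (ha : 0 ≤ a)
    (h : ∀ w w', P w → P w' → w = w') : ∑ w, (if P w then a else 0) ≤ a := by
  classical
  by_cases h0 : ∃ w, P w
  · obtain ⟨w, hw⟩ := h0
    rw [Finset.sum_eq_single w (fun w' _ hne => if_neg fun hp => hne (h w' w hp hw)) (by simp),
      if_pos hw]
  · push Not at h0
    simp [h0, ha]

variable {G : SimpleGraph V} {W : Matrix V V ℝ}

/-- One step of the walk costs at most a factor `4 μ` in squared norm. -/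
theorem step_sq (hsym : ∀ u v, W u v = W v u) (hsupp : ∀ u v, W u v ≠ 0 → G.Adj u v)
    (μ : ℝ) (hμ : ∀ u, ∑ v, W u v ^ 2 ≤ μ) (n : ℕ)
    (h : ∀ (v : V) (c : G.Walk v v), c.IsCycle → n < c.length) (u : V) (j : ℕ)
    (hj : 2 * (j + 1) ≤ n) (a : V → ℝ) (ha : ∀ v, a v ≠ 0 → G.Reachable u v ∧ G.dist u v ≤ j) :
    ∑ v, (∑ w, W v w * a w) ^ 2 ≤ 4 * μ * ∑ v, a v ^ 2 ∧
      ∀ v, ∑ w, W v w * a w ≠ 0 → G.Reachable u v ∧ G.dist u v ≤ j + 1 := by
  classical
  let T : V → V → ℝ := fun v w => if G.dist u v = G.dist u w + 1 then W v w * a w else 0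
  let T' : V → V → ℝ := fun v w => if G.dist u w = G.dist u v + 1 then W v w * a w else 0
  have hTT : ∀ v w, W v w * a w = T v w + T' v w := by
    intro v w
    by_cases h0 : W v w * a w = 0
    · simp [T, T', h0]
    · have hw : W v w ≠ 0 := left_ne_zero_of_mul h0
      have haw : a w ≠ 0 := right_ne_zero_of_mul h0
      have hadj := hsupp v w hw
      obtain ⟨hr, hd⟩ := ha w haw
      have hne : G.dist u w ≠ G.dist u v := fun e =>
        no_level_edge n h hr hadj.symm e (by omega)
      have h3 := SimpleGraph.Adj.diff_dist_adj (u := u) hadj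
      simp only [T, T']
      by_cases h4 : G.dist u v = G.dist u w + 1
      · rw [if_pos h4, if_neg (by omega), add_zero]
      · rw [if_neg h4, if_pos (by omega), zero_add]
  have hTadj : ∀ v w, T v w ≠ 0 → G.Adj w v ∧ G.dist u v = G.dist u w + 1 ∧ G.dist u w ≤ j := by
    intro v w hne
    simp only [T] at hne
    split_ifs at hne with hc
    · exact ⟨(hsupp v w (left_ne_zero_of_mul hne)).symm, hc, (ha w (right_ne_zero_of_mul hne)).2⟩
    · exact absurd rfl hne
  have hD : ∑ v, (∑ w, T v w) ^ 2 ≤ μ * ∑ v, a v ^ 2 := by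
    have h1 : ∀ v, (∑ w, T v w) ^ 2 = ∑ w, T v w ^ 2 := by
      intro v
      apply sq_sum_of_unique
      intro w w' hw hw'
      obtain ⟨h1, h2, h3⟩ := hTadj v w hw
      obtain ⟨h1', h2', h3'⟩ := hTadj v w' hw'
      exact parent_unique n h h1 h1' (by omega) h2 h2'
    calc ∑ v, (∑ w, T v w) ^ 2 = ∑ v, ∑ w, T v w ^ 2 := Finset.sum_congr rfl fun v _ => h1 v
      _ ≤ ∑ v, ∑ w, W v w ^ 2 * a w ^ 2 := by
          refine Finset.sum_le_sum fun v _ => Finset.sum_le_sum fun w _ => ?_
          simp only [T]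
          split_ifs
          · exact (mul_pow _ _ _).le
          · have := mul_nonneg (sq_nonneg (W v w)) (sq_nonneg (a w))
            simpa using this
      _ = ∑ w, (∑ v, W w v ^ 2) * a w ^ 2 := by
          rw [Finset.sum_comm]
          refine Finset.sum_congr rfl fun w _ => ?_
          rw [Finset.sum_mul]
          exact Finset.sum_congr rfl fun v _ => by rw [hsym v w]
      _ ≤ ∑ w, μ * a w ^ 2 := Finset.sum_le_sum fun w _ =>
          mul_le_mul_of_nonneg_right (hμ w) (sq_nonneg _)
      _ = μ * ∑ v, a v ^ 2 := by rw [Finset.mul_sum]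
  have hD' : ∑ v, (∑ w, T' v w) ^ 2 ≤ μ * ∑ v, a v ^ 2 := by
    let P : V → V → Prop := fun v w => G.dist u w = G.dist u v + 1 ∧ W v w ≠ 0 ∧ a w ≠ 0
    have h1 : ∀ v, (∑ w, T' v w) ^ 2 ≤ μ * ∑ w, (if P v w then a w ^ 2 else 0) := by
      intro v
      have e : ∑ w, T' v w = ∑ w, W v w * (if P v w then a w else 0) := by
        refine Finset.sum_congr rfl fun w _ => ?_
        simp only [T', P]
        by_cases hc : G.dist u w = G.dist u v + 1
        · by_cases hw : W v w = 0
          · simp [hw]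
          · by_cases haw : a w = 0
            · simp [haw]
            · simp [hc, hw, haw]
        · simp [hc]
      rw [e]
      refine (Finset.sum_mul_sq_le_sq_mul_sq _ _ _).trans ?_
      have e2 : ∑ w, (if P v w then a w else 0) ^ 2 = ∑ w, (if P v w then a w ^ 2 else 0) := by
        refine Finset.sum_congr rfl fun w _ => ?_
        split_ifs <;> ring
      rw [e2]
      exact mul_le_mul_of_nonneg_right (hμ v) (Finset.sum_nonneg fun w _ => by
        split_ifs <;> positivity)
    have hμ0 : 0 ≤ μ := (Finset.sum_nonneg fun v _ => sq_nonneg _).trans (hμ u)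
    calc ∑ v, (∑ w, T' v w) ^ 2 ≤ ∑ v, μ * ∑ w, (if P v w then a w ^ 2 else 0) :=
          Finset.sum_le_sum fun v _ => h1 v
      _ = μ * ∑ w, ∑ v, (if P v w then a w ^ 2 else 0) := by
          rw [← Finset.mul_sum, Finset.sum_comm]
      _ ≤ μ * ∑ w, a w ^ 2 := by
          apply mul_le_mul_of_nonneg_left _ hμ0
          refine Finset.sum_le_sum fun w _ => ?_
          apply sum_ite_le_of_unique (fun v => P v w) _ (sq_nonneg _)
          intro v v' hv hv'
          have hd := (ha w hv.2.2).2
          exact parent_unique n h (hsupp v w hv.2.1) (hsupp v' w hv'.2.1) (by omega) hv.1 hv'.1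
  constructor
  · calc ∑ v, (∑ w, W v w * a w) ^ 2 = ∑ v, (∑ w, T v w + ∑ w, T' v w) ^ 2 := by
          refine Finset.sum_congr rfl fun v _ => ?_
          rw [← Finset.sum_add_distrib]
          congr 1
          exact Finset.sum_congr rfl fun w _ => hTT v w
      _ ≤ ∑ v, (2 * (∑ w, T v w) ^ 2 + 2 * (∑ w, T' v w) ^ 2) := by
          refine Finset.sum_le_sum fun v _ => ?_
          nlinarith [sq_nonneg (∑ w, T v w - ∑ w, T' v w)]
      _ = 2 * ∑ v, (∑ w, T v w) ^ 2 + 2 * ∑ v, (∑ w, T' v w) ^ 2 := by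
          rw [Finset.sum_add_distrib, Finset.mul_sum, Finset.mul_sum]
      _ ≤ 4 * μ * ∑ v, a v ^ 2 := by linarith
  · intro v hv
    obtain ⟨w, _, hw⟩ := Finset.exists_ne_zero_of_sum_ne_zero hv
    have hadj := hsupp v w (left_ne_zero_of_mul hw)
    obtain ⟨hr, hd⟩ := ha w (right_ne_zero_of_mul hw)
    refine ⟨hr.trans hadj.symm.reachable, ?_⟩
    have h3 := SimpleGraph.Adj.diff_dist_adj (u := u) hadj
    omega

variable [DecidableEq V]

theorem pow_sq (hsym : ∀ u v, W u v = W v u) (hsupp : ∀ u v, W u v ≠ 0 → G.Adj u v)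
    (μ : ℝ) (hμ : ∀ u, ∑ v, W u v ^ 2 ≤ μ) (t : ℕ)
    (h : ∀ (v : V) (c : G.Walk v v), c.IsCycle → 2 * t < c.length) (u : V) (j : ℕ) (hj : j ≤ t) :
    ∑ v, ((W ^ j) v u) ^ 2 ≤ (4 * μ) ^ j ∧
      ∀ v, (W ^ j) v u ≠ 0 → G.Reachable u v ∧ G.dist u v ≤ j := by
  induction j with
  | zero =>
    constructor
    · simp [Matrix.one_apply]
    · intro v hv
      rw [pow_zero, Matrix.one_apply] at hv
      split_ifs at hv with he
      · subst he
        simp
      · exact absurd rfl hv
  | succ j ih =>
    obtain ⟨ih1, ih2⟩ := ih (by omega)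
    have hs := step_sq hsym hsupp μ hμ (2 * t) h u j (by omega) (fun v => (W ^ j) v u) ih2
    have e : ∀ v, (W ^ (j + 1)) v u = ∑ w, W v w * (W ^ j) w u := by
      intro v
      rw [pow_succ', Matrix.mul_apply]
    have hμ0 : 0 ≤ μ := (Finset.sum_nonneg fun v _ => sq_nonneg _).trans (hμ u)
    constructor
    · simp_rw [e]
      refine hs.1.trans ?_
      rw [pow_succ']
      exact mul_le_mul_of_nonneg_left ih1 (by positivity)
    · intro v hv
      rw [e] at hv
      exact hs.2 v hv

/-- The trace bound on graphs without short cycles. -/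
theorem trace_le_of_no_short_cycle (hsym : ∀ u v, W u v = W v u)
    (hsupp : ∀ u v, W u v ≠ 0 → G.Adj u v)
    (μ : ℝ) (hμ : ∀ u, ∑ v, W u v ^ 2 ≤ μ) (t : ℕ) (ht : 1 ≤ t)
    (h : ∀ (v : V) (c : G.Walk v v), c.IsCycle → 2 * t < c.length) (U : Finset V)
    (hU : ∀ u v, W u v ≠ 0 → u ∈ U) :
    trace (W ^ (2 * t)) ≤ (4 * μ) ^ t * U.card := by
  have hsymt : ∀ (k : ℕ) (u v : V), (W ^ k) u v = (W ^ k) v u := by
    intro k
    have hT : Wᵀ = W := by ext u v; exact hsym v u
    intro u v
    have : (W ^ k)ᵀ = W ^ k := by rw [Matrix.transpose_pow, hT]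
    conv_lhs => rw [← this]
    rfl
  have h1 : trace (W ^ (2 * t)) = ∑ u, ∑ v, ((W ^ t) v u) ^ 2 := by
    unfold Matrix.trace
    refine Finset.sum_congr rfl fun u _ => ?_
    rw [two_mul, pow_add, Matrix.diag_apply, Matrix.mul_apply]
    refine Finset.sum_congr rfl fun v _ => ?_
    rw [hsymt t u v]
    ring
  rw [h1]
  have h2 : ∀ u, ∑ v, ((W ^ t) v u) ^ 2 ≤ if u ∈ U then (4 * μ) ^ t else 0 := by
    intro u
    split_ifs with hu
    · exact (pow_sq hsym hsupp μ hμ t h u t le_rfl).1
    · refine (Finset.sum_eq_zero fun v _ => ?_).le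
      obtain ⟨s, rfl⟩ : ∃ s, t = s + 1 := ⟨t - 1, by omega⟩
      rw [pow_succ W s, Matrix.mul_apply]
      have : ∑ w, (W ^ s) v w * W w u = 0 := by
        refine Finset.sum_eq_zero fun w _ => ?_
        have : W w u = 0 := by
          by_contra hne
          rw [hsym] at hne
          exact hu (hU u w hne)
        rw [this, mul_zero]
      rw [this]
      ring
  refine (Finset.sum_le_sum fun u _ => h2 u).trans (le_of_eq ?_)
  rw [← Finset.sum_filter, Finset.sum_const, nsmul_eq_mul, mul_comm]
  congr 2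
  congr 1
  ext u
  simp

end sums

end Pool.Agent.Helper53.VCR
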